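import Mathlib
set_option autoImplicit false

/-! One-dimensional oscillatory integrals on a circle. -/

namespace Pool.Agent.U506.SP

open MeasureTheory Set Complex
open scoped ENNReal NNReal

/-- the oscillating factor -/
noncomputable def os (z t u : ℝ) : ℂ := cexp (((-(z * (t * Real.cos u)) : ℝ) : ℂ) * I)

lemma os_norm (z t u : ℝ) : ‖os z t u‖ = 1 := by
  unfold os
  rw [Complex.norm_exp_ofReal_mul_I]

lemma os_cont : Continuous fun p : ℝ × ℝ × ℝ => os p.1 p.2.1 p.2.2 := by
  unfold os
  fun_prop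

lemma os_cont' (z t : ℝ) : Continuous (os z t) := by
  unfold os
  fun_prop

lemma os_deriv (z t u : ℝ) :
    HasDerivAt (os z t) (((z * (t * Real.sin u) : ℝ) : ℂ) * I * os z t u) u := by
  have h1 : HasDerivAt (fun u : ℝ => -(z * (t * Real.cos u))) (z * (t * Real.sin u)) u := by
    have h := ((Real.hasDerivAt_cos u).const_mul t).const_mul z
    exact h.neg.congr_deriv (by ring)
  have h2 : HasDerivAt (fun u : ℝ => ((-(z * (t * Real.cos u)) : ℝ) : ℂ) * I)
      (((z * (t * Real.sin u) : ℝ) : ℂ) * I) u := (h1.ofReal_comp).mul_const I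
  have h3 := h2.cexp
  unfold os
  convert h3 using 1
  ring

/-- first derivative test on an interval to the right of `v` and left of `π/2` -/
lemma first_aux {z t : ℝ} (hz : z = 1 ∨ z = -1) (ht : 0 < t) {v w : ℝ} (hv : 0 < v) (hvw : v ≤ w)
    (hw : w ≤ Real.pi / 2) : ‖∫ u in v..w, os z t u‖ ≤ 2 / (t * Real.sin v) := by
  have hpi := Real.pi_pos
  have hz1 : |z| = 1 := by rcases hz with h | h <;> simp [h]
  have hz0 : z ≠ 0 := by intro h; rw [h] at hz1; simp at hz1
  have hsin : ∀ u ∈ Icc v w, 0 < Real.sin u := fun u hu =>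
    Real.sin_pos_of_pos_of_lt_pi (hv.trans_le hu.1) (by linarith [hu.2])
  have hsv : 0 < Real.sin v := hsin v ⟨le_rfl, hvw⟩
  -- by parts
  set f : ℝ → ℂ := fun u => (((z * t * Real.sin u)⁻¹ : ℝ) : ℂ) * (-I) with hf
  set f' : ℝ → ℂ := fun u => ((-(Real.cos u) / (z * t * Real.sin u ^ 2) : ℝ) : ℂ) * (-I) with hf'
  have hfd : ∀ u ∈ uIcc v w, HasDerivAt f (f' u) u := by
    intro u hu
    rw [uIcc_of_le hvw] at hu
    have hs := hsin u hu
    have h1 : HasDerivAt (fun u : ℝ => z * t * Real.sin u) (z * t * Real.cos u) u :=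
      (Real.hasDerivAt_sin u).const_mul (z * t)
    have h2 := h1.inv (by
      have : z * t * Real.sin u ≠ 0 := mul_ne_zero (mul_ne_zero hz0 ht.ne') hs.ne'
      exact this)
    have h3 : HasDerivAt (fun u : ℝ => (z * t * Real.sin u)⁻¹)
        (-(Real.cos u) / (z * t * Real.sin u ^ 2)) u := by
      refine h2.congr_deriv ?_
      field_simp
    exact (h3.ofReal_comp).mul_const (-I)
  have hod : ∀ u ∈ uIcc v w, HasDerivAt (os z t) (((z * (t * Real.sin u) : ℝ) : ℂ) * I * os z t u) u :=
    fun u _ => os_deriv z t u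
  have hf'c : ContinuousOn f' (Icc v w) := by
    rw [hf']
    apply ContinuousOn.mul _ continuousOn_const
    apply Complex.continuous_ofReal.comp_continuousOn
    apply ContinuousOn.div
    · fun_prop
    · fun_prop
    · intro u hu
      have := hsin u hu
      exact mul_ne_zero (mul_ne_zero hz0 ht.ne') (pow_ne_zero 2 this.ne')
  have hoc : Continuous fun u : ℝ => ((z * (t * Real.sin u) : ℝ) : ℂ) * I * os z t u := by
    have := os_cont' z t
    fun_prop
  have hparts := intervalIntegral.integral_mul_deriv_eq_deriv_mul hfd hod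
    (hf'c.intervalIntegrable_of_Icc hvw) (hoc.intervalIntegrable v w)
  have e1 : ∫ u in v..w, f u * (((z * (t * Real.sin u) : ℝ) : ℂ) * I * os z t u) =
      ∫ u in v..w, os z t u := by
    apply intervalIntegral.integral_congr
    intro u hu
    rw [uIcc_of_le hvw] at hu
    have hs := hsin u hu
    simp only [hf]
    have h1 : (((z * t * Real.sin u)⁻¹ : ℝ) : ℂ) * (((z * (t * Real.sin u)) : ℝ) : ℂ) = 1 := by
      rw [← Complex.ofReal_mul, mul_assoc z t, inv_mul_cancel₀, Complex.ofReal_one]
      exact mul_ne_zero hz0 (mul_ne_zero ht.ne' hs.ne')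
    calc _ = ((((z * t * Real.sin u)⁻¹ : ℝ) : ℂ) * (((z * (t * Real.sin u)) : ℝ) : ℂ)) * (-(I * I)) *
          os z t u := by ring
      _ = _ := by rw [h1, Complex.I_mul_I]; ring
  rw [e1] at hparts
  rw [hparts]
  have hfn : ∀ u ∈ Icc v w, ‖f u‖ = 1 / (t * Real.sin u) := by
    intro u hu
    have hs := hsin u hu
    simp only [hf]
    rw [norm_mul, norm_neg, Complex.norm_I, mul_one, Complex.norm_real, Real.norm_eq_abs, abs_inv,
      abs_mul, abs_mul, hz1, one_mul, abs_of_pos ht, abs_of_pos hs, one_div]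
  have hI : ‖∫ u in v..w, f' u * os z t u‖ ≤ 1 / (t * Real.sin v) - 1 / (t * Real.sin w) := by
    have hd : ∀ u ∈ uIcc v w, HasDerivAt (fun u : ℝ => -(1 / (t * Real.sin u)))
        (Real.cos u / (t * Real.sin u ^ 2)) u := by
      intro u hu
      rw [uIcc_of_le hvw] at hu
      have hs := hsin u hu
      have h1 : HasDerivAt (fun u : ℝ => t * Real.sin u) (t * Real.cos u) u :=
        (Real.hasDerivAt_sin u).const_mul t
      have h2 := (h1.inv (mul_ne_zero ht.ne' hs.ne')).neg
      simp only [one_div]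
      refine h2.congr_deriv ?_
      field_simp
    have hcc : ContinuousOn (fun u => Real.cos u / (t * Real.sin u ^ 2)) (Icc v w) := by
      apply ContinuousOn.div
      · fun_prop
      · fun_prop
      · intro u hu
        have := hsin u hu
        positivity
    have h3 := intervalIntegral.integral_eq_sub_of_hasDerivAt hd
      (hcc.intervalIntegrable_of_Icc hvw)
    have h4 : ‖∫ u in v..w, f' u * os z t u‖ ≤ ∫ u in v..w, Real.cos u / (t * Real.sin u ^ 2) := by
      apply intervalIntegral.norm_integral_le_of_norm_le hvw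
      · refine ae_of_all _ fun u hu => ?_
        have hu' : u ∈ Icc v w := ⟨hu.1.le, hu.2⟩
        have hs := hsin u hu'
        have hc : 0 ≤ Real.cos u := Real.cos_nonneg_of_mem_Icc ⟨by linarith [hu.1], by linarith [hu.2]⟩
        rw [norm_mul, os_norm, mul_one]
        simp only [hf']
        rw [norm_mul, norm_neg, Complex.norm_I, mul_one, Complex.norm_real, Real.norm_eq_abs,
          abs_div, abs_neg, abs_of_nonneg hc, abs_mul, abs_mul, hz1, one_mul, abs_of_pos ht,
          abs_of_pos (by positivity : (0 : ℝ) < Real.sin u ^ 2)]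
      · exact hcc.intervalIntegrable_of_Icc hvw
    rw [h3] at h4
    linarith
  have hsw : 0 < Real.sin w := hsin w ⟨hvw, le_rfl⟩
  calc ‖f w * os z t w - f v * os z t v - ∫ u in v..w, f' u * os z t u‖
      ≤ ‖f w * os z t w‖ + ‖f v * os z t v‖ + ‖∫ u in v..w, f' u * os z t u‖ := by
        refine (norm_sub_le _ _).trans ?_
        gcongr
        exact norm_sub_le _ _
    _ ≤ 1 / (t * Real.sin w) + 1 / (t * Real.sin v) +
        (1 / (t * Real.sin v) - 1 / (t * Real.sin w)) := by
        gcongr
        · rw [norm_mul, os_norm, mul_one, hfn w ⟨hvw, le_rfl⟩]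
        · rw [norm_mul, os_norm, mul_one, hfn v ⟨le_rfl, hvw⟩]
    _ = 2 / (t * Real.sin v) := by ring

/-- the remainder to the right of `v` -/
noncomputable def Er (z t v : ℝ) : ℂ := ∫ u in v..(Real.pi / 2), os z t u

lemma os_int (z t a b : ℝ) : IntervalIntegrable (os z t) volume a b :=
  (os_cont' z t).intervalIntegrable a b

lemma os_neg (z t u : ℝ) : os z t (-u) = os z t u := by
  unfold os
  rw [Real.cos_neg]

lemma os_refl (z t u : ℝ) : os z t (Real.pi - u) = os (-z) t u := by
  unfold os
  rw [Real.cos_pi_sub]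
  congr 3
  ring

/-- bound of the remainder -/
lemma Er_far {z t : ℝ} (hz : z = 1 ∨ z = -1) (ht : 0 < t) {v : ℝ} (hv : 0 < v)
    (hv2 : v ≤ 3 * Real.pi / 4) : ‖Er z t v‖ ≤ 10 / (t * v) := by
  have hpi := Real.pi_pos
  have hpi3 := Real.pi_gt_three
  have hpi4 := Real.pi_lt_d2
  rcases le_total v (Real.pi / 2) with h | h
  · have h1 := first_aux hz ht hv h le_rfl
    unfold Er
    refine h1.trans ?_
    have h2 : 2 / Real.pi * v ≤ Real.sin v := Real.mul_le_sin hv.le h
    have h3 : 0 < 2 / Real.pi * v := by positivity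
    calc 2 / (t * Real.sin v) ≤ 2 / (t * (2 / Real.pi * v)) := by gcongr
      _ = Real.pi / (t * v) := by field_simp
      _ ≤ 10 / (t * v) := by gcongr; linarith
  · -- reflect
    have e : Er z t v = -∫ u in (Real.pi - v)..(Real.pi / 2), os (-z) t u := by
      unfold Er
      have h1 := intervalIntegral.integral_comp_sub_left (f := fun u => os z t u)
        (a := Real.pi - v) (b := Real.pi / 2) Real.pi
      simp only [os_refl] at h1
      rw [h1]
      have h2 : Real.pi - Real.pi / 2 = Real.pi / 2 := by ring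
      rw [h2, sub_sub_cancel, intervalIntegral.integral_symm]
    rw [e, norm_neg]
    have hz' : -z = 1 ∨ -z = -1 := by
      rcases hz with h | h
      · right; rw [h]
      · left; rw [h]; norm_num
    have h1 := first_aux hz' ht (v := Real.pi - v) (w := Real.pi / 2) (by linarith) (by linarith) le_rfl
    refine h1.trans ?_
    have h2 : 2 / Real.pi * (Real.pi - v) ≤ Real.sin (Real.pi - v) :=
      Real.mul_le_sin (by linarith) (by linarith)
    have h3 : (1 : ℝ) / 2 ≤ 2 / Real.pi * (Real.pi - v) := by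
      rw [div_mul_eq_mul_div, le_div_iff₀ hpi]
      linarith
    calc 2 / (t * Real.sin (Real.pi - v)) ≤ 2 / (t * (1 / 2)) := by
          gcongr
          exact h3.trans h2
      _ = 4 / t := by field_simp; norm_num
      _ ≤ 10 / (t * v) := by
          rw [div_le_div_iff₀ ht (by positivity)]
          have : v ≤ 5 / 2 := by linarith
          nlinarith

/-- bound of the remainder -/
lemma Er_near {z t : ℝ} (hz : z = 1 ∨ z = -1) (ht : 1 ≤ t) {v : ℝ} (hv : 0 ≤ v)
    (hv2 : v ≤ 3 * Real.pi / 4) : ‖Er z t v‖ ≤ 11 * t ^ (-(1 / 2) : ℝ) := by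
  have ht0 : 0 < t := by linarith
  set s : ℝ := t ^ (-(1 / 2) : ℝ) with hs
  have hs0 : 0 < s := Real.rpow_pos_of_pos ht0 _
  have hs1 : s ≤ 1 := Real.rpow_le_one_of_one_le_of_nonpos ht (by norm_num)
  have hts : t * s = s⁻¹ := by
    rw [hs, ← Real.rpow_neg ht0.le]
    nth_rewrite 1 [← Real.rpow_one t]
    rw [← Real.rpow_add ht0]
    norm_num
  have key : ∀ w : ℝ, s ≤ w → w ≤ 3 * Real.pi / 4 → ‖Er z t w‖ ≤ 10 * s := by
    intro w hw hw2
    have hw0 : 0 < w := hs0.trans_le hw
    refine (Er_far hz ht0 hw0 hw2).trans ?_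
    calc 10 / (t * w) ≤ 10 / (t * s) := by gcongr
      _ = 10 * s := by rw [hts, div_inv_eq_mul]
  rcases le_total s v with h | h
  · exact (key v h hv2).trans (by linarith)
  · have hpi3 := Real.pi_gt_three
    have h1 : Er z t v = (∫ u in v..s, os z t u) + Er z t s := by
      unfold Er
      rw [intervalIntegral.integral_add_adjacent_intervals (os_int _ _ _ _) (os_int _ _ _ _)]
    rw [h1]
    have h2 : ‖∫ u in v..s, os z t u‖ ≤ 1 * |s - v| :=
      intervalIntegral.norm_integral_le_of_norm_le_const fun u _ => (os_norm z t u).le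
    have h3 := key s le_rfl (by linarith)
    rw [abs_of_nonneg (by linarith)] at h2
    calc _ ≤ ‖∫ u in v..s, os z t u‖ + ‖Er z t s‖ := norm_add_le _ _
      _ ≤ 11 * s := by linarith

end Pool.Agent.U506.SP
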