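import Mathlib
import Pool.Agent.U506.SP.A
set_option autoImplicit false

/-! Asymptotics of the half circle integral. -/

namespace Pool.Agent.U506.SP

open MeasureTheory Set Complex Filter Topology
open scoped ENNReal NNReal

/-- Fresnel integral -/
noncomputable def Df (z X : ℝ) : ℂ := ∫ x in (0 : ℝ)..X, cexp (((z * x ^ 2 : ℝ) : ℂ) * I)

lemma fr_norm (z x : ℝ) : ‖cexp (((z * x ^ 2 : ℝ) : ℂ) * I)‖ = 1 := Complex.norm_exp_ofReal_mul_I _

lemma fr_cont (z : ℝ) : Continuous fun x : ℝ => cexp (((z * x ^ 2 : ℝ) : ℂ) * I) := by fun_prop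

lemma fr_tail {z : ℝ} (hz : z = 1 ∨ z = -1) {X Y : ℝ} (hX : 0 < X) (hXY : X ≤ Y) :
    ‖Df z Y - Df z X‖ ≤ 1 / X := by
  have hz1 : |z| = 1 := by rcases hz with h | h <;> simp [h]
  have hz0 : z ≠ 0 := by intro h; rw [h] at hz1; simp at hz1
  have e0 : Df z Y - Df z X = ∫ x in X..Y, cexp (((z * x ^ 2 : ℝ) : ℂ) * I) := by
    unfold Df
    exact intervalIntegral.integral_interval_sub_left ((fr_cont z).intervalIntegrable _ _)
      ((fr_cont z).intervalIntegrable _ _)
  rw [e0]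
  have hpos : ∀ x ∈ Icc X Y, 0 < x := fun x hx => hX.trans_le hx.1
  set f : ℝ → ℂ := fun x => (((2 * z * x)⁻¹ : ℝ) : ℂ) * (-I) with hf
  set f' : ℝ → ℂ := fun x => ((-(1 / (2 * z * x ^ 2)) : ℝ) : ℂ) * (-I) with hf'
  set g : ℝ → ℂ := fun x => cexp (((z * x ^ 2 : ℝ) : ℂ) * I) with hg
  have hfd : ∀ x ∈ uIcc X Y, HasDerivAt f (f' x) x := by
    intro x hx
    rw [uIcc_of_le hXY] at hx
    have hx0 := hpos x hx
    have h1 : HasDerivAt (fun x : ℝ => 2 * z * x) (2 * z * 1) x := (hasDerivAt_id x).const_mul _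
    have h2 := h1.inv (mul_ne_zero (mul_ne_zero two_ne_zero hz0) hx0.ne')
    have h3 : HasDerivAt (fun x : ℝ => (2 * z * x)⁻¹) (-(1 / (2 * z * x ^ 2))) x := by
      refine h2.congr_deriv ?_
      field_simp
    exact (h3.ofReal_comp).mul_const (-I)
  have hgd : ∀ x ∈ uIcc X Y, HasDerivAt g (((2 * z * x : ℝ) : ℂ) * I * g x) x := by
    intro x _
    have h1 : HasDerivAt (fun x : ℝ => z * x ^ 2) (2 * z * x) x := by
      have := (hasDerivAt_pow 2 x).const_mul z
      refine this.congr_deriv ?_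
      simp
      ring
    have h2 : HasDerivAt (fun x : ℝ => ((z * x ^ 2 : ℝ) : ℂ) * I) (((2 * z * x : ℝ) : ℂ) * I) x :=
      (h1.ofReal_comp).mul_const I
    exact h2.cexp.congr_deriv (by ring)
  have hf'c : ContinuousOn f' (Icc X Y) := by
    rw [hf']
    apply ContinuousOn.mul _ continuousOn_const
    apply Complex.continuous_ofReal.comp_continuousOn
    apply ContinuousOn.neg
    apply ContinuousOn.div continuousOn_const
    · fun_prop
    · intro x hx
      have := hpos x hx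
      exact mul_ne_zero (mul_ne_zero two_ne_zero hz0) (pow_ne_zero 2 this.ne')
  have hgc : Continuous fun x : ℝ => ((2 * z * x : ℝ) : ℂ) * I * g x := by
    have := fr_cont z
    fun_prop
  have hparts := intervalIntegral.integral_mul_deriv_eq_deriv_mul hfd hgd
    (hf'c.intervalIntegrable_of_Icc hXY) (hgc.intervalIntegrable X Y)
  have e1 : ∫ x in X..Y, f x * (((2 * z * x : ℝ) : ℂ) * I * g x) = ∫ x in X..Y, g x := by
    apply intervalIntegral.integral_congr
    intro x hx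
    rw [uIcc_of_le hXY] at hx
    have hx0 := hpos x hx
    simp only [hf]
    have h1 : (((2 * z * x)⁻¹ : ℝ) : ℂ) * (((2 * z * x) : ℝ) : ℂ) = 1 := by
      rw [← Complex.ofReal_mul, inv_mul_cancel₀, Complex.ofReal_one]
      exact mul_ne_zero (mul_ne_zero two_ne_zero hz0) hx0.ne'
    calc _ = ((((2 * z * x)⁻¹ : ℝ) : ℂ) * (((2 * z * x) : ℝ) : ℂ)) * (-(I * I)) * g x := by ring
      _ = _ := by rw [h1, Complex.I_mul_I]; ring
  rw [e1] at hparts
  rw [hparts]
  have hfn : ∀ x ∈ Icc X Y, ‖f x‖ = 1 / (2 * x) := by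
    intro x hx
    have hx0 := hpos x hx
    simp only [hf]
    rw [norm_mul, norm_neg, Complex.norm_I, mul_one, Complex.norm_real, Real.norm_eq_abs, abs_inv,
      abs_mul, abs_mul, hz1, mul_one, abs_of_pos (by norm_num : (0 : ℝ) < 2), abs_of_pos hx0, one_div]
  have hI : ‖∫ x in X..Y, f' x * g x‖ ≤ 1 / (2 * X) - 1 / (2 * Y) := by
    have hd : ∀ x ∈ uIcc X Y, HasDerivAt (fun x : ℝ => -(1 / (2 * x))) (1 / (2 * x ^ 2)) x := by
      intro x hx
      rw [uIcc_of_le hXY] at hx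
      have hx0 := hpos x hx
      have h1 : HasDerivAt (fun x : ℝ => 2 * x) (2 * 1) x := (hasDerivAt_id x).const_mul 2
      have h2 := (h1.inv (mul_ne_zero two_ne_zero hx0.ne')).neg
      simp only [one_div]
      refine h2.congr_deriv ?_
      field_simp
    have hcc : ContinuousOn (fun x : ℝ => 1 / (2 * x ^ 2)) (Icc X Y) := by
      apply ContinuousOn.div continuousOn_const
      · fun_prop
      · intro x hx
        have := hpos x hx
        positivity
    have h3 := intervalIntegral.integral_eq_sub_of_hasDerivAt hd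
      (hcc.intervalIntegrable_of_Icc hXY)
    have h4 : ‖∫ x in X..Y, f' x * g x‖ ≤ ∫ x in X..Y, 1 / (2 * x ^ 2) := by
      apply intervalIntegral.norm_integral_le_of_norm_le hXY
      · refine ae_of_all _ fun x hx => ?_
        have hx' : x ∈ Icc X Y := ⟨hx.1.le, hx.2⟩
        have hx0 := hpos x hx'
        rw [norm_mul]
        have : ‖g x‖ = 1 := fr_norm z x
        rw [this, mul_one]
        simp only [hf']
        rw [norm_mul, norm_neg, Complex.norm_I, mul_one, Complex.norm_real, Real.norm_eq_abs,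
          abs_neg, abs_div, abs_one, abs_mul, abs_mul, hz1, mul_one,
          abs_of_pos (by norm_num : (0 : ℝ) < 2), abs_of_pos (by positivity : (0 : ℝ) < x ^ 2)]
      · exact hcc.intervalIntegrable_of_Icc hXY
    rw [h3] at h4
    linarith
  have hY : 0 < Y := hX.trans_le hXY
  calc ‖f Y * g Y - f X * g X - ∫ x in X..Y, f' x * g x‖
      ≤ ‖f Y * g Y‖ + ‖f X * g X‖ + ‖∫ x in X..Y, f' x * g x‖ := by
        refine (norm_sub_le _ _).trans ?_
        gcongr
        exact norm_sub_le _ _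
    _ ≤ 1 / (2 * Y) + 1 / (2 * X) + (1 / (2 * X) - 1 / (2 * Y)) := by
        gcongr
        · rw [norm_mul, show ‖g Y‖ = 1 from fr_norm z Y, mul_one, hfn Y ⟨hXY, le_rfl⟩]
        · rw [norm_mul, show ‖g X‖ = 1 from fr_norm z X, mul_one, hfn X ⟨le_rfl, hXY⟩]
    _ = 1 / X := by field_simp; ring

lemma fresnel {z : ℝ} (hz : z = 1 ∨ z = -1) : ∃ c : ℂ, ∀ X : ℝ, 0 < X → ‖Df z X - c‖ ≤ 1 / X := by
  have hc : CauchySeq fun n : ℕ => Df z ((n : ℝ) + 1) := by
    refine cauchySeq_of_le_tendsto_0 (fun n : ℕ => 2 * (1 / ((n : ℝ) + 1))) ?_ ?_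
    · intro n m N hn hm
      have hN : (0 : ℝ) < (N : ℝ) + 1 := by positivity
      have h1 : ∀ k : ℕ, N ≤ k → ‖Df z ((k : ℝ) + 1) - Df z ((N : ℝ) + 1)‖ ≤ 1 / ((N : ℝ) + 1) := by
        intro k hk
        apply fr_tail hz hN
        have : (N : ℝ) ≤ k := by exact_mod_cast hk
        linarith
      have h2 := h1 n hn
      have h3 := h1 m hm
      rw [dist_eq_norm]
      calc ‖Df z ((n : ℝ) + 1) - Df z ((m : ℝ) + 1)‖ =
            ‖(Df z ((n : ℝ) + 1) - Df z ((N : ℝ) + 1)) - (Df z ((m : ℝ) + 1) - Df z ((N : ℝ) + 1))‖ := by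
              congr 1; ring
        _ ≤ _ := by
          refine (norm_sub_le _ _).trans ?_
          linarith
    · have := tendsto_one_div_add_atTop_nhds_zero_nat (𝕜 := ℝ)
      simpa using this.const_mul 2
  obtain ⟨c, hcc⟩ := cauchySeq_tendsto_of_complete hc
  refine ⟨c, fun X hX => ?_⟩
  have h1 : Tendsto (fun n : ℕ => ‖Df z X - Df z ((n : ℝ) + 1)‖) atTop (𝓝 ‖Df z X - c‖) :=
    (tendsto_const_nhds.sub hcc).norm
  refine le_of_tendsto h1 ?_
  obtain ⟨N, hN⟩ := exists_nat_ge X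
  filter_upwards [eventually_ge_atTop N] with n hn
  rw [norm_sub_rev]
  apply fr_tail hz hX
  have : (N : ℝ) ≤ n := by exact_mod_cast hn
  linarith

/-- the weight `h` with `h sin u = 1 - cos (u/2)` -/
noncomputable def hw (u : ℝ) : ℝ := Real.sin (u / 4) / (2 * (Real.cos (u / 4) * Real.cos (u / 2)))

/-- its derivative -/
noncomputable def hw' (u : ℝ) : ℝ :=
  ((Real.cos (u / 4) / 4) * (2 * (Real.cos (u / 4) * Real.cos (u / 2))) - Real.sin (u / 4) *
    (2 * ((-Real.sin (u / 4) / 4) * Real.cos (u / 2) + Real.cos (u / 4) * (-Real.sin (u / 2) / 2)))) /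
    (2 * (Real.cos (u / 4) * Real.cos (u / 2))) ^ 2

lemma cos_ge {u : ℝ} (hu : u ∈ Icc 0 (Real.pi / 2)) : 1 / 2 ≤ Real.cos (u / 4) ∧ 1 / 2 ≤ Real.cos (u / 2) := by
  have hpi := Real.pi_pos
  have h0 : Real.cos (Real.pi / 3) = 1 / 2 := Real.cos_pi_div_three
  constructor
  · rw [← h0]
    apply Real.cos_le_cos_of_nonneg_of_le_pi
    · linarith [hu.1]
    · linarith
    · linarith [hu.2]
  · rw [← h0]
    apply Real.cos_le_cos_of_nonneg_of_le_pi
    · linarith [hu.1]
    · linarith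
    · linarith [hu.2]

lemma hw_deriv {u : ℝ} (hu : u ∈ Icc 0 (Real.pi / 2)) : HasDerivAt hw (hw' u) u := by
  obtain ⟨h1, h2⟩ := cos_ge hu
  have d1 : HasDerivAt (fun u : ℝ => Real.sin (u / 4)) (Real.cos (u / 4) / 4) u := by
    have := ((hasDerivAt_id u).div_const 4).sin
    refine this.congr_deriv ?_
    simp
    ring
  have d2 : HasDerivAt (fun u : ℝ => Real.cos (u / 4)) (-Real.sin (u / 4) / 4) u := by
    have := ((hasDerivAt_id u).div_const 4).cos
    refine this.congr_deriv ?_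
    simp
    ring
  have d3 : HasDerivAt (fun u : ℝ => Real.cos (u / 2)) (-Real.sin (u / 2) / 2) u := by
    have := ((hasDerivAt_id u).div_const 2).cos
    refine this.congr_deriv ?_
    simp
    ring
  have d4 := (d2.mul d3).const_mul 2
  have hne : 2 * (Real.cos (u / 4) * Real.cos (u / 2)) ≠ 0 := by positivity
  exact d1.div d4 hne

lemma hw_sin {u : ℝ} (hu : u ∈ Icc 0 (Real.pi / 2)) : hw u * Real.sin u = 1 - Real.cos (u / 2) := by
  obtain ⟨h1, h2⟩ := cos_ge hu
  have e1 : Real.sin u = 2 * Real.sin (u / 2) * Real.cos (u / 2) := by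
    rw [← Real.sin_two_mul]; congr 1; ring
  have e2 : Real.sin (u / 2) = 2 * Real.sin (u / 4) * Real.cos (u / 4) := by
    rw [← Real.sin_two_mul]; congr 1; ring
  have e3 : Real.cos (u / 2) = 1 - 2 * Real.sin (u / 4) ^ 2 := by
    have := Real.cos_two_mul' (u / 4)
    have h3 := Real.sin_sq_add_cos_sq (u / 4)
    rw [show 2 * (u / 4) = u / 2 by ring] at this
    linarith
  have hne1 : Real.cos (u / 4) ≠ 0 := by intro h; rw [h] at h1; linarith
  have hne2 : Real.cos (u / 2) ≠ 0 := by intro h; rw [h] at h2; linarith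
  unfold hw
  rw [e1, e2]
  field_simp
  rw [e3]
  ring

lemma hw_bd {u : ℝ} (hu : u ∈ Icc 0 (Real.pi / 2)) : |hw u| ≤ 2 := by
  obtain ⟨h1, h2⟩ := cos_ge hu
  unfold hw
  rw [abs_div, div_le_iff₀ (by positivity)]
  have h3 := Real.abs_sin_le_one (u / 4)
  rw [abs_of_pos (by positivity : (0 : ℝ) < 2 * (Real.cos (u / 4) * Real.cos (u / 2)))]
  nlinarith

lemma hw'_bd {u : ℝ} (hu : u ∈ Icc 0 (Real.pi / 2)) : |hw' u| ≤ 16 := by
  obtain ⟨h1, h2⟩ := cos_ge hu
  have c1 := Real.cos_le_one (u / 4)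
  have c2 := Real.cos_le_one (u / 2)
  have s1 := Real.abs_sin_le_one (u / 4)
  have s2 := Real.abs_sin_le_one (u / 2)
  set a := Real.cos (u / 4)
  set b := Real.cos (u / 2)
  set p := Real.sin (u / 4)
  set r := Real.sin (u / 2)
  have e : hw' u = ((a / 4) * (2 * (a * b)) - p * (2 * ((-p / 4) * b + a * (-r / 2)))) /
      (2 * (a * b)) ^ 2 := rfl
  rw [e, abs_div]
  have hden : 1 / 4 ≤ |(2 * (a * b)) ^ 2| := by
    rw [abs_of_nonneg (by positivity)]
    have : 1 / 4 ≤ a * b := by nlinarith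
    nlinarith
  have hnum : |(a / 4) * (2 * (a * b)) - p * (2 * ((-p / 4) * b + a * (-r / 2)))| ≤ 4 := by
    have ha0 : 0 ≤ a := by linarith
    have hb0 : 0 ≤ b := by linarith
    have t1 : |(a / 4) * (2 * (a * b))| ≤ 1 / 2 := by
      rw [abs_of_nonneg (by positivity)]
      have : a * b ≤ 1 := mul_le_one₀ c1 hb0 c2
      nlinarith
    have t2 : |p * (2 * ((-p / 4) * b + a * (-r / 2)))| ≤ 3 / 2 := by
      rw [abs_mul, abs_mul, abs_of_pos (by norm_num : (0 : ℝ) < 2)]
      have t3 : |(-p / 4) * b + a * (-r / 2)| ≤ 3 / 4 := by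
        refine (abs_add_le _ _).trans ?_
        rw [abs_mul, abs_mul, abs_div, abs_div, abs_neg, abs_neg, abs_of_nonneg ha0,
          abs_of_nonneg hb0, abs_of_pos (by norm_num : (0 : ℝ) < 4),
          abs_of_pos (by norm_num : (0 : ℝ) < 2)]
        have := abs_nonneg p
        have := abs_nonneg r
        nlinarith
      have := abs_nonneg p
      have := abs_nonneg ((-p / 4) * b + a * (-r / 2))
      nlinarith
    calc _ ≤ |(a / 4) * (2 * (a * b))| + |p * (2 * ((-p / 4) * b + a * (-r / 2)))| := abs_sub _ _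
      _ ≤ 4 := by linarith
  rw [div_le_iff₀ (by linarith)]
  linarith

end Pool.Agent.U506.SP
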