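import Mathlib
import Pool.Agent.U506.SP.B
set_option autoImplicit false

/-! Asymptotics of the half circle integral, continued. -/

namespace Pool.Agent.U506.SP

open MeasureTheory Set Complex Filter Topology
open scoped ENNReal NNReal

/-- the phase relative to the stationary point -/
noncomputable def ps (z t u : ℝ) : ℂ := cexp (((z * (t * (1 - Real.cos u)) : ℝ) : ℂ) * I)

lemma ps_norm (z t u : ℝ) : ‖ps z t u‖ = 1 := Complex.norm_exp_ofReal_mul_I _

lemma ps_cont (z t : ℝ) : Continuous (ps z t) := by unfold ps; fun_prop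

lemma os_ps (z t u : ℝ) : os z t u = cexp (((-(z * t) : ℝ) : ℂ) * I) * ps z t u := by
  unfold os ps
  rw [← Complex.exp_add]
  congr 1
  push_cast
  ring

lemma ps_deriv (z t u : ℝ) :
    HasDerivAt (ps z t) (((z * (t * Real.sin u) : ℝ) : ℂ) * I * ps z t u) u := by
  have h1 : HasDerivAt (fun u : ℝ => z * (t * (1 - Real.cos u))) (z * (t * Real.sin u)) u := by
    have h := (((Real.hasDerivAt_cos u).const_sub 1).const_mul t).const_mul z
    exact h.congr_deriv (by ring)
  have h2 : HasDerivAt (fun u : ℝ => ((z * (t * (1 - Real.cos u)) : ℝ) : ℂ) * I)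
      (((z * (t * Real.sin u) : ℝ) : ℂ) * I) u := (h1.ofReal_comp).mul_const I
  exact h2.cexp.congr_deriv (by unfold ps; ring)

lemma part1 (z : ℝ) {t : ℝ} (ht : 0 < t) :
    ∫ u in (0 : ℝ)..(Real.pi / 2), ps z t u * ((Real.cos (u / 2) : ℝ) : ℂ) =
      ((√2 / √t : ℝ) : ℂ) * Df z (√t) := by
  have h2t : 0 < √(2 * t) := Real.sqrt_pos.2 (by positivity)
  have hst : 0 < √t := Real.sqrt_pos.2 ht
  have hDd : ∀ X : ℝ, HasDerivAt (Df z) (cexp (((z * X ^ 2 : ℝ) : ℂ) * I)) X := fun X =>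
    intervalIntegral.integral_hasDerivAt_right ((fr_cont z).intervalIntegrable _ _)
      (fr_cont z).stronglyMeasurable.stronglyMeasurableAtFilter (fr_cont z).continuousAt
  set G : ℝ → ℂ := fun u => ((2 / √(2 * t) : ℝ) : ℂ) * Df z (√(2 * t) * Real.sin (u / 2)) with hG
  have hGd : ∀ u ∈ uIcc (0 : ℝ) (Real.pi / 2),
      HasDerivAt G (ps z t u * ((Real.cos (u / 2) : ℝ) : ℂ)) u := by
    intro u _
    have h1 : HasDerivAt (fun u : ℝ => √(2 * t) * Real.sin (u / 2))
        (√(2 * t) * (Real.cos (u / 2) / 2)) u := by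
      have h := (((hasDerivAt_id u).div_const 2).sin).const_mul (√(2 * t))
      refine h.congr_deriv ?_
      simp only [id]
      ring
    have h2 := (hDd (√(2 * t) * Real.sin (u / 2))).scomp u h1
    have h3 := h2.const_mul ((2 / √(2 * t) : ℝ) : ℂ)
    refine h3.congr_deriv ?_
    have e1 : z * (√(2 * t) * Real.sin (u / 2)) ^ 2 = z * (t * (1 - Real.cos u)) := by
      rw [mul_pow, Real.sq_sqrt (by positivity)]
      have h4 := Real.cos_two_mul' (u / 2)
      have h5 := Real.sin_sq_add_cos_sq (u / 2)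
      rw [show 2 * (u / 2) = u by ring] at h4
      have h6 : Real.sin (u / 2) ^ 2 = (1 - Real.cos u) / 2 := by linarith
      rw [h6]; ring
    rw [e1, Complex.real_smul]
    unfold ps
    have e2 : ((2 / √(2 * t) : ℝ) : ℂ) * ((√(2 * t) * (Real.cos (u / 2) / 2) : ℝ) : ℂ) =
        ((Real.cos (u / 2) : ℝ) : ℂ) := by
      rw [← Complex.ofReal_mul]
      congr 1
      field_simp
    rw [← mul_assoc, e2]
    ring
  have hc : Continuous fun u : ℝ => ps z t u * ((Real.cos (u / 2) : ℝ) : ℂ) := by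
    have := ps_cont z t
    fun_prop
  have h := intervalIntegral.integral_eq_sub_of_hasDerivAt hGd (hc.intervalIntegrable _ _)
  rw [h]
  simp only [hG]
  have e3 : √(2 * t) * Real.sin (Real.pi / 2 / 2) = √t := by
    rw [show Real.pi / 2 / 2 = Real.pi / 4 by ring, Real.sin_pi_div_four,
      Real.sqrt_mul (by norm_num : (0 : ℝ) ≤ 2)]
    have : √2 * √2 = 2 := Real.mul_self_sqrt (by norm_num)
    linear_combination (√t / 2) * this
  have e4 : (2 : ℝ) / √(2 * t) = √2 / √t := by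
    rw [Real.sqrt_mul (by norm_num : (0 : ℝ) ≤ 2), div_eq_div_iff (by positivity) hst.ne']
    have : √2 * √2 = 2 := Real.mul_self_sqrt (by norm_num)
    linear_combination (-√t) * this
  have e5 : Df z (√(2 * t) * Real.sin (0 / 2)) = 0 := by
    unfold Df
    simp
  rw [e3, e4, e5, mul_zero, sub_zero]

lemma part2 {z t : ℝ} (hz : z = 1 ∨ z = -1) (ht : 0 < t) :
    ‖∫ u in (0 : ℝ)..(Real.pi / 2), ps z t u * ((1 - Real.cos (u / 2) : ℝ) : ℂ)‖ ≤ 30 / t := by
  have hpi := Real.pi_pos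
  have hpi4 := Real.pi_lt_d2
  have hz1 : |z| = 1 := by rcases hz with h | h <;> simp [h]
  have hz0 : z ≠ 0 := by intro h; rw [h] at hz1; simp at hz1
  have h02 : (0 : ℝ) ≤ Real.pi / 2 := by positivity
  set f : ℝ → ℂ := fun u => ((hw u / (z * t) : ℝ) : ℂ) * (-I) with hf
  have hfd : ∀ u ∈ uIcc (0 : ℝ) (Real.pi / 2), HasDerivAt f (((hw' u / (z * t) : ℝ) : ℂ) * (-I)) u := by
    intro u hu
    rw [uIcc_of_le h02] at hu
    exact (((hw_deriv hu).div_const (z * t)).ofReal_comp).mul_const (-I)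
  have hwc : ContinuousOn hw' (Icc 0 (Real.pi / 2)) := by
    unfold hw'
    apply ContinuousOn.div
    · fun_prop
    · fun_prop
    · intro u hu
      obtain ⟨h1, h2⟩ := cos_ge hu
      positivity
  have hf'c : ContinuousOn (fun u => ((hw' u / (z * t) : ℝ) : ℂ) * (-I)) (Icc 0 (Real.pi / 2)) :=
    (Complex.continuous_ofReal.comp_continuousOn (hwc.div_const _)).mul continuousOn_const
  have hpc : Continuous fun u : ℝ => ((z * (t * Real.sin u) : ℝ) : ℂ) * I * ps z t u := by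
    have := ps_cont z t
    fun_prop
  have hparts := intervalIntegral.integral_mul_deriv_eq_deriv_mul hfd (fun u _ => ps_deriv z t u)
    (hf'c.intervalIntegrable_of_Icc h02) (hpc.intervalIntegrable _ _)
  have e1 : ∫ u in (0 : ℝ)..(Real.pi / 2), f u * (((z * (t * Real.sin u) : ℝ) : ℂ) * I * ps z t u) =
      ∫ u in (0 : ℝ)..(Real.pi / 2), ps z t u * ((1 - Real.cos (u / 2) : ℝ) : ℂ) := by
    apply intervalIntegral.integral_congr
    intro u hu
    rw [uIcc_of_le h02] at hu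
    simp only [hf]
    rw [← hw_sin hu]
    have h1 : ((hw u / (z * t) : ℝ) : ℂ) * ((z * (t * Real.sin u) : ℝ) : ℂ) =
        ((hw u * Real.sin u : ℝ) : ℂ) := by
      rw [← Complex.ofReal_mul]
      congr 1
      field_simp
    calc _ = (((hw u / (z * t) : ℝ) : ℂ) * ((z * (t * Real.sin u) : ℝ) : ℂ)) * (-(I * I)) * ps z t u := by
          ring
      _ = _ := by rw [h1, Complex.I_mul_I]; ring
  rw [e1] at hparts
  rw [hparts]
  have hfn : ∀ u ∈ Icc (0 : ℝ) (Real.pi / 2), ‖f u‖ ≤ 2 / t := by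
    intro u hu
    simp only [hf]
    rw [norm_mul, norm_neg, Complex.norm_I, mul_one, Complex.norm_real, Real.norm_eq_abs, abs_div,
      abs_mul, hz1, one_mul, abs_of_pos ht]
    gcongr
    exact hw_bd hu
  have hI : ‖∫ u in (0 : ℝ)..(Real.pi / 2), ((hw' u / (z * t) : ℝ) : ℂ) * (-I) * ps z t u‖ ≤
      (16 / t) * |Real.pi / 2 - 0| := by
    apply intervalIntegral.norm_integral_le_of_norm_le_const
    intro u hu
    rw [uIoc_of_le h02] at hu
    rw [norm_mul, ps_norm, mul_one, norm_mul, norm_neg, Complex.norm_I, mul_one, Complex.norm_real,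
      Real.norm_eq_abs, abs_div, abs_mul, hz1, one_mul, abs_of_pos ht]
    gcongr
    exact hw'_bd ⟨hu.1.le, hu.2⟩
  calc _ ≤ ‖f (Real.pi / 2) * ps z t (Real.pi / 2)‖ + ‖f 0 * ps z t 0‖ +
        ‖∫ u in (0 : ℝ)..(Real.pi / 2), ((hw' u / (z * t) : ℝ) : ℂ) * (-I) * ps z t u‖ := by
        refine (norm_sub_le _ _).trans ?_
        gcongr
        exact norm_sub_le _ _
    _ ≤ 2 / t + 2 / t + (16 / t) * (Real.pi / 2) := by
        gcongr
        · rw [norm_mul, ps_norm, mul_one]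
          exact hfn _ ⟨h02, le_rfl⟩
        · rw [norm_mul, ps_norm, mul_one]
          exact hfn _ ⟨le_rfl, h02⟩
        · rw [sub_zero, abs_of_nonneg h02] at hI
          exact hI
    _ = (4 + 8 * Real.pi) / t := by ring
    _ ≤ 30 / t := by gcongr; linarith

/-- asymptotics of the half circle integral -/
theorem asym {z : ℝ} (hz : z = 1 ∨ z = -1) : ∃ c : ℂ, ∀ t : ℝ, 0 < t →
    ‖Er z t 0 - c * (((t ^ (-(1 / 2) : ℝ) : ℝ) : ℂ) * cexp (((-(z * t) : ℝ) : ℂ) * I))‖ ≤ 32 / t := by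
  obtain ⟨c, hc⟩ := fresnel hz
  refine ⟨(√2 : ℝ) * c, fun t ht => ?_⟩
  have hst : 0 < √t := Real.sqrt_pos.2 ht
  have hcp : Continuous fun u : ℝ => ps z t u * ((Real.cos (u / 2) : ℝ) : ℂ) := by
    have := ps_cont z t
    fun_prop
  have hcp2 : Continuous fun u : ℝ => ps z t u * ((1 - Real.cos (u / 2) : ℝ) : ℂ) := by
    have := ps_cont z t
    fun_prop
  have e1 : Er z t 0 = cexp (((-(z * t) : ℝ) : ℂ) * I) *
      (((√2 / √t : ℝ) : ℂ) * Df z (√t) +
        ∫ u in (0 : ℝ)..(Real.pi / 2), ps z t u * ((1 - Real.cos (u / 2) : ℝ) : ℂ)) := by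
    rw [← part1 z ht, ← intervalIntegral.integral_add (hcp.intervalIntegrable _ _)
      (hcp2.intervalIntegrable _ _), ← intervalIntegral.integral_const_mul]
    unfold Er
    apply intervalIntegral.integral_congr
    intro u _
    simp only
    rw [os_ps]
    push_cast
    ring
  have hpow : (t ^ (-(1 / 2) : ℝ) : ℝ) = 1 / √t := by
    rw [Real.rpow_neg ht.le, ← Real.sqrt_eq_rpow, one_div]
  rw [e1, hpow]
  have e2 : cexp (((-(z * t) : ℝ) : ℂ) * I) * (((√2 / √t : ℝ) : ℂ) * Df z (√t) +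
        ∫ u in (0 : ℝ)..(Real.pi / 2), ps z t u * ((1 - Real.cos (u / 2) : ℝ) : ℂ)) -
      (√2 : ℝ) * c * (((1 / √t : ℝ) : ℂ) * cexp (((-(z * t) : ℝ) : ℂ) * I)) =
      cexp (((-(z * t) : ℝ) : ℂ) * I) * (((√2 / √t : ℝ) : ℂ) * (Df z (√t) - c) +
        ∫ u in (0 : ℝ)..(Real.pi / 2), ps z t u * ((1 - Real.cos (u / 2) : ℝ) : ℂ)) := by
    push_cast
    ring
  rw [e2, norm_mul, Complex.norm_exp_ofReal_mul_I, one_mul]
  have h2 : √2 ≤ 2 := by
    rw [Real.sqrt_le_left (by norm_num)]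
    norm_num
  calc _ ≤ ‖((√2 / √t : ℝ) : ℂ) * (Df z (√t) - c)‖ + 30 / t :=
        (norm_add_le _ _).trans (add_le_add le_rfl (part2 hz ht))
    _ ≤ (2 / √t) * (1 / √t) + 30 / t := by
        gcongr
        rw [norm_mul, Complex.norm_real, Real.norm_of_nonneg (by positivity)]
        exact mul_le_mul (by gcongr) (hc _ hst) (norm_nonneg _) (by positivity)
    _ = 32 / t := by
        have : √t * √t = t := Real.mul_self_sqrt ht.le
        rw [div_mul_div_comm, this]
        ring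

end Pool.Agent.U506.SP
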