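import Mathlib
import Pool.Agent.U506.SP.C
set_option autoImplicit false

/-! The remainder for indicator functions of intervals. -/

namespace Pool.Agent.U506.SP

open MeasureTheory Set Complex Filter Topology
open scoped ENNReal NNReal

/-- sector -/
def Sc (ϑ : ℝ) : Set ℝ := Ioc (ϑ - Real.pi / 4) (ϑ + Real.pi / 4)

/-- half circle of directions -/
def Al (ϑ : ℝ) : Set ℝ := Ioc (ϑ - Real.pi / 2) (ϑ + Real.pi / 2)

lemma Sc_meas (ϑ : ℝ) : MeasurableSet (Sc ϑ) := measurableSet_Ioc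

lemma Al_meas (ϑ : ℝ) : MeasurableSet (Al ϑ) := measurableSet_Ioc

lemma Sc_sub (ϑ : ℝ) : Sc ϑ ⊆ Al ϑ := by
  have := Real.pi_pos
  exact Ioc_subset_Ioc (by linarith) (by linarith)

/-- main profile -/
noncomputable def Mn (c : ℂ) (z t : ℝ) : ℂ :=
  c * (((t ^ (-(1 / 2) : ℝ) : ℝ) : ℂ) * cexp (((-(z * t) : ℝ) : ℂ) * I))

/-- the functional -/
noncomputable def Fu (c : ℂ) (z t ϑ : ℝ) (h : ℝ → ℂ) (α : ℝ) : ℂ :=
  (∫ θ in Sc ϑ, h θ * os z t (θ - α)) - 2 * Mn c z t * (Sc ϑ).indicator h α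

/-- the constant is right -/
def Cc (c : ℂ) (z : ℝ) : Prop := (z = 1 ∨ z = -1) ∧ ∀ t : ℝ, 0 < t → ‖Er z t 0 - Mn c z t‖ ≤ 32 / t

lemma Cc_ex {z : ℝ} (hz : z = 1 ∨ z = -1) : ∃ c : ℂ, Cc c z := by
  obtain ⟨c, hc⟩ := asym hz
  exact ⟨c, hz, hc⟩

/-- the weight in the radial variable -/
noncomputable def w1 (b q t : ℝ) : ℝ := if 1 ≤ t then t ^ (-((q + b) / 2)) else t ^ (-(q / 2))

lemma w1_pos (b q : ℝ) {t : ℝ} (ht : 0 < t) : 0 < w1 b q t := by
  unfold w1
  split_ifs <;> positivity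

lemma Er_le (z t v : ℝ) : ‖Er z t v‖ ≤ |Real.pi / 2 - v| := by
  unfold Er
  have := intervalIntegral.norm_integral_le_of_norm_le_const (a := v) (b := Real.pi / 2)
    (f := os z t) (C := 1) fun u _ => (os_norm z t u).le
  linarith

/-- power bound for the remainder -/
lemma Er_pow {z : ℝ} (hz : z = 1 ∨ z = -1) {b q : ℝ} (hb : 0 ≤ b) (hbq : b ≤ q) (hb1 : b ≤ 1)
    {t : ℝ} (ht : 0 < t) {v : ℝ} (hv : 0 < v) (hv2 : v ≤ 3 * Real.pi / 4) :
    ‖Er z t v‖ ^ q ≤ 11 ^ q * 3 * (w1 b q t * v ^ (-b)) := by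
  have hpi3 := Real.pi_gt_three
  have hpi4 := Real.pi_lt_d2
  have hq : 0 ≤ q := hb.trans hbq
  have h11 : (0 : ℝ) < 11 ^ q := by positivity
  unfold w1
  split_ifs with h
  · have h1 := Er_near hz h hv.le hv2
    have h2 : ‖Er z t v‖ ≤ 11 * (t * v)⁻¹ := by
      refine (Er_far hz ht hv hv2).trans ?_
      rw [div_eq_mul_inv]
      gcongr
      norm_num
    have e : ‖Er z t v‖ ^ q = ‖Er z t v‖ ^ (q - b) * ‖Er z t v‖ ^ b := by
      rcases (norm_nonneg (Er z t v)).eq_or_lt with h0 | h0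
      · rw [← h0]
        rcases hb.eq_or_lt with hb0 | hb0
        · rw [← hb0, sub_zero, Real.rpow_zero, mul_one]
        · rw [Real.zero_rpow hb0.ne', mul_zero, Real.zero_rpow (by linarith)]
      · rw [← Real.rpow_add h0]
        congr 1
        ring
    rw [e]
    calc ‖Er z t v‖ ^ (q - b) * ‖Er z t v‖ ^ b
        ≤ (11 * t ^ (-(1 / 2) : ℝ)) ^ (q - b) * (11 * (t * v)⁻¹) ^ b := by
          gcongr
      _ = 11 ^ q * (t ^ (-((q + b) / 2)) * v ^ (-b)) := by
          rw [Real.mul_rpow (by norm_num) (by positivity), Real.mul_rpow (by norm_num) (by positivity),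
            ← Real.rpow_mul ht.le, mul_inv, Real.mul_rpow (by positivity) (by positivity),
            Real.inv_rpow ht.le, Real.inv_rpow hv.le, ← Real.rpow_neg ht.le, ← Real.rpow_neg hv.le]
          have e1 : (11 : ℝ) ^ (q - b) * 11 ^ b = 11 ^ q := by
            rw [← Real.rpow_add (by norm_num)]; congr 1; ring
          have e2 : t ^ (-(1 / 2) * (q - b)) * t ^ (-b) = t ^ (-((q + b) / 2)) := by
            rw [← Real.rpow_add ht]; congr 1; ring
          rw [← e1, ← e2]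
          ring
      _ ≤ 11 ^ q * 3 * (t ^ (-((q + b) / 2)) * v ^ (-b)) := by
          have : 0 ≤ t ^ (-((q + b) / 2)) * v ^ (-b) := by positivity
          nlinarith
  · push Not at h
    have h1 : ‖Er z t v‖ ≤ 11 := by
      refine (Er_le z t v).trans ?_
      rw [abs_le]
      constructor <;> linarith
    have h2 : (1 : ℝ) ≤ t ^ (-(q / 2)) :=
      Real.one_le_rpow_of_pos_of_le_one_of_nonpos ht h.le (by linarith)
    have h3 : (1 : ℝ) / 3 ≤ v ^ (-b) := by
      have hv3 : v ≤ 3 := by linarith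
      calc (1 : ℝ) / 3 = 3 ^ (-(1 : ℝ)) := by rw [Real.rpow_neg_one]; norm_num
        _ ≤ 3 ^ (-b) := Real.rpow_le_rpow_of_exponent_le (by norm_num) (by linarith)
        _ ≤ v ^ (-b) := Real.rpow_le_rpow_of_nonpos hv hv3 (by linarith)
    calc ‖Er z t v‖ ^ q ≤ 11 ^ q := Real.rpow_le_rpow (norm_nonneg _) h1 hq
      _ = 11 ^ q * 3 * (1 * (1 / 3)) := by ring
      _ ≤ _ := by gcongr

/-- power bound for the error in the asymptotics -/
lemma as_pow {c : ℂ} {z : ℝ} (hc : Cc c z) {b q : ℝ} (hb1 : b ≤ q) (hq0 : 0 ≤ q)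
    {t : ℝ} (ht : 0 < t) :
    ‖Er z t 0 - Mn c z t‖ ^ q ≤ (32 + ‖c‖) ^ q * w1 b q t := by
  unfold w1
  split_ifs with h
  · calc ‖Er z t 0 - Mn c z t‖ ^ q ≤ ((32 + ‖c‖) * t⁻¹) ^ q := by
          apply Real.rpow_le_rpow (norm_nonneg _) _ hq0
          refine (hc.2 t ht).trans ?_
          rw [div_eq_mul_inv]
          gcongr
          linarith [norm_nonneg c]
      _ = (32 + ‖c‖) ^ q * t ^ (-q) := by
          rw [Real.mul_rpow (by positivity) (by positivity), Real.inv_rpow ht.le, Real.rpow_neg ht.le]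
      _ ≤ _ := by
          gcongr
          linarith
  · push Not at h
    have hpi4 := Real.pi_lt_d2
    have hpi := Real.pi_pos
    have h1 : (1 : ℝ) ≤ t ^ (-(1 / 2) : ℝ) :=
      Real.one_le_rpow_of_pos_of_le_one_of_nonpos ht h.le (by norm_num)
    have h2 : ‖Er z t 0 - Mn c z t‖ ≤ (32 + ‖c‖) * t ^ (-(1 / 2) : ℝ) := by
      refine (norm_sub_le _ _).trans ?_
      have h3 := Er_le z t 0
      rw [sub_zero, abs_of_pos (by positivity)] at h3
      have h4 : ‖Mn c z t‖ = ‖c‖ * t ^ (-(1 / 2) : ℝ) := by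
        unfold Mn
        rw [norm_mul, norm_mul, Complex.norm_exp_ofReal_mul_I, mul_one, Complex.norm_real,
          Real.norm_of_nonneg (by positivity)]
      rw [h4]
      nlinarith
    calc ‖Er z t 0 - Mn c z t‖ ^ q ≤ ((32 + ‖c‖) * t ^ (-(1 / 2) : ℝ)) ^ q :=
          Real.rpow_le_rpow (norm_nonneg _) h2 hq0
      _ = _ := by
          rw [Real.mul_rpow (by positivity) (by positivity), ← Real.rpow_mul ht.le]
          congr 2
          ring

/-- integrals over an interval -/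
lemma seg (z t : ℝ) {p r : ℝ} (hpr : p ≤ r) :
    ‖(∫ u in p..r, os z t u) - (if p < 0 ∧ 0 < r then 2 * Er z t 0 else 0)‖ ≤
      ‖Er z t |p|‖ + ‖Er z t |r|‖ := by
  have hpos : ∀ v : ℝ, ∫ u in (0 : ℝ)..v, os z t u = Er z t 0 - Er z t v := by
    intro v
    unfold Er
    rw [eq_sub_iff_add_eq]
    exact intervalIntegral.integral_add_adjacent_intervals (os_int z t _ _) (os_int z t _ _)
  have hneg : ∀ v : ℝ, ∫ u in (0 : ℝ)..(-v), os z t u = -(Er z t 0 - Er z t v) := by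
    intro v
    rw [← hpos v]
    have h := intervalIntegral.integral_comp_neg (f := fun u => os z t u) (a := 0) (b := v)
    simp only [os_neg, neg_zero] at h
    rw [h, intervalIntegral.integral_symm]
  have e : ∫ u in p..r, os z t u = (∫ u in (0 : ℝ)..r, os z t u) - ∫ u in (0 : ℝ)..p, os z t u :=
    (intervalIntegral.integral_interval_sub_left (os_int z t _ _) (os_int z t _ _)).symm
  rcases lt_or_ge p 0 with hp | hp
  · have hp2 : ∫ u in (0 : ℝ)..p, os z t u = -(Er z t 0 - Er z t |p|) := by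
      rw [abs_of_neg hp, ← hneg, neg_neg]
    rcases lt_or_ge 0 r with hr | hr
    · rw [if_pos ⟨hp, hr⟩, e, hp2, hpos r, abs_of_pos hr]
      have e2 : Er z t 0 - Er z t r - -(Er z t 0 - Er z t |p|) - 2 * Er z t 0 =
          -(Er z t |p|) - Er z t r := by ring
      rw [e2]
      refine (norm_sub_le _ _).trans ?_
      rw [norm_neg]
    · rw [if_neg (fun h => absurd h.2 (not_lt.2 hr)), sub_zero, e, hp2]
      have hr2 : ∫ u in (0 : ℝ)..r, os z t u = -(Er z t 0 - Er z t |r|) := by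
        rw [abs_of_nonpos hr, ← hneg, neg_neg]
      rw [hr2]
      have e2 : -(Er z t 0 - Er z t |r|) - -(Er z t 0 - Er z t |p|) = Er z t |r| - Er z t |p| := by ring
      rw [e2]
      refine (norm_sub_le _ _).trans ?_
      rw [add_comm]
  · have hr : 0 ≤ r := hp.trans hpr
    rw [if_neg (fun h => absurd h.1 (not_lt.2 hp)), sub_zero, e, hpos, hpos, abs_of_nonneg hp,
      abs_of_nonneg hr]
    have e2 : Er z t 0 - Er z t r - (Er z t 0 - Er z t p) = Er z t p - Er z t r := by ring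
    rw [e2]
    exact norm_sub_le _ _

/-- upper sets of the sector -/
def Up (ϑ : ℝ) (U : Set ℝ) : Prop := ∀ r ∈ Sc ϑ ∩ U, ∀ r' ∈ Sc ϑ, r ≤ r' → r' ∈ U

/-- the left end point -/
noncomputable def lep (ϑ : ℝ) (U : Set ℝ) : ℝ := sInf (Sc ϑ ∩ U ∪ {ϑ + Real.pi / 4})

lemma lep_mem (ϑ : ℝ) (U : Set ℝ) : ϑ - Real.pi / 4 ≤ lep ϑ U ∧ lep ϑ U ≤ ϑ + Real.pi / 4 := by
  have hpi := Real.pi_pos
  constructor
  · unfold lep
    refine le_csInf ⟨ϑ + Real.pi / 4, Or.inr rfl⟩ ?_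
    rintro r (hr | hr)
    · exact hr.1.1.le
    · rw [mem_singleton_iff.1 hr]; linarith
  · unfold lep
    refine csInf_le ⟨ϑ - Real.pi / 4, ?_⟩ (Or.inr rfl)
    rintro r (hr | hr)
    · exact hr.1.1.le
    · rw [mem_singleton_iff.1 hr]; linarith

lemma lep_spec {ϑ : ℝ} {U : Set ℝ} (hU : Up ϑ U) {r : ℝ} (hr : r ≠ lep ϑ U)
    (hr2 : r ≠ ϑ + Real.pi / 4) : r ∈ Sc ϑ ∩ U ↔ r ∈ Ioc (lep ϑ U) (ϑ + Real.pi / 4) := by
  have hpi := Real.pi_pos
  have hbb : BddBelow (Sc ϑ ∩ U ∪ {ϑ + Real.pi / 4}) := by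
    refine ⟨ϑ - Real.pi / 4, ?_⟩
    rintro r (hr | hr)
    · exact hr.1.1.le
    · rw [mem_singleton_iff.1 hr]; linarith
  constructor
  · intro h
    exact ⟨lt_of_le_of_ne (csInf_le hbb (Or.inl h)) (Ne.symm hr), h.1.2⟩
  · intro h
    obtain ⟨u, hu, hur⟩ := exists_lt_of_csInf_lt (s := Sc ϑ ∩ U ∪ {ϑ + Real.pi / 4}) ⟨_, Or.inr rfl⟩ h.1
    have hrS : r ∈ Sc ϑ := ⟨lt_of_le_of_lt (lep_mem ϑ U).1 h.1, h.2⟩
    rcases hu with hu | hu
    · exact ⟨hrS, hU u hu r hrS hur.le⟩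
    · exfalso
      rw [mem_singleton_iff.1 hu] at hur
      exact absurd h.2 (not_le.2 hur)

/-- the pointwise bound -/
lemma step_pt {c : ℂ} {z : ℝ} (hc : Cc c z) {b q : ℝ} (hb : 0 < b) (hbq : b ≤ q) (hb1 : b ≤ 1)
    (hq1 : 1 ≤ q) {t : ℝ} (ht : 0 < t) {ϑ : ℝ} {U : Set ℝ} (hU : Up ϑ U) {α : ℝ} (hα : α ∈ Al ϑ) :
    ‖Fu c z t ϑ (U.indicator fun _ => 1) α‖ₑ ^ q ≤
      ENNReal.ofReal (3 ^ q * (11 ^ q * 3 + (2 * (32 + ‖c‖)) ^ q) * w1 b q t) *
        (‖lep ϑ U - α‖ₑ ^ (-b) + ‖(ϑ + Real.pi / 4) - α‖ₑ ^ (-b) + 1) := by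
  have hpi := Real.pi_pos
  have hq0 : 0 < q := by linarith
  have hw := w1_pos b q ht
  set a := lep ϑ U with ha
  have hK : 0 < 3 ^ q * (11 ^ q * 3 + (2 * (32 + ‖c‖)) ^ q) * w1 b q t := by positivity
  by_cases h1 : α = a
  · rw [h1, sub_self, enorm_zero, ENNReal.zero_rpow_of_neg (by linarith), top_add, top_add,
      ENNReal.mul_top (by simpa using hK)]
    exact le_top
  by_cases h2 : α = ϑ + Real.pi / 4
  · rw [h2, sub_self, enorm_zero, ENNReal.zero_rpow_of_neg (by linarith), add_top, top_add,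
      ENNReal.mul_top (by simpa using hK)]
    exact le_top
  -- the integral
  have hI : ∫ θ in Sc ϑ, (U.indicator (fun _ => (1 : ℂ))) θ * os z t (θ - α) =
      ∫ u in (a - α)..(ϑ + Real.pi / 4 - α), os z t u := by
    have e1 : ∫ θ in Sc ϑ, (U.indicator (fun _ => (1 : ℂ))) θ * os z t (θ - α) =
        ∫ θ in Ioc a (ϑ + Real.pi / 4), os z t (θ - α) := by
      rw [← integral_indicator (Sc_meas ϑ), ← integral_indicator measurableSet_Ioc]
      apply integral_congr_ae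
      have hne : ∀ᵐ r : ℝ ∂volume, r ≠ a := by rw [ae_iff]; simp
      have hne2 : ∀ᵐ r : ℝ ∂volume, r ≠ ϑ + Real.pi / 4 := by rw [ae_iff]; simp
      filter_upwards [hne, hne2] with r hr hr2
      have hs := lep_spec hU hr hr2
      by_cases hm : r ∈ Ioc a (ϑ + Real.pi / 4)
      · have hm2 := hs.2 hm
        rw [indicator_of_mem hm, indicator_of_mem hm2.1, indicator_of_mem hm2.2, one_mul]
      · rw [indicator_of_notMem hm]
        have hm2 : r ∉ Sc ϑ ∩ U := fun h => hm (hs.1 h)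
        by_cases hm3 : r ∈ Sc ϑ
        · rw [indicator_of_mem hm3, indicator_of_notMem (fun h => hm2 ⟨hm3, h⟩), zero_mul]
        · rw [indicator_of_notMem hm3]
    rw [e1, ← intervalIntegral.integral_of_le (lep_mem ϑ U).2]
    exact intervalIntegral.integral_comp_sub_right (fun u => os z t u) α
  have hind : (Sc ϑ).indicator (U.indicator fun _ => (1 : ℂ)) α =
      if a - α < 0 ∧ 0 < ϑ + Real.pi / 4 - α then 1 else 0 := by
    have hs := lep_spec hU h1 h2
    by_cases hm : α ∈ Sc ϑ ∩ U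
    · have := hs.1 hm
      rw [indicator_of_mem hm.1, indicator_of_mem hm.2, if_pos]
      exact ⟨by linarith [this.1], by
        have := lt_of_le_of_ne this.2 h2
        linarith⟩
    · rw [if_neg]
      · by_cases hm3 : α ∈ Sc ϑ
        · rw [indicator_of_mem hm3, indicator_of_notMem (fun h => hm ⟨hm3, h⟩)]
        · rw [indicator_of_notMem hm3]
      · intro h
        exact hm (hs.2 ⟨by linarith [h.1], by linarith [h.2]⟩)
  have hap : |a - α| ≤ 3 * Real.pi / 4 := by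
    have h3 := lep_mem ϑ U
    rw [abs_le]
    constructor
    · linarith [hα.2, h3.1]
    · linarith [hα.1, h3.2]
  have hrp : |ϑ + Real.pi / 4 - α| ≤ 3 * Real.pi / 4 := by
    rw [abs_le]
    constructor
    · linarith [hα.2]
    · linarith [hα.1]
  have ha0 : 0 < |a - α| := abs_pos.2 (sub_ne_zero.2 (Ne.symm h1))
  have hr0 : 0 < |ϑ + Real.pi / 4 - α| := abs_pos.2 (sub_ne_zero.2 (Ne.symm h2))
  have hle : a - α ≤ ϑ + Real.pi / 4 - α := by linarith [(lep_mem ϑ U).2]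
  have hn : ‖Fu c z t ϑ (U.indicator fun _ => 1) α‖ ≤
      ‖Er z t |a - α|‖ + ‖Er z t |ϑ + Real.pi / 4 - α|‖ + 2 * ‖Er z t 0 - Mn c z t‖ := by
    unfold Fu
    rw [hI, hind]
    have e3 : (∫ u in (a - α)..(ϑ + Real.pi / 4 - α), os z t u) - 2 * Mn c z t *
        (if a - α < 0 ∧ 0 < ϑ + Real.pi / 4 - α then 1 else 0) =
        ((∫ u in (a - α)..(ϑ + Real.pi / 4 - α), os z t u) -
          (if a - α < 0 ∧ 0 < ϑ + Real.pi / 4 - α then 2 * Er z t 0 else 0)) +
        2 * (Er z t 0 - Mn c z t) * (if a - α < 0 ∧ 0 < ϑ + Real.pi / 4 - α then 1 else 0) := by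
      split_ifs <;> ring
    rw [e3]
    refine (norm_add_le _ _).trans (add_le_add (seg z t hle) ?_)
    rw [norm_mul, norm_mul, Complex.norm_ofNat]
    have h5 : ‖(if a - α < 0 ∧ 0 < ϑ + Real.pi / 4 - α then (1 : ℂ) else 0)‖ ≤ 1 := by
      split_ifs <;> simp
    have h6 : 0 ≤ 2 * ‖Er z t 0 - Mn c z t‖ := by positivity
    nlinarith
  have hreal : ‖Fu c z t ϑ (U.indicator fun _ => 1) α‖ ^ q ≤
      3 ^ q * (11 ^ q * 3 + (2 * (32 + ‖c‖)) ^ q) * w1 b q t *
        (|a - α| ^ (-b) + |ϑ + Real.pi / 4 - α| ^ (-b) + 1) := by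
    set x := ‖Er z t |a - α|‖ with hx
    set y := ‖Er z t |ϑ + Real.pi / 4 - α|‖ with hy
    set w := 2 * ‖Er z t 0 - Mn c z t‖ with hw'
    have hx0 : 0 ≤ x := norm_nonneg _
    have hy0 : 0 ≤ y := norm_nonneg _
    have hw0 : 0 ≤ w := by positivity
    have h7 : x ^ q ≤ 11 ^ q * 3 * (w1 b q t * |a - α| ^ (-b)) :=
      Er_pow hc.1 hb.le hbq hb1 ht ha0 hap
    have h8 : y ^ q ≤ 11 ^ q * 3 * (w1 b q t * |ϑ + Real.pi / 4 - α| ^ (-b)) :=
      Er_pow hc.1 hb.le hbq hb1 ht hr0 hrp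
    have h9 : w ^ q ≤ (2 * (32 + ‖c‖)) ^ q * w1 b q t := by
      rw [hw', Real.mul_rpow (by norm_num) (norm_nonneg _), Real.mul_rpow (by norm_num) (by positivity),
        mul_assoc]
      gcongr
      exact as_pow hc hbq hq0.le ht
    have h10 : (x + y + w) ^ q ≤ 3 ^ q * (x ^ q + y ^ q + w ^ q) := by
      have h11 : x + y + w ≤ 3 * max x (max y w) := by
        have ha : x ≤ max x (max y w) := le_max_left _ _
        have hb : y ≤ max x (max y w) := (le_max_left _ _).trans (le_max_right _ _)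
        have hcc : w ≤ max x (max y w) := (le_max_right _ _).trans (le_max_right _ _)
        linarith
      have h12 : (max x (max y w)) ^ q ≤ x ^ q + y ^ q + w ^ q := by
        have hxq : 0 ≤ x ^ q := by positivity
        have hyq : 0 ≤ y ^ q := by positivity
        have hwq : 0 ≤ w ^ q := by positivity
        rcases max_choice x (max y w) with h | h
        · rw [h]; linarith
        · rw [h]
          rcases max_choice y w with h' | h'
          · rw [h']; linarith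
          · rw [h']; linarith
      calc (x + y + w) ^ q ≤ (3 * max x (max y w)) ^ q := by gcongr
        _ = 3 ^ q * (max x (max y w)) ^ q := Real.mul_rpow (by norm_num) (by positivity)
        _ ≤ _ := by gcongr
    refine (Real.rpow_le_rpow (norm_nonneg _) hn hq0.le).trans (h10.trans ?_)
    have hA : 0 ≤ |a - α| ^ (-b) := by positivity
    have hB : 0 ≤ |ϑ + Real.pi / 4 - α| ^ (-b) := by positivity
    have hC : 0 ≤ (2 * (32 + ‖c‖)) ^ q := by positivity
    have hD : (0 : ℝ) ≤ 11 ^ q * 3 := by positivity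
    calc 3 ^ q * (x ^ q + y ^ q + w ^ q) ≤ 3 ^ q * (11 ^ q * 3 * (w1 b q t * |a - α| ^ (-b)) +
          11 ^ q * 3 * (w1 b q t * |ϑ + Real.pi / 4 - α| ^ (-b)) +
          (2 * (32 + ‖c‖)) ^ q * w1 b q t) := by gcongr
      _ ≤ 3 ^ q * ((11 ^ q * 3 + (2 * (32 + ‖c‖)) ^ q) * (w1 b q t * |a - α| ^ (-b)) +
          (11 ^ q * 3 + (2 * (32 + ‖c‖)) ^ q) * (w1 b q t * |ϑ + Real.pi / 4 - α| ^ (-b)) +
          (11 ^ q * 3 + (2 * (32 + ‖c‖)) ^ q) * w1 b q t) := by
          gcongr <;> linarith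
      _ = _ := by ring
  have hab : ∀ v : ℝ, 0 < |v| → ‖v‖ₑ ^ (-b) = ENNReal.ofReal (|v| ^ (-b)) := by
    intro v hv
    rw [← ofReal_norm, Real.norm_eq_abs, ENNReal.ofReal_rpow_of_pos hv]
  rw [hab _ ha0, hab _ hr0, ← ofReal_norm, ENNReal.ofReal_rpow_of_nonneg (norm_nonneg _) hq0.le,
    ← ENNReal.ofReal_add (by positivity) (by positivity), ← ENNReal.ofReal_one,
    ← ENNReal.ofReal_add (by positivity) (by positivity), ← ENNReal.ofReal_mul hK.le]
  exact ENNReal.ofReal_le_ofReal hreal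

end Pool.Agent.U506.SP
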