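import Mathlib
import Pool.Agent.U506.SP.D
import Pool.Agent.U506.RR.D1
set_option autoImplicit false

/-! The remainder for monotone functions. -/

namespace Pool.Agent.U506.SP

open MeasureTheory Set Complex Filter Topology
open scoped ENNReal NNReal
open Pool.Agent.U506.RR (wh)

/-- the integral of the singular weight -/
noncomputable def Kb (b : ℝ) : ℝ≥0∞ := (∫⁻ v in Ioo (-1 : ℝ) 1, ‖v‖ₑ ^ (-b)) + ENNReal.ofReal Real.pi

lemma Kb_lt {b : ℝ} (hb1 : b < 1) : Kb b < ⊤ := by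
  unfold Kb
  refine ENNReal.add_lt_top.2 ⟨?_, ENNReal.ofReal_lt_top⟩
  have h0 := intervalIntegral.intervalIntegrable_rpow' (a := 0) (b := 1) (r := -b) (by linarith)
  rw [intervalIntegrable_iff_integrableOn_Ioo_of_le zero_le_one] at h0
  have h1 : ∫⁻ v in Ioo (0 : ℝ) 1, ‖v‖ₑ ^ (-b) < ⊤ := by
    have h2 : ∫⁻ v in Ioo (0 : ℝ) 1, ‖v‖ₑ ^ (-b) = ∫⁻ v in Ioo (0 : ℝ) 1, ‖v ^ (-b)‖ₑ := by
      apply setLIntegral_congr_fun measurableSet_Ioo
      intro v hv
      have hv0 : 0 < v := hv.1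
      simp only
      rw [← ofReal_norm, ← ofReal_norm, Real.norm_of_nonneg hv0.le,
        Real.norm_of_nonneg (by positivity), ENNReal.ofReal_rpow_of_pos hv0]
    rw [h2]
    exact h0.2
  have h3 : ∫⁻ v in Ioo (-1 : ℝ) 0, ‖v‖ₑ ^ (-b) = ∫⁻ v in Ioo (0 : ℝ) 1, ‖v‖ₑ ^ (-b) := by
    have hmp : MeasurePreserving (fun v : ℝ => -v) volume volume := Measure.measurePreserving_neg _
    have h4 := hmp.setLIntegral_comp_preimage (s := Ioo (0 : ℝ) 1) measurableSet_Ioo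
      (f := fun v : ℝ => ‖v‖ₑ ^ (-b)) (by fun_prop)
    have h5 : (fun v : ℝ => -v) ⁻¹' Ioo (0 : ℝ) 1 = Ioo (-1 : ℝ) 0 := by
      ext v
      simp only [mem_preimage, mem_Ioo]
      constructor
      · rintro ⟨h6, h7⟩; exact ⟨by linarith, by linarith⟩
      · rintro ⟨h6, h7⟩; exact ⟨by linarith, by linarith⟩
    rw [h5] at h4
    simp only [enorm_neg] at h4
    exact h4
  have h6 : Ioo (-1 : ℝ) 1 ⊆ (Ioo (-1 : ℝ) 0 ∪ {0}) ∪ Ioo 0 1 := by
    intro v hv
    rcases lt_trichotomy v 0 with h | h | h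
    · exact Or.inl (Or.inl ⟨hv.1, h⟩)
    · exact Or.inl (Or.inr h)
    · exact Or.inr ⟨h, hv.2⟩
  refine lt_of_le_of_lt (lintegral_mono_set h6) ?_
  refine lt_of_le_of_lt (lintegral_union_le _ _ _) (ENNReal.add_lt_top.2 ⟨?_, h1⟩)
  refine lt_of_le_of_lt (lintegral_union_le _ _ _) (ENNReal.add_lt_top.2 ⟨?_, ?_⟩)
  · rw [h3]; exact h1
  · rw [Measure.restrict_eq_zero.2 (by simp : volume ({0} : Set ℝ) = 0)]
    simp

lemma Kb_int (b : ℝ) (hb : 0 < b) (a ϑ : ℝ) : ∫⁻ α in Al ϑ, ‖a - α‖ₑ ^ (-b) ≤ Kb b := by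
  have hpi := Real.pi_pos
  have hm : Measurable fun v : ℝ => ‖v‖ₑ ^ (-b) := by fun_prop
  set f : ℝ → ℝ≥0∞ := (Ioo (-1 : ℝ) 1).indicator fun v => ‖v‖ₑ ^ (-b) with hf
  have hfm : Measurable f := hm.indicator measurableSet_Ioo
  have hpt : ∀ α : ℝ, ‖a - α‖ₑ ^ (-b) ≤ f (a - α) + 1 := by
    intro α
    by_cases h : a - α ∈ Ioo (-1 : ℝ) 1
    · rw [hf, indicator_of_mem h]
      exact le_self_add
    · refine le_trans ?_ le_add_self
      have h1 : (1 : ℝ≥0∞) ≤ ‖a - α‖ₑ := by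
        rw [← ofReal_norm, Real.norm_eq_abs, ← ENNReal.ofReal_one]
        apply ENNReal.ofReal_le_ofReal
        by_contra hc
        push Not at hc
        exact h (abs_lt.1 hc)
      rw [ENNReal.rpow_neg]
      exact ENNReal.inv_le_one.2 (ENNReal.one_le_rpow h1 hb)
  calc ∫⁻ α in Al ϑ, ‖a - α‖ₑ ^ (-b) ≤ ∫⁻ α in Al ϑ, (f (a - α) + 1) := lintegral_mono hpt
    _ = (∫⁻ α in Al ϑ, f (a - α)) + ∫⁻ α in Al ϑ, 1 := by
        rw [lintegral_add_left]
        exact hfm.comp (by fun_prop)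
    _ ≤ (∫⁻ α, f (a - α)) + ENNReal.ofReal Real.pi := by
        gcongr
        · exact Measure.restrict_le_self
        · rw [setLIntegral_one]
          unfold Al
          rw [Real.volume_Ioc]
          apply ENNReal.ofReal_le_ofReal
          linarith
    _ = Kb b := by
        unfold Kb
        rw [lintegral_sub_left_eq_self f a, hf, lintegral_indicator measurableSet_Ioo]

/-- the radial constant -/
noncomputable def Kt (c : ℂ) (b q t : ℝ) : ℝ≥0∞ :=
  ENNReal.ofReal (3 ^ q * (11 ^ q * 3 + (2 * (32 + ‖c‖)) ^ q) * w1 b q t)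

/-- the angular constant -/
noncomputable def Ka (b : ℝ) : ℝ≥0∞ := 2 * Kb b + ENNReal.ofReal Real.pi

/-- step functions -/
noncomputable def us (g : ℝ → ℝ) (s θ : ℝ) : ℂ := if s ≤ g θ then 1 else 0

lemma us_ind (g : ℝ → ℝ) (s : ℝ) : us g s = ({θ | s ≤ g θ} : Set ℝ).indicator fun _ => 1 := by
  funext θ
  unfold us
  by_cases h : s ≤ g θ
  · rw [if_pos h, indicator_of_mem (show θ ∈ {θ | s ≤ g θ} from h)]
  · rw [if_neg h, indicator_of_notMem (show θ ∉ {θ | s ≤ g θ} from h)]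

lemma us_meas {g : ℝ → ℝ} (hg : Measurable g) : Measurable fun p : ℝ × ℝ => us g p.1 p.2 := by
  unfold us
  exact Measurable.ite (measurableSet_le measurable_fst (hg.comp measurable_snd)) measurable_const
    measurable_const

lemma us_norm (g : ℝ → ℝ) (s θ : ℝ) : ‖us g s θ‖ ≤ 1 := by
  unfold us
  split_ifs <;> simp

lemma us_len {g : ℝ → ℝ} {r : ℝ} (h0 : 0 ≤ g r) (h1 : g r ≤ 1) :
    ∫ s in Ioc (0 : ℝ) 1, us g s r = (g r : ℂ) := by
  have e3 : ∀ s, us g s r = (Iic (g r)).indicator (fun _ => (1 : ℂ)) s := by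
    intro s
    unfold us
    by_cases h : s ≤ g r
    · rw [if_pos h, indicator_of_mem (show s ∈ Iic (g r) from h)]
    · rw [if_neg h, indicator_of_notMem (show s ∉ Iic (g r) from h)]
  simp only [e3]
  rw [setIntegral_indicator measurableSet_Iic]
  have e4 : Ioc (0 : ℝ) 1 ∩ Iic (g r) = Ioc 0 (g r) := by
    ext s
    constructor
    · intro h
      exact ⟨h.1.1, h.2⟩
    · intro h
      exact ⟨⟨h.1, h.2.trans h1⟩, h.2⟩
  rw [e4, setIntegral_const, Measure.real, Real.volume_Ioc, sub_zero,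
    ENNReal.toReal_ofReal h0, Complex.real_smul, mul_one]

lemma Sc_fin (ϑ : ℝ) : IsFiniteMeasure (volume.restrict (Sc ϑ)) := ⟨by
  rw [Measure.restrict_apply_univ]; unfold Sc; rw [Real.volume_Ioc]; exact ENNReal.ofReal_lt_top⟩

/-- superposition -/
lemma sup_rep (c : ℂ) (z t ϑ : ℝ) {g : ℝ → ℝ} (hg : Measurable g) (h0 : ∀ v ∈ Sc ϑ, 0 ≤ g v)
    (h1 : ∀ v ∈ Sc ϑ, g v ≤ 1) (α : ℝ) :
    Fu c z t ϑ (fun θ => (g θ : ℂ)) α = ∫ s in Ioc (0 : ℝ) 1, Fu c z t ϑ (us g s) α := by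
  have hk : Continuous fun θ => os z t (θ - α) := by unfold os; fun_prop
  have hfin := Sc_fin ϑ
  have hWm : Measurable (Function.uncurry fun r s : ℝ => us g s r * os z t (r - α)) :=
    ((us_meas hg).comp measurable_swap).mul (hk.measurable.comp measurable_fst)
  have hWi : Integrable (Function.uncurry fun r s : ℝ => us g s r * os z t (r - α))
      ((volume.restrict (Sc ϑ)).prod (volume.restrict (Ioc (0 : ℝ) 1))) := by
    refine Integrable.of_bound (C := 1) hWm.aestronglyMeasurable (ae_of_all _ fun p => ?_)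
    simp only [Function.uncurry]
    rw [norm_mul, os_norm, mul_one]
    exact us_norm _ _ _
  have e1 : ∫ θ in Sc ϑ, (g θ : ℂ) * os z t (θ - α) = ∫ s in Ioc (0 : ℝ) 1,
      ∫ θ in Sc ϑ, us g s θ * os z t (θ - α) := by
    rw [← integral_integral_swap hWi]
    apply setIntegral_congr_fun (Sc_meas ϑ)
    intro r hr
    simp only
    rw [integral_mul_const, us_len (h0 r hr) (h1 r hr)]
  have e2 : (Sc ϑ).indicator (fun θ => (g θ : ℂ)) α = ∫ s in Ioc (0 : ℝ) 1,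
      (Sc ϑ).indicator (us g s) α := by
    by_cases hα : α ∈ Sc ϑ
    · simp only [indicator_of_mem hα]
      rw [us_len (h0 α hα) (h1 α hα)]
    · simp only [indicator_of_notMem hα, integral_zero]
  unfold Fu
  rw [e1, e2, ← integral_const_mul, ← integral_sub]
  · exact hWi.integral_prod_right
  · apply Integrable.const_mul
    have hm : Measurable fun s => (Sc ϑ).indicator (us g s) α := by
      by_cases hα : α ∈ Sc ϑ
      · simp only [indicator_of_mem hα]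
        exact (us_meas hg).comp (measurable_id.prodMk measurable_const)
      · simp only [indicator_of_notMem hα]
        exact measurable_const
    refine Integrable.of_bound (C := 1) hm.aestronglyMeasurable (ae_of_all _ fun s => ?_)
    exact (norm_indicator_le_norm_self _ _).trans (us_norm _ _ _)

lemma Fu_meas (c : ℂ) (z t ϑ : ℝ) {g : ℝ → ℝ} (hg : Measurable g) :
    Measurable fun p : ℝ × ℝ => Fu c z t ϑ (us g p.2) p.1 := by
  unfold Fu
  have hfin := Sc_fin ϑ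
  have m1 : Measurable fun p : (ℝ × ℝ) × ℝ => us g p.1.2 p.2 * os z t (p.2 - p.1.1) := by
    have m3 : Measurable fun p : (ℝ × ℝ) × ℝ => us g p.1.2 p.2 :=
      (us_meas hg).comp ((measurable_snd.comp measurable_fst).prodMk measurable_snd)
    have m4 : Measurable fun p : (ℝ × ℝ) × ℝ => os z t (p.2 - p.1.1) := by
      unfold os
      fun_prop
    exact m3.mul m4
  have m2 : Measurable fun p : ℝ × ℝ => ∫ θ in Sc ϑ, us g p.2 θ * os z t (θ - p.1) :=
    (m1.stronglyMeasurable.integral_prod_right' (ν := volume.restrict (Sc ϑ))).measurable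
  have m5 : Measurable fun p : ℝ × ℝ => (Sc ϑ).indicator (us g p.2) p.1 := by
    have m6 : Measurable fun p : ℝ × ℝ => us g p.2 p.1 := (us_meas hg).comp measurable_swap
    have e : (fun p : ℝ × ℝ => (Sc ϑ).indicator (us g p.2) p.1) =
        (Prod.fst ⁻¹' (Sc ϑ)).indicator fun p : ℝ × ℝ => us g p.2 p.1 := by
      funext p
      by_cases hp : p.1 ∈ Sc ϑ
      · rw [indicator_of_mem hp, indicator_of_mem (show p ∈ Prod.fst ⁻¹' (Sc ϑ) from hp)]
      · rw [indicator_of_notMem hp, indicator_of_notMem (show p ∉ Prod.fst ⁻¹' (Sc ϑ) from hp)]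
    rw [e]
    exact m6.indicator (measurable_fst (Sc_meas ϑ))
  exact m2.sub (m5.const_mul _)

/-- Jensen -/
lemma jen {q : ℝ} (hq : 1 < q) {f : ℝ → ℂ} (hf : Measurable f) :
    ‖∫ s in Ioc (0 : ℝ) 1, f s‖ₑ ^ q ≤ ∫⁻ s in Ioc (0 : ℝ) 1, ‖f s‖ₑ ^ q := by
  have h3 := wh (μ := volume.restrict (Ioc (0 : ℝ) 1)) (w := fun _ => 1)
    (h := fun s => ‖f s‖ₑ) aemeasurable_const hf.enorm.aemeasurable hq
  simp only [one_mul, lintegral_one, Measure.restrict_apply_univ, Real.volume_Ioc, sub_zero,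
    ENNReal.ofReal_one, ENNReal.one_rpow] at h3
  exact (ENNReal.rpow_le_rpow (enorm_integral_le_lintegral_enorm _) (by linarith)).trans h3

lemma lep_mono (ϑ : ℝ) {g : ℝ → ℝ} : Monotone fun s => lep ϑ {θ | s ≤ g θ} := by
  intro s s' hss
  simp only
  unfold lep
  apply csInf_le_csInf
  · refine ⟨ϑ - Real.pi / 4, ?_⟩
    have hpi := Real.pi_pos
    rintro r (hr | hr)
    · exact hr.1.1.le
    · rw [mem_singleton_iff.1 hr]; linarith
  · exact ⟨_, Or.inr rfl⟩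
  · apply union_subset_union_left
    intro r hr
    exact ⟨hr.1, le_trans hss hr.2⟩

lemma mono_pt {c : ℂ} {z : ℝ} (hc : Cc c z) {b q : ℝ} (hb : 0 < b) (hbq : b ≤ q) (hb1 : b ≤ 1)
    (hq1 : 1 < q) {t : ℝ} (ht : 0 < t) (ϑ : ℝ) {g : ℝ → ℝ} (hg : Monotone g)
    (h0 : ∀ v ∈ Sc ϑ, 0 ≤ g v) (h1 : ∀ v ∈ Sc ϑ, g v ≤ 1) {α : ℝ} (hα : α ∈ Al ϑ) :
    ‖Fu c z t ϑ (fun θ => (g θ : ℂ)) α‖ₑ ^ q ≤
      ∫⁻ s in Ioc (0 : ℝ) 1, Kt c b q t *
        (‖lep ϑ {θ | s ≤ g θ} - α‖ₑ ^ (-b) + ‖(ϑ + Real.pi / 4) - α‖ₑ ^ (-b) + 1) := by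
  rw [sup_rep c z t ϑ hg.measurable h0 h1 α]
  have hm : Measurable fun s => Fu c z t ϑ (us g s) α :=
    (Fu_meas c z t ϑ hg.measurable).comp (measurable_const.prodMk measurable_id)
  refine (jen hq1 hm).trans ?_
  apply lintegral_mono
  intro s
  simp only
  rw [us_ind]
  exact step_pt hc hb hbq hb1 hq1.le ht (fun r hr r' _ hrr => le_trans hr.2 (hg hrr)) hα

lemma mono_int {c : ℂ} {z : ℝ} (hc : Cc c z) {b q : ℝ} (hb : 0 < b) (hbq : b ≤ q) (hb1 : b ≤ 1)
    (hq1 : 1 < q) {t : ℝ} (ht : 0 < t) (ϑ : ℝ) {P : ℝ → ℝ} (hP : MonotoneOn P (Sc ϑ))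
    (h0 : ∀ v ∈ Sc ϑ, 0 ≤ P v) (h1 : ∀ v ∈ Sc ϑ, P v ≤ 1) :
    ∫⁻ α in Al ϑ, ‖Fu c z t ϑ (fun θ => (P θ : ℂ)) α‖ₑ ^ q ≤ Kt c b q t * Ka b := by
  obtain ⟨g, hg, hge⟩ := hP.exists_monotone_extension
    ⟨0, by rintro _ ⟨v, hv, rfl⟩; exact h0 v hv⟩ ⟨1, by rintro _ ⟨v, hv, rfl⟩; exact h1 v hv⟩
  have hFe : ∀ α, Fu c z t ϑ (fun θ => (P θ : ℂ)) α = Fu c z t ϑ (fun θ => (g θ : ℂ)) α := by
    intro α
    unfold Fu
    congr 1
    · apply setIntegral_congr_fun (Sc_meas ϑ)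
      intro r hr
      simp only
      rw [hge hr]
    · congr 1
      by_cases hα : α ∈ Sc ϑ
      · rw [indicator_of_mem hα, indicator_of_mem hα, hge hα]
      · rw [indicator_of_notMem hα, indicator_of_notMem hα]
  have hAm := (lep_mono ϑ (g := g)).measurable
  set A : ℝ → ℝ := fun s => lep ϑ {θ | s ≤ g θ} with hA
  have hmeas1 : Measurable fun p : ℝ × ℝ => Kt c b q t *
        (‖A p.2 - p.1‖ₑ ^ (-b) + ‖(ϑ + Real.pi / 4) - p.1‖ₑ ^ (-b) + 1) := by
    have hA' : Measurable fun p : ℝ × ℝ => A p.2 := hAm.comp measurable_snd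
    have m1 : Measurable fun p : ℝ × ℝ => ‖A p.2 - p.1‖ₑ ^ (-b) :=
      (hA'.sub measurable_fst).enorm.pow_const _
    have m2 : Measurable fun p : ℝ × ℝ => ‖(ϑ + Real.pi / 4) - p.1‖ₑ ^ (-b) := by fun_prop
    exact ((m1.add m2).add measurable_const).const_mul _
  calc ∫⁻ α in Al ϑ, ‖Fu c z t ϑ (fun θ => (P θ : ℂ)) α‖ₑ ^ q
      ≤ ∫⁻ α in Al ϑ, ∫⁻ s in Ioc (0 : ℝ) 1, Kt c b q t *
        (‖A s - α‖ₑ ^ (-b) + ‖(ϑ + Real.pi / 4) - α‖ₑ ^ (-b) + 1) := by
        apply setLIntegral_mono' (Al_meas ϑ)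
        intro α hα
        rw [hFe]
        exact mono_pt hc hb hbq hb1 hq1 ht ϑ hg (fun v hv => by rw [← hge hv]; exact h0 v hv)
          (fun v hv => by rw [← hge hv]; exact h1 v hv) hα
    _ = ∫⁻ s in Ioc (0 : ℝ) 1, ∫⁻ α in Al ϑ, Kt c b q t *
        (‖A s - α‖ₑ ^ (-b) + ‖(ϑ + Real.pi / 4) - α‖ₑ ^ (-b) + 1) :=
        lintegral_lintegral_swap hmeas1.aemeasurable
    _ ≤ ∫⁻ s in Ioc (0 : ℝ) 1, Kt c b q t * Ka b := by
        apply lintegral_mono
        intro s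
        simp only
        rw [lintegral_const_mul' _ _ (by unfold Kt; exact ENNReal.ofReal_ne_top)]
        gcongr
        rw [lintegral_add_right _ measurable_const, lintegral_add_left (by fun_prop)]
        unfold Ka
        rw [two_mul]
        gcongr
        · exact Kb_int b hb _ ϑ
        · exact Kb_int b hb _ ϑ
        · rw [setLIntegral_one]
          unfold Al
          rw [Real.volume_Ioc]
          apply ENNReal.ofReal_le_ofReal
          linarith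
    _ = Kt c b q t * Ka b := by
        rw [setLIntegral_const, Real.volume_Ioc, sub_zero, ENNReal.ofReal_one, mul_one]

end Pool.Agent.U506.SP
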