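import Mathlib
import Pool.Agent.U506.SP.E
set_option autoImplicit false

/-! The remainder for functions of bounded variation. -/

namespace Pool.Agent.U506.SP

open MeasureTheory Set Complex Filter Topology
open scoped ENNReal NNReal

/-- decomposition of a real function of bounded variation -/
lemma bv_real (ϑ : ℝ) {h : ℝ → ℝ} (hb : ∀ v ∈ Sc ϑ, |h v| ≤ 1) (hv : eVariationOn h (Sc ϑ) ≤ 1) :
    ∃ P Q : ℝ → ℝ, MonotoneOn P (Sc ϑ) ∧ MonotoneOn Q (Sc ϑ) ∧ (∀ v ∈ Sc ϑ, 0 ≤ P v) ∧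
      (∀ v ∈ Sc ϑ, P v ≤ 1) ∧ (∀ v ∈ Sc ϑ, 0 ≤ Q v) ∧ (∀ v ∈ Sc ϑ, Q v ≤ 1) ∧
      ∀ v, h v = P v - 3 * Q v + 1 := by
  have hpi := Real.pi_pos
  have hbv : BoundedVariationOn h (Sc ϑ) := ne_top_of_le_ne_top ENNReal.one_ne_top hv
  have hl := hbv.locallyBoundedVariationOn
  have h1J : ϑ + Real.pi / 4 ∈ Sc ϑ := ⟨by linarith, le_rfl⟩
  set p : ℝ → ℝ := variationOnFromTo h (Sc ϑ) (ϑ + Real.pi / 4) with hp
  have hpm : MonotoneOn p (Sc ϑ) := variationOnFromTo.monotoneOn hl h1J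
  have hqm : MonotoneOn (p - h) (Sc ϑ) := variationOnFromTo.sub_self_monotoneOn hl h1J
  have hp0 : ∀ v ∈ Sc ϑ, p v ≤ 0 := fun v hv => by
    rw [hp, variationOnFromTo.eq_of_ge h (Sc ϑ) hv.2]
    have : 0 ≤ (eVariationOn h (Sc ϑ ∩ Icc v (ϑ + Real.pi / 4))).toReal := ENNReal.toReal_nonneg
    linarith
  have hp1 : ∀ v ∈ Sc ϑ, -1 ≤ p v := by
    intro v hv'
    rw [hp, variationOnFromTo.eq_of_ge h (Sc ϑ) hv'.2]
    have h1 : eVariationOn h (Sc ϑ ∩ Icc v (ϑ + Real.pi / 4)) ≤ 1 :=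
      (eVariationOn.mono h inter_subset_left).trans hv
    have := ENNReal.toReal_mono ENNReal.one_ne_top h1
    rw [ENNReal.toReal_one] at this
    linarith
  refine ⟨fun v => p v + 1, fun v => (p v - h v + 2) / 3, ?_, ?_, ?_, ?_, ?_, ?_, ?_⟩
  · intro v hv w hw hvw
    have := hpm hv hw hvw
    simp only
    linarith
  · intro v hv w hw hvw
    have := hqm hv hw hvw
    simp only [Pi.sub_apply] at this
    simp only
    linarith
  · intro v hv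
    have := hp1 v hv
    simp only
    linarith
  · intro v hv
    have := hp0 v hv
    simp only
    linarith
  · intro v hv
    have := hp1 v hv
    have h2 := abs_le.1 (hb v hv)
    simp only
    linarith [h2.2]
  · intro v hv
    have := hp0 v hv
    have h2 := abs_le.1 (hb v hv)
    simp only
    linarith [h2.1]
  · intro v
    simp only
    ring

lemma two_rpow {q : ℝ} (hq : 1 ≤ q) (x y : ℝ≥0∞) : (x + y) ^ q ≤ 2 ^ (q - 1) * (x ^ q + y ^ q) :=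
  ENNReal.rpow_add_le_mul_rpow_add_rpow x y hq

lemma mo_int (z t ϑ α : ℝ) {P : ℝ → ℝ} (hP : MonotoneOn P (Sc ϑ)) (h0 : ∀ v ∈ Sc ϑ, 0 ≤ P v)
    (h1 : ∀ v ∈ Sc ϑ, P v ≤ 1) : IntegrableOn (fun r => (P r : ℂ) * os z t (r - α)) (Sc ϑ) := by
  have hfin := Sc_fin ϑ
  have hk : Continuous fun θ => os z t (θ - α) := by unfold os; fun_prop
  refine Integrable.of_bound (C := 1) ?_ ?_
  · exact ((aemeasurable_restrict_of_monotoneOn (Sc_meas ϑ) hP).complex_ofReal.mul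
      hk.measurable.aemeasurable).aestronglyMeasurable
  · refine (ae_restrict_iff' (Sc_meas ϑ)).2 (ae_of_all _ fun r hr => ?_)
    rw [norm_mul, os_norm, mul_one, norm_real, Real.norm_of_nonneg (h0 r hr)]
    exact h1 r hr

/-- functional of a real function -/
lemma Fu_real (c : ℂ) (z t ϑ α : ℝ) {P Q : ℝ → ℝ} (hP : MonotoneOn P (Sc ϑ))
    (hQ : MonotoneOn Q (Sc ϑ)) (h0 : ∀ v ∈ Sc ϑ, 0 ≤ P v) (h1 : ∀ v ∈ Sc ϑ, P v ≤ 1)
    (k0 : ∀ v ∈ Sc ϑ, 0 ≤ Q v) (k1 : ∀ v ∈ Sc ϑ, Q v ≤ 1) {h : ℝ → ℝ}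
    (hh : ∀ v, h v = P v - 3 * Q v + 1) :
    ‖Fu c z t ϑ (fun θ => (h θ : ℂ)) α‖ₑ ≤ ‖Fu c z t ϑ (fun θ => (P θ : ℂ)) α‖ₑ +
      (3 * ‖Fu c z t ϑ (fun θ => (Q θ : ℂ)) α‖ₑ + ‖Fu c z t ϑ (fun _ => ((1 : ℝ) : ℂ)) α‖ₑ) := by
  have i1 := mo_int z t ϑ α hP h0 h1
  have i2 := mo_int z t ϑ α hQ k0 k1
  have i3 := mo_int z t ϑ α (P := fun _ => 1) (monotoneOn_const) (fun _ _ => zero_le_one)
    (fun _ _ => le_rfl)
  have e : Fu c z t ϑ (fun θ => (h θ : ℂ)) α = Fu c z t ϑ (fun θ => (P θ : ℂ)) α +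
      (-3 * Fu c z t ϑ (fun θ => (Q θ : ℂ)) α + Fu c z t ϑ (fun _ => ((1 : ℝ) : ℂ)) α) := by
    unfold Fu
    have e1 : ∫ θ in Sc ϑ, (h θ : ℂ) * os z t (θ - α) =
        (∫ θ in Sc ϑ, (P θ : ℂ) * os z t (θ - α)) + (-3 * (∫ θ in Sc ϑ, (Q θ : ℂ) * os z t (θ - α)) +
          ∫ θ in Sc ϑ, ((1 : ℝ) : ℂ) * os z t (θ - α)) := by
      have i4 : IntegrableOn (fun θ => -3 * ((Q θ : ℂ) * os z t (θ - α)) +
          ((1 : ℝ) : ℂ) * os z t (θ - α)) (Sc ϑ) := (i2.const_mul (-3)).add i3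
      rw [← integral_const_mul, ← integral_add (i2.const_mul (-3)) i3, ← integral_add i1 i4]
      apply integral_congr_ae
      refine ae_of_all _ fun θ => ?_
      simp only [hh θ]
      push_cast
      ring
    have e2 : (Sc ϑ).indicator (fun θ => (h θ : ℂ)) α = (Sc ϑ).indicator (fun θ => (P θ : ℂ)) α +
        (-3 * (Sc ϑ).indicator (fun θ => (Q θ : ℂ)) α +
          (Sc ϑ).indicator (fun _ => ((1 : ℝ) : ℂ)) α) := by
      by_cases hα : α ∈ Sc ϑ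
      · simp only [indicator_of_mem hα, hh α]
        push_cast
        ring
      · simp only [indicator_of_notMem hα]
        ring
    rw [e1, e2]
    ring
  rw [e]
  refine (enorm_add_le _ _).trans ?_
  gcongr
  refine (enorm_add_le _ _).trans ?_
  gcongr
  rw [enorm_mul]
  have : ‖(-3 : ℂ)‖ₑ = 3 := by
    rw [← ofReal_norm, norm_neg, Complex.norm_ofNat]
    simp
  rw [this]

/-- the constant for functions of bounded variation -/
noncomputable def Kv (q : ℝ) : ℝ≥0∞ := 2 ^ (q - 1) * (1 + 2 ^ (q - 1) * (3 ^ q + 1))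

lemma real_int {c : ℂ} {z : ℝ} (hc : Cc c z) {b q : ℝ} (hb : 0 < b) (hbq : b ≤ q) (hb1 : b ≤ 1)
    (hq1 : 1 < q) {t : ℝ} (ht : 0 < t) (ϑ : ℝ) {h : ℝ → ℝ} (hh : ∀ v ∈ Sc ϑ, |h v| ≤ 1)
    (hv : eVariationOn h (Sc ϑ) ≤ 1) :
    ∫⁻ α in Al ϑ, ‖Fu c z t ϑ (fun θ => (h θ : ℂ)) α‖ₑ ^ q ≤ Kv q * (Kt c b q t * Ka b) := by
  obtain ⟨P, Q, mP, mQ, h0, h1, k0, k1, he⟩ := bv_real ϑ hh hv
  have hq0 : 0 < q := by linarith
  have a1 := mono_int hc hb hbq hb1 hq1 ht ϑ mP h0 h1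
  have a2 := mono_int hc hb hbq hb1 hq1 ht ϑ mQ k0 k1
  have a3 := mono_int hc hb hbq hb1 hq1 ht ϑ (P := fun _ => 1) (monotoneOn_const)
    (fun _ _ => zero_le_one) (fun _ _ => le_rfl)
  have hmeas : ∀ {P : ℝ → ℝ}, MonotoneOn P (Sc ϑ) → (∀ v ∈ Sc ϑ, 0 ≤ P v) → (∀ v ∈ Sc ϑ, P v ≤ 1) →
      Measurable fun α => ‖Fu c z t ϑ (fun θ => (P θ : ℂ)) α‖ₑ ^ q := by
    intro P hP h0 h1
    obtain ⟨g, hg, hge⟩ := hP.exists_monotone_extension
      ⟨0, by rintro _ ⟨v, hv, rfl⟩; exact h0 v hv⟩ ⟨1, by rintro _ ⟨v, hv, rfl⟩; exact h1 v hv⟩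
    have hFe : (fun α => Fu c z t ϑ (fun θ => (P θ : ℂ)) α) =
        fun α => (∫ θ in Sc ϑ, (g θ : ℂ) * os z t (θ - α)) - 2 * Mn c z t *
          (Sc ϑ).indicator (fun θ => (g θ : ℂ)) α := by
      funext α
      unfold Fu
      congr 1
      · apply setIntegral_congr_fun (Sc_meas ϑ)
        intro r hr
        simp only
        rw [hge hr]
      · congr 1
        by_cases hα : α ∈ Sc ϑ
        · rw [indicator_of_mem hα, indicator_of_mem hα, hge hα]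
        · rw [indicator_of_notMem hα, indicator_of_notMem hα]
    have hfin := Sc_fin ϑ
    have m0 : Measurable fun θ => (g θ : ℂ) := Complex.measurable_ofReal.comp hg.measurable
    have m1 : Measurable fun p : ℝ × ℝ => (g p.2 : ℂ) * os z t (p.2 - p.1) := by
      have m4 : Measurable fun p : ℝ × ℝ => os z t (p.2 - p.1) := by
        unfold os
        fun_prop
      exact (m0.comp measurable_snd).mul m4
    have m2 : Measurable fun α : ℝ => ∫ θ in Sc ϑ, (g θ : ℂ) * os z t (θ - α) :=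
      (m1.stronglyMeasurable.integral_prod_right' (ν := volume.restrict (Sc ϑ))).measurable
    have m3 : Measurable fun α => Fu c z t ϑ (fun θ => (P θ : ℂ)) α := by
      rw [hFe]
      exact m2.sub ((m0.indicator (Sc_meas ϑ)).const_mul _)
    exact m3.enorm.pow_const q
  have m1 := hmeas mP h0 h1
  have m2 := hmeas mQ k0 k1
  calc ∫⁻ α in Al ϑ, ‖Fu c z t ϑ (fun θ => (h θ : ℂ)) α‖ₑ ^ q
      ≤ ∫⁻ α in Al ϑ, 2 ^ (q - 1) * (‖Fu c z t ϑ (fun θ => (P θ : ℂ)) α‖ₑ ^ q +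
          2 ^ (q - 1) * (3 ^ q * ‖Fu c z t ϑ (fun θ => (Q θ : ℂ)) α‖ₑ ^ q +
            ‖Fu c z t ϑ (fun _ => ((1 : ℝ) : ℂ)) α‖ₑ ^ q)) := by
        apply lintegral_mono
        intro α
        simp only
        refine (ENNReal.rpow_le_rpow (Fu_real c z t ϑ α mP mQ h0 h1 k0 k1 he) hq0.le).trans ?_
        refine (two_rpow hq1.le _ _).trans ?_
        gcongr
        refine (two_rpow hq1.le _ _).trans ?_
        rw [ENNReal.mul_rpow_of_nonneg _ _ hq0.le]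
    _ = 2 ^ (q - 1) * ((∫⁻ α in Al ϑ, ‖Fu c z t ϑ (fun θ => (P θ : ℂ)) α‖ₑ ^ q) +
          2 ^ (q - 1) * (3 ^ q * (∫⁻ α in Al ϑ, ‖Fu c z t ϑ (fun θ => (Q θ : ℂ)) α‖ₑ ^ q) +
            ∫⁻ α in Al ϑ, ‖Fu c z t ϑ (fun _ => ((1 : ℝ) : ℂ)) α‖ₑ ^ q)) := by
        have h2 : (2 : ℝ≥0∞) ^ (q - 1) ≠ ⊤ := ENNReal.rpow_ne_top_of_nonneg (by linarith) (by simp)
        have h3 : (3 : ℝ≥0∞) ^ q ≠ ⊤ := ENNReal.rpow_ne_top_of_nonneg hq0.le (by simp)
        rw [lintegral_const_mul' _ _ h2, lintegral_add_left m1, lintegral_const_mul' _ _ h2,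
          lintegral_add_left (m2.const_mul _), lintegral_const_mul' _ _ h3]
    _ ≤ 2 ^ (q - 1) * ((Kt c b q t * Ka b) +
          2 ^ (q - 1) * (3 ^ q * (Kt c b q t * Ka b) + (Kt c b q t * Ka b))) := by
        gcongr
    _ = _ := by unfold Kv; ring

lemma Fu_cplx (c : ℂ) (z t ϑ α : ℝ) {h : ℝ → ℂ} (hm : Measurable h) (hb : ∀ v ∈ Sc ϑ, ‖h v‖ ≤ 1) :
    ‖Fu c z t ϑ h α‖ₑ ≤ ‖Fu c z t ϑ (fun θ => ((h θ).re : ℂ)) α‖ₑ +
      ‖Fu c z t ϑ (fun θ => ((h θ).im : ℂ)) α‖ₑ := by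
  have hfin := Sc_fin ϑ
  have hk : Continuous fun θ => os z t (θ - α) := by unfold os; fun_prop
  have im : ∀ {w : ℝ → ℝ}, Measurable w → (∀ v ∈ Sc ϑ, |w v| ≤ 1) →
      IntegrableOn (fun r => (w r : ℂ) * os z t (r - α)) (Sc ϑ) := by
    intro w hw hwb
    refine Integrable.of_bound (C := 1) (hw.complex_ofReal.mul hk.measurable).aestronglyMeasurable
      ((ae_restrict_iff' (Sc_meas ϑ)).2 (ae_of_all _ fun r hr => ?_))
    rw [norm_mul, norm_real, os_norm, mul_one]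
    exact hwb r hr
  have i1 := im (Complex.measurable_re.comp hm) (fun v hv' => (Complex.abs_re_le_norm _).trans (hb v hv'))
  have i2 := im (Complex.measurable_im.comp hm) (fun v hv' => (Complex.abs_im_le_norm _).trans (hb v hv'))
  have e : Fu c z t ϑ h α = Fu c z t ϑ (fun θ => ((h θ).re : ℂ)) α +
      I * Fu c z t ϑ (fun θ => ((h θ).im : ℂ)) α := by
    unfold Fu
    have e1 : ∫ θ in Sc ϑ, h θ * os z t (θ - α) = (∫ θ in Sc ϑ, ((h θ).re : ℂ) * os z t (θ - α)) +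
        I * ∫ θ in Sc ϑ, ((h θ).im : ℂ) * os z t (θ - α) := by
      have i1' : IntegrableOn (fun θ => ((h θ).re : ℂ) * os z t (θ - α)) (Sc ϑ) := i1
      have i2' : IntegrableOn (fun θ => ((h θ).im : ℂ) * os z t (θ - α)) (Sc ϑ) := i2
      rw [← integral_const_mul, ← integral_add i1' (i2'.const_mul I)]
      apply integral_congr_ae
      refine ae_of_all _ fun θ => ?_
      simp only
      conv_lhs => rw [← Complex.re_add_im (h θ)]
      ring
    have e2 : (Sc ϑ).indicator h α = (Sc ϑ).indicator (fun θ => ((h θ).re : ℂ)) α +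
        I * (Sc ϑ).indicator (fun θ => ((h θ).im : ℂ)) α := by
      by_cases hα : α ∈ Sc ϑ
      · simp only [indicator_of_mem hα]
        conv_lhs => rw [← Complex.re_add_im (h α)]
        ring
      · simp only [indicator_of_notMem hα]
        ring
    rw [e1, e2]
    ring
  rw [e]
  refine (enorm_add_le _ _).trans ?_
  gcongr
  rw [enorm_mul]
  have : ‖I‖ₑ = 1 := by rw [← ofReal_norm, Complex.norm_I, ENNReal.ofReal_one]
  rw [this, one_mul]

lemma Fu_alpha_meas (c : ℂ) (z t ϑ : ℝ) {h : ℝ → ℂ} (hm : Measurable h) :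
    Measurable fun α => Fu c z t ϑ h α := by
  have hfin := Sc_fin ϑ
  have m1 : Measurable fun p : ℝ × ℝ => h p.2 * os z t (p.2 - p.1) := by
    have m4 : Measurable fun p : ℝ × ℝ => os z t (p.2 - p.1) := by
      unfold os
      fun_prop
    exact (hm.comp measurable_snd).mul m4
  have m2 : Measurable fun α : ℝ => ∫ θ in Sc ϑ, h θ * os z t (θ - α) :=
    (m1.stronglyMeasurable.integral_prod_right' (ν := volume.restrict (Sc ϑ))).measurable
  unfold Fu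
  exact m2.sub ((hm.indicator (Sc_meas ϑ)).const_mul _)

/-- **the remainder for functions of bounded variation** -/
theorem bv_int {c : ℂ} {z : ℝ} (hc : Cc c z) {b q : ℝ} (hb : 0 < b) (hbq : b ≤ q) (hb1 : b ≤ 1)
    (hq1 : 1 < q) {t : ℝ} (ht : 0 < t) (ϑ : ℝ) {h : ℝ → ℂ} (hm : Measurable h)
    (hh : ∀ v ∈ Sc ϑ, ‖h v‖ ≤ 1) (hv : eVariationOn h (Sc ϑ) ≤ 1) :
    ∫⁻ α in Al ϑ, ‖Fu c z t ϑ h α‖ₑ ^ q ≤ 2 ^ q * Kv q * (Kt c b q t * Ka b) := by
  have hq0 : 0 < q := by linarith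
  have hre : eVariationOn (fun v => (h v).re) (Sc ϑ) ≤ 1 := by
    have hL : LipschitzWith 1 Complex.re := by
      apply LipschitzWith.of_dist_le_mul
      intro z w
      rw [Real.dist_eq, Complex.dist_eq, ← Complex.sub_re, NNReal.coe_one, one_mul]
      exact Complex.abs_re_le_norm _
    have h1 := (hL.lipschitzOnWith (s := univ)).comp_eVariationOn_le (g := h)
      (s := Sc ϑ) (mapsTo_univ _ _)
    refine h1.trans ?_
    simpa using hv
  have him : eVariationOn (fun v => (h v).im) (Sc ϑ) ≤ 1 := by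
    have hL : LipschitzWith 1 Complex.im := by
      apply LipschitzWith.of_dist_le_mul
      intro z w
      rw [Real.dist_eq, Complex.dist_eq, ← Complex.sub_im, NNReal.coe_one, one_mul]
      exact Complex.abs_im_le_norm _
    have h1 := (hL.lipschitzOnWith (s := univ)).comp_eVariationOn_le (g := h)
      (s := Sc ϑ) (mapsTo_univ _ _)
    refine h1.trans ?_
    simpa using hv
  have g1 := real_int hc hb hbq hb1 hq1 ht ϑ
    (fun v hv' => (Complex.abs_re_le_norm _).trans (hh v hv')) hre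
  have g2 := real_int hc hb hbq hb1 hq1 ht ϑ
    (fun v hv' => (Complex.abs_im_le_norm _).trans (hh v hv')) him
  have m1 : Measurable fun α => ‖Fu c z t ϑ (fun θ => ((h θ).re : ℂ)) α‖ₑ ^ q :=
    ((Fu_alpha_meas c z t ϑ (Complex.measurable_ofReal.comp
      (Complex.measurable_re.comp hm))).enorm).pow_const q
  calc ∫⁻ α in Al ϑ, ‖Fu c z t ϑ h α‖ₑ ^ q
      ≤ ∫⁻ α in Al ϑ, 2 ^ (q - 1) * (‖Fu c z t ϑ (fun θ => ((h θ).re : ℂ)) α‖ₑ ^ q +
          ‖Fu c z t ϑ (fun θ => ((h θ).im : ℂ)) α‖ₑ ^ q) := by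
        apply lintegral_mono
        intro α
        simp only
        exact (ENNReal.rpow_le_rpow (Fu_cplx c z t ϑ α hm hh) hq0.le).trans (two_rpow hq1.le _ _)
    _ = 2 ^ (q - 1) * ((∫⁻ α in Al ϑ, ‖Fu c z t ϑ (fun θ => ((h θ).re : ℂ)) α‖ₑ ^ q) +
          ∫⁻ α in Al ϑ, ‖Fu c z t ϑ (fun θ => ((h θ).im : ℂ)) α‖ₑ ^ q) := by
        have h2 : (2 : ℝ≥0∞) ^ (q - 1) ≠ ⊤ := ENNReal.rpow_ne_top_of_nonneg (by linarith) (by simp)
        rw [lintegral_const_mul' _ _ h2, lintegral_add_left m1]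
    _ ≤ 2 ^ (q - 1) * (Kv q * (Kt c b q t * Ka b) + Kv q * (Kt c b q t * Ka b)) := by gcongr
    _ = 2 ^ q * Kv q * (Kt c b q t * Ka b) := by
        have : (2 : ℝ≥0∞) ^ q = 2 ^ (q - 1) * 2 := by
          have h1 : (2 : ℝ≥0∞) ^ (q - 1 + 1) = 2 ^ (q - 1) * 2 ^ (1 : ℝ) :=
            ENNReal.rpow_add _ _ (by simp) (by simp)
          rw [ENNReal.rpow_one, sub_add_cancel] at h1
          exact h1
        rw [this]
        ring

end Pool.Agent.U506.SP
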