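import Mathlib
import Pool.Agent.TH335.RF.P8
import Pool.Agent.U506.RR.B4
set_option autoImplicit false

/-! Polar coordinates in the plane, and the sphere as a family of parallels. -/

namespace Pool.Agent.U506.SP

open MeasureTheory Set Complex
open scoped ENNReal RealInnerProductSpace
open Pool.Agent.H789R2.FR (E sg T sg_finite)
open Pool.Agent.H438R2.BR (Phi J J_mp Q)
open Pool.Agent.TH335.RF (wt wt_meas wt_nonneg wt_pos wt_le_one)

/-- unit vector of the plane -/
noncomputable def om (θ : ℝ) : E 2 := WithLp.toLp 2 ![Real.cos θ, Real.sin θ]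

lemma om_cont : Continuous om := by
  unfold om
  refine (PiLp.continuous_toLp 2 _).comp ?_
  refine continuous_pi fun i => ?_
  fin_cases i
  · exact Real.continuous_cos
  · exact Real.continuous_sin

lemma om_inner (θ α : ℝ) : (⟪om θ, om α⟫ : ℝ) = Real.cos (θ - α) := by
  unfold om
  rw [Real.cos_sub]
  simp [PiLp.inner_apply, Fin.sum_univ_two]
  ring

lemma om_norm (θ : ℝ) : ‖om θ‖ = 1 := by
  have h : ‖om θ‖ ^ 2 = 1 := by
    rw [← real_inner_self_eq_norm_sq, om_inner, sub_self, Real.cos_zero]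
  have h2 := norm_nonneg (om θ)
  nlinarith

lemma om_per (θ : ℝ) : om (θ + 2 * Real.pi) = om θ := by
  unfold om
  rw [Real.cos_add_two_pi, Real.sin_add_two_pi]

lemma om_pi (θ : ℝ) : om (θ + Real.pi) = -om θ := by
  unfold om
  rw [Real.cos_add_pi, Real.sin_add_pi]
  ext i
  fin_cases i <;> simp

/-- the plane -/
noncomputable def pt (p : ℝ × ℝ) : E 2 := WithLp.toLp 2 ![p.1, p.2]

lemma pt_mp : MeasurePreserving pt (volume : Measure (ℝ × ℝ)) (volume : Measure (E 2)) := by
  have h1 := PiLp.volume_preserving_toLp (Fin 2)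
  have h2 := (volume_preserving_finTwoArrow ℝ).symm
  have h3 := h1.comp h2
  have e : pt = (WithLp.toLp 2 : (Fin 2 → ℝ) → E 2) ∘ (MeasurableEquiv.finTwoArrow (α := ℝ)).symm := by
    funext r
    ext i
    fin_cases i <;> rfl
  rw [e]
  exact h3

lemma pol2 {F : E 2 → ℝ≥0∞} (hF : Measurable F) :
    ∫⁻ x : E 2, F x = ∫⁻ r in Ioi (0 : ℝ), ENNReal.ofReal r *
      ∫⁻ θ in Ioc (-Real.pi) Real.pi, F (r • om θ) := by
  rw [← pt_mp.lintegral_comp hF, ← lintegral_comp_polarCoord_symm]
  have htar : polarCoord.target = Ioi (0 : ℝ) ×ˢ Ioo (-Real.pi) Real.pi := rfl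
  have hpt : ∀ p : ℝ × ℝ, pt (polarCoord.symm p) = p.1 • om p.2 := by
    intro p
    have h1 : polarCoord.symm p = (p.1 * Real.cos p.2, p.1 * Real.sin p.2) := rfl
    rw [h1]
    unfold pt om
    ext i
    fin_cases i <;> simp
  have e1 : ∫⁻ p in polarCoord.target, ENNReal.ofReal p.1 • F (pt (polarCoord.symm p)) =
      ∫⁻ p in Ioi (0 : ℝ) ×ˢ Ioo (-Real.pi) Real.pi, ENNReal.ofReal p.1 * F (p.1 • om p.2) := by
    rw [htar]
    refine lintegral_congr fun p => ?_
    rw [hpt, smul_eq_mul]
  have hm : Measurable fun p : ℝ × ℝ => ENNReal.ofReal p.1 * F (p.1 • om p.2) := by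
    refine Measurable.mul (by fun_prop) (hF.comp ?_)
    exact (continuous_fst.smul (om_cont.comp continuous_snd)).measurable
  rw [e1, Measure.volume_eq_prod, ← Measure.prod_restrict, lintegral_prod _ hm.aemeasurable]
  refine lintegral_congr fun r => ?_
  simp only
  rw [lintegral_const_mul' _ _ ENNReal.ofReal_ne_top, restrict_Ioo_eq_restrict_Ioc]

lemma sg2 {f : E 2 → ℝ≥0∞} (hf : Measurable f) :
    ∫⁻ v, f v ∂(sg 2) = ∫⁻ θ in Ioc (-Real.pi) Real.pi, f (om θ) := by
  set G : E 2 → ℝ≥0∞ := fun x => (Iio (1 : ℝ)).indicator 1 ‖x‖ * f (‖x‖⁻¹ • x) with hG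
  have hind : Measurable ((Iio (1 : ℝ)).indicator (1 : ℝ → ℝ≥0∞)) :=
    measurable_one.indicator measurableSet_Iio
  have hGm : Measurable G := by
    refine (hind.comp measurable_norm).mul (hf.comp ?_)
    exact (measurable_norm.inv).smul measurable_id
  have h1 := pol2 hGm
  have h2 := Pool.Agent.H789R2.FR.polar (n := 2) (by norm_num) G hGm
  have hr : ∀ (v : E 2), ‖v‖ = 1 → ∀ r ∈ Ioi (0 : ℝ), G (r • v) =
      (Iio (1 : ℝ)).indicator 1 r * f v := by
    intro v hv r hr
    have hr' : (0 : ℝ) < r := hr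
    have hn : ‖r • v‖ = r := by rw [norm_smul, hv, mul_one, Real.norm_of_nonneg hr'.le]
    rw [hG]
    simp only
    rw [hn, smul_smul, inv_mul_cancel₀ hr'.ne', one_smul]
  have k1 : ∫⁻ r in Ioi (0 : ℝ), ENNReal.ofReal r *
      ∫⁻ θ in Ioc (-Real.pi) Real.pi, G (r • om θ) =
      (∫⁻ r in Ioi (0 : ℝ), ENNReal.ofReal r * (Iio (1 : ℝ)).indicator 1 r) *
        ∫⁻ θ in Ioc (-Real.pi) Real.pi, f (om θ) := by
    rw [← lintegral_mul_const]
    · refine setLIntegral_congr_fun measurableSet_Ioi fun r hr' => ?_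
      have h3 : ∫⁻ θ in Ioc (-Real.pi) Real.pi, G (r • om θ) =
          ∫⁻ θ in Ioc (-Real.pi) Real.pi, (Iio (1 : ℝ)).indicator 1 r * f (om θ) :=
        lintegral_congr fun θ => hr (om θ) (om_norm θ) r hr'
      have h4 : Measurable fun θ : ℝ => f (om θ) := hf.comp om_cont.measurable
      rw [h3, lintegral_const_mul _ h4, mul_assoc]
    · exact Measurable.mul (by fun_prop) hind
  have k2 : ∫⁻ w, (∫⁻ r in Ioi (0 : ℝ), ENNReal.ofReal (r ^ (2 - 1)) * G (r • w)) ∂(sg 2) =
      (∫⁻ r in Ioi (0 : ℝ), ENNReal.ofReal r * (Iio (1 : ℝ)).indicator 1 r) *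
        ∫⁻ v, f v ∂(sg 2) := by
    rw [← lintegral_const_mul _ hf]
    refine lintegral_congr_ae ?_
    filter_upwards [Pool.Agent.H789R2.FR.sg_ae 2] with v hv
    rw [← lintegral_mul_const]
    · refine setLIntegral_congr_fun measurableSet_Ioi fun r hr' => ?_
      rw [hr v hv r hr', ← mul_assoc]
      norm_num
    · exact Measurable.mul (by fun_prop) hind
  have k3 : ∫⁻ r in Ioi (0 : ℝ), ENNReal.ofReal r * (Iio (1 : ℝ)).indicator 1 r =
      ENNReal.ofReal (1 / 2) := by
    have e : ∫⁻ r in Ioi (0 : ℝ), ENNReal.ofReal r * (Iio (1 : ℝ)).indicator 1 r =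
        ∫⁻ r in Ioo (0 : ℝ) 1, ENNReal.ofReal r := by
      rw [← lintegral_indicator measurableSet_Ioi, ← lintegral_indicator measurableSet_Ioo]
      refine lintegral_congr fun r => ?_
      by_cases h0 : 0 < r
      · rw [indicator_of_mem (show r ∈ Ioi (0 : ℝ) from h0)]
        by_cases h1 : r < 1
        · rw [indicator_of_mem (show r ∈ Iio (1 : ℝ) from h1),
            indicator_of_mem (show r ∈ Ioo (0 : ℝ) 1 from ⟨h0, h1⟩), Pi.one_apply, mul_one]
        · rw [indicator_of_notMem (show r ∉ Iio (1 : ℝ) from h1),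
            indicator_of_notMem (show r ∉ Ioo (0 : ℝ) 1 from fun h => h1 h.2), mul_zero]
      · rw [indicator_of_notMem (show r ∉ Ioi (0 : ℝ) from h0),
          indicator_of_notMem (show r ∉ Ioo (0 : ℝ) 1 from fun h => h0 h.1)]
    rw [e, restrict_Ioo_eq_restrict_Ioc, ← ofReal_integral_eq_lintegral_ofReal]
    · rw [← intervalIntegral.integral_of_le zero_le_one, integral_id]
      norm_num
    · exact (continuous_id.intervalIntegrable 0 1).1
    · filter_upwards [ae_restrict_mem measurableSet_Ioc] with r hr'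
      exact hr'.1.le
  rw [h1, k1] at h2
  rw [k2, k3] at h2
  have hne : ENNReal.ofReal (1 / 2) ≠ 0 := by simp
  exact ((ENNReal.mul_right_inj hne ENNReal.ofReal_ne_top).1 h2).symm

variable {m : ℕ}

/-- the point of the sphere over `y` in the direction `θ` -/
noncomputable def par (y : E m) (θ : ℝ) : E (2 + m) := J (wt y • om θ) y

lemma par_meas : Measurable fun p : E m × ℝ => par p.1 p.2 := by
  unfold par
  have h1 : Measurable fun p : E 2 × E m => J p.1 p.2 := (J_mp 2 m).measurable
  have h2 : Measurable fun p : E m × ℝ => ((wt p.1 • om p.2, p.1) : E 2 × E m) :=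
    ((wt_meas.comp measurable_fst).smul (om_cont.measurable.comp measurable_snd)).prodMk
      measurable_fst
  exact h1.comp h2

/-- the sphere as a family of spheres over the ball -/
theorem slice (hm : 1 ≤ m) (f : E (2 + m) → ℝ≥0∞) (hf : Measurable f) :
    ∫⁻ z, f z ∂(sg (2 + m)) =
      ∫⁻ y in Metric.ball (0 : E m) 1, ∫⁻ θ in Ioc (-Real.pi) Real.pi, f (par y θ) := by
  have f1 : IsFiniteMeasure (sg m) := sg_finite _
  have f2 : IsFiniteMeasure (sg 2) := sg_finite _
  have hJm : Measurable fun p : E 2 × E m => J p.1 p.2 := (J_mp 2 m).measurable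
  -- left side
  have hL : ∫⁻ z, f z ∂(sg (2 + m)) = ∫⁻ θ in Q, ENNReal.ofReal (Real.cos θ *
      (Real.sin θ) ^ (m - 1)) * ∫⁻ v, (∫⁻ α in Ioc (-Real.pi) Real.pi,
        f (J (Real.cos θ • om α) (Real.sin θ • v))) ∂(sg m) := by
    rw [Pool.Agent.H438R2.BR.bipolar 2 m (by norm_num) hm _ hf]
    refine lintegral_congr fun θ => ?_
    have hjm : Measurable fun p : E 2 × E m => f (J (Real.cos θ • p.1) (Real.sin θ • p.2)) := by
      have h2 : Measurable fun p : E 2 × E m => ((Real.cos θ • p.1, Real.sin θ • p.2) : E 2 × E m) :=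
        Measurable.prodMk (by fun_prop) (by fun_prop)
      exact hf.comp (hJm.comp h2)
    have e1 : (2 : ℕ) - 1 = 1 := rfl
    rw [e1, pow_one]
    congr 1
    rw [lintegral_lintegral_swap hjm.aemeasurable]
    refine lintegral_congr fun v => ?_
    have hm2 : Measurable fun u : E 2 => f (J (Real.cos θ • u) (Real.sin θ • v)) :=
      hjm.comp (measurable_id.prodMk measurable_const)
    rw [sg2 hm2]
  -- right side
  set g : E m → ℝ≥0∞ := fun y => ∫⁻ θ in Ioc (-Real.pi) Real.pi, f (par y θ) with hg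
  have hgm : Measurable g := (hf.comp par_meas).lintegral_prod_right'
  have hR : ∫⁻ y in Metric.ball (0 : E m) 1, g y =
      ∫⁻ v, (∫⁻ θ in Q, ENNReal.ofReal (Real.cos θ * (Real.sin θ) ^ (m - 1)) *
        ∫⁻ α in Ioc (-Real.pi) Real.pi, f (J (Real.cos θ • om α) (Real.sin θ • v))) ∂(sg m) := by
    rw [← lintegral_indicator measurableSet_ball, Pool.Agent.H789R2.FR.polar (by omega) _
      (hgm.indicator measurableSet_ball)]
    refine lintegral_congr_ae ?_
    filter_upwards [Pool.Agent.H789R2.FR.sg_ae m] with v hv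
    have h1 : ∫⁻ r in Ioi (0 : ℝ), ENNReal.ofReal (r ^ (m - 1)) *
        (Metric.ball (0 : E m) 1).indicator g (r • v) =
        ∫⁻ r in Ioo (0 : ℝ) 1, ENNReal.ofReal (r ^ (m - 1)) *
          ∫⁻ α in Ioc (-Real.pi) Real.pi, f (J (Real.sqrt (1 - r ^ 2) • om α) (r • v)) := by
      rw [← lintegral_indicator measurableSet_Ioi, ← lintegral_indicator measurableSet_Ioo]
      refine lintegral_congr fun r => ?_
      by_cases h0 : 0 < r
      · have m0 : r ∈ Ioi (0 : ℝ) := h0
        rw [indicator_of_mem m0]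
        have hn : ‖r • v‖ = r := by rw [norm_smul, hv, mul_one, Real.norm_of_nonneg h0.le]
        by_cases h1 : r < 1
        · have m1 : r ∈ Ioo (0 : ℝ) 1 := ⟨h0, h1⟩
          have m2 : r • v ∈ Metric.ball (0 : E m) 1 := by
            rw [mem_ball_zero_iff, hn]; exact h1
          rw [indicator_of_mem m1, indicator_of_mem m2, hg]
          simp only
          unfold par wt
          rw [hn]
        · have m1 : r ∉ Ioo (0 : ℝ) 1 := fun h => h1 h.2
          have m2 : r • v ∉ Metric.ball (0 : E m) 1 := by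
            rw [mem_ball_zero_iff, hn]; exact h1
          rw [indicator_of_notMem m1, indicator_of_notMem m2, mul_zero]
      · have m0 : r ∉ Ioi (0 : ℝ) := h0
        have m1 : r ∉ Ioo (0 : ℝ) 1 := fun h => h0 h.1
        rw [indicator_of_notMem m0, indicator_of_notMem m1]
    rw [h1, ← Pool.Agent.H438R2.BR.T7.sin_image,
      lintegral_image_eq_lintegral_abs_deriv_mul (f' := fun θ => Real.cos θ)
        (by unfold Q; exact measurableSet_Ioo)
        (fun θ _ => (Real.hasDerivAt_sin θ).hasDerivWithinAt)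
        Pool.Agent.H438R2.BR.T7.sin_injOn]
    refine setLIntegral_congr_fun (by unfold Q; exact measurableSet_Ioo) fun θ hθ => ?_
    have hc := Pool.Agent.H438R2.BR.T7.cos_pos_Q hθ
    have hs := Pool.Agent.H438R2.BR.T7.sin_pos_Q hθ
    have e1 : Real.sqrt (1 - Real.sin θ ^ 2) = Real.cos θ := by
      rw [← Real.cos_sq', Real.sqrt_sq hc.le]
    rw [e1, abs_of_pos hc, ENNReal.ofReal_mul hc.le, mul_assoc]
  rw [hL, hR]
  have hjoint : Measurable fun p : E m × ℝ => ENNReal.ofReal (Real.cos p.2 * (Real.sin p.2) ^ (m - 1)) *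
      ∫⁻ α in Ioc (-Real.pi) Real.pi, f (J (Real.cos p.2 • om α) (Real.sin p.2 • p.1)) := by
    refine Measurable.mul (by fun_prop) ?_
    have h2 : Measurable fun p : (E m × ℝ) × ℝ =>
        ((Real.cos p.1.2 • om p.2, Real.sin p.1.2 • p.1.1) : E 2 × E m) := by
      refine Measurable.prodMk ?_ ?_
      · exact (Real.measurable_cos.comp (measurable_snd.comp measurable_fst)).smul
          (om_cont.measurable.comp measurable_snd)
      · exact (Real.measurable_sin.comp (measurable_snd.comp measurable_fst)).smul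
          (measurable_fst.comp measurable_fst)
    have h3 : Measurable fun p : (E m × ℝ) × ℝ =>
        f (J (Real.cos p.1.2 • om p.2) (Real.sin p.1.2 • p.1.1)) := hf.comp (hJm.comp h2)
    exact h3.lintegral_prod_right'
  rw [lintegral_lintegral_swap hjoint.aemeasurable]
  refine lintegral_congr fun θ => ?_
  rw [lintegral_const_mul' _ _ ENNReal.ofReal_ne_top]

end Pool.Agent.U506.SP
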