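import Mathlib
import Pool.Agent.U506.SP.G1
import Pool.Agent.U506.SP.F
set_option autoImplicit false
set_option maxHeartbeats 400000

/-! The operator in terms of the sectors. -/

namespace Pool.Agent.U506.SP

open MeasureTheory Set Complex
open scoped ENNReal RealInnerProductSpace
open Pool.Agent.H789R2.FR (E sg T sg_finite)
open Pool.Agent.H438R2.BR (Phi J J_mp J_inner Q)
open Pool.Agent.H438R2.PD (P1 P2 P1_meas P2_meas T_meas' T_le)
open Pool.Agent.TH335.RF (wt wt_meas wt_nonneg wt_pos wt_le_one FB ball_fin FB_Lp enorm_e)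

variable {m : ℕ}

theorem slice_measure (hm : 1 ≤ m) : sg (2 + m) =
    ((volume.restrict (Metric.ball (0 : E m) 1)).prod
      (volume.restrict (Ioc (-Real.pi) Real.pi))).map fun p : E m × ℝ => par p.1 p.2 := by
  refine Measure.ext_of_lintegral _ fun f hf => ?_
  rw [slice hm f hf, lintegral_map hf par_meas, lintegral_prod]
  exact (hf.comp par_meas).aemeasurable

theorem slice_int (hm : 1 ≤ m) (g : E (2 + m) → ℂ) (hg : Measurable g) {M : ℝ}
    (hb : ∀ z, ‖g z‖ ≤ M) :
    ∫ z, g z ∂(sg (2 + m)) =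
      ∫ y in Metric.ball (0 : E m) 1, ∫ θ in Ioc (-Real.pi) Real.pi, g (par y θ) := by
  have f1 : IsFiniteMeasure (volume.restrict (Metric.ball (0 : E m) 1)) :=
    ⟨by simpa using measure_ball_lt_top⟩
  have f2 : IsFiniteMeasure (volume.restrict (Ioc (-Real.pi) Real.pi)) :=
    ⟨by rw [Measure.restrict_apply_univ, Real.volume_Ioc]; exact ENNReal.ofReal_lt_top⟩
  rw [slice_measure hm, integral_map par_meas.aemeasurable hg.aestronglyMeasurable, integral_prod]
  refine Integrable.of_bound (hg.comp par_meas).aestronglyMeasurable M (ae_of_all _ fun p => hb _)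

/-- amplitude of a sector -/
noncomputable def Am (ϑ : ℝ) (g : E (2 + m) → ℂ) (x : E 2) (y : E m) : ℂ :=
  ∫ θ in Sc ϑ, g (par y θ) * cexp (-((wt y * ⟪x, om θ⟫ : ℝ) : ℂ) * I)

lemma Am_meas (ϑ : ℝ) {g : E (2 + m) → ℂ} (hg : Measurable g) :
    Measurable fun p : E 2 × E m => Am ϑ g p.1 p.2 := by
  unfold Am
  have hfin := Sc_fin ϑ
  have k0 : Measurable fun p : (E 2 × E m) × ℝ => ((p.1.2, p.2) : E m × ℝ) :=
    (measurable_snd.comp measurable_fst).prodMk measurable_snd
  have k1 : Measurable fun p : (E 2 × E m) × ℝ => par p.1.2 p.2 := by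
    have h5 := Measurable.comp par_meas k0
    exact h5
  have m1 : Measurable fun p : (E 2 × E m) × ℝ => g (par p.1.2 p.2) := hg.comp k1
  have m2 : Measurable fun p : (E 2 × E m) × ℝ =>
      cexp (-((wt p.1.2 * ⟪p.1.1, om p.2⟫ : ℝ) : ℂ) * I) := by
    have k2 : Measurable fun p : (E 2 × E m) × ℝ => p.1.2 := measurable_snd.comp measurable_fst
    have h1 : Measurable fun p : (E 2 × E m) × ℝ => wt p.1.2 := by
      have h5 := Measurable.comp wt_meas k2
      exact h5
    have h2 : Measurable fun p : (E 2 × E m) × ℝ => (⟪p.1.1, om p.2⟫ : ℝ) := by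
      have h3 : Continuous fun p : (E 2 × E m) × ℝ => (⟪p.1.1, om p.2⟫ : ℝ) :=
        (continuous_fst.comp continuous_fst).inner (om_cont.comp continuous_snd)
      exact h3.measurable
    exact Complex.measurable_exp.comp (((Complex.measurable_ofReal.comp (h1.mul h2)).neg).mul_const I)
  exact ((m1.mul m2).stronglyMeasurable.integral_prod_right' (ν := volume.restrict (Sc ϑ))).measurable

lemma Am_norm (ϑ : ℝ) {g : E (2 + m) → ℂ} (hb : ∀ z, ‖g z‖ ≤ 1) (x : E 2) (y : E m) :
    ‖Am ϑ g x y‖ ≤ Real.pi := by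
  have hpi := Real.pi_pos
  unfold Am
  have h1 : ‖∫ θ in Sc ϑ, g (par y θ) * cexp (-((wt y * ⟪x, om θ⟫ : ℝ) : ℂ) * I)‖ ≤
      1 * (volume : Measure ℝ).real (Sc ϑ) := by
    refine norm_setIntegral_le_of_norm_le_const ?_ ?_
    · unfold Sc
      rw [Real.volume_Ioc]
      exact ENNReal.ofReal_lt_top
    · intro θ _
      rw [norm_mul, show -((wt y * ⟪x, om θ⟫ : ℝ) : ℂ) * I = ((-(wt y * ⟪x, om θ⟫) : ℝ) : ℂ) * I by
        push_cast; ring, Complex.norm_exp_ofReal_mul_I, mul_one]
      exact hb _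
  refine h1.trans ?_
  unfold Sc
  rw [Real.volume_real_Ioc_of_le (by linarith)]
  linarith

/-- measurability of the transform with a parameter -/
lemma FB_meas {ι : Type*} [MeasurableSpace ι] {A : ι → E m → ℂ}
    (hA : Measurable fun p : ι × E m => A p.1 p.2) :
    Measurable fun p : ι × E m => FB (A p.1) p.2 := by
  unfold FB
  have m1 : Measurable fun p : (ι × E m) × E m => A p.1.1 p.2 :=
    hA.comp ((measurable_fst.comp measurable_fst).prodMk measurable_snd)
  have m2 : Measurable fun p : (ι × E m) × E m => cexp (-((⟪p.2, p.1.2⟫ : ℝ) : ℂ) * I) := by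
    have h2 : Measurable fun p : (ι × E m) × E m => (⟪p.2, p.1.2⟫ : ℝ) := by
      have h3 : Measurable fun p : E m × E m => (⟪p.1, p.2⟫ : ℝ) :=
        (continuous_fst.inner continuous_snd).measurable
      exact h3.comp (measurable_snd.prodMk (measurable_snd.comp measurable_fst))
    exact Complex.measurable_exp.comp (((Complex.measurable_ofReal.comp h2).neg).mul_const I)
  exact ((m1.mul m2).stronglyMeasurable.integral_prod_right'
    (ν := volume.restrict (Metric.ball (0 : E m) 1))).measurable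

/-- the circle is the union of four sectors -/
lemma four {f : ℝ → ℂ} (hf : IntegrableOn f (Ioc (-Real.pi) Real.pi)) :
    ∫ θ in Ioc (-Real.pi) Real.pi, f θ =
      (∫ θ in Sc (-(3 * Real.pi / 4)), f θ) + (∫ θ in Sc (-(Real.pi / 4)), f θ) +
      ((∫ θ in Sc (Real.pi / 4), f θ) + ∫ θ in Sc (3 * Real.pi / 4), f θ) := by
  have hpi := Real.pi_pos
  unfold Sc
  rw [show -(3 * Real.pi / 4) - Real.pi / 4 = -Real.pi by ring,
    show -(3 * Real.pi / 4) + Real.pi / 4 = -(Real.pi / 2) by ring,
    show -(Real.pi / 4) - Real.pi / 4 = -(Real.pi / 2) by ring,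
    show -(Real.pi / 4) + Real.pi / 4 = 0 by ring,
    show Real.pi / 4 - Real.pi / 4 = 0 by ring,
    show Real.pi / 4 + Real.pi / 4 = Real.pi / 2 by ring,
    show 3 * Real.pi / 4 - Real.pi / 4 = Real.pi / 2 by ring,
    show 3 * Real.pi / 4 + Real.pi / 4 = Real.pi by ring]
  rw [← intervalIntegral.integral_of_le (by linarith), ← intervalIntegral.integral_of_le (by linarith),
    ← intervalIntegral.integral_of_le (by linarith), ← intervalIntegral.integral_of_le (by linarith),
    ← intervalIntegral.integral_of_le (by linarith)]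
  have hi : ∀ a b : ℝ, -Real.pi ≤ a → a ≤ b → b ≤ Real.pi → IntervalIntegrable f volume a b := by
    intro a b h1 h2 h3
    rw [intervalIntegrable_iff_integrableOn_Ioc_of_le h2]
    exact hf.mono_set (Ioc_subset_Ioc h1 h3)
  rw [intervalIntegral.integral_add_adjacent_intervals (hi _ _ (by linarith) (by linarith) (by linarith))
      (hi _ _ (by linarith) (by linarith) (by linarith)),
    intervalIntegral.integral_add_adjacent_intervals (hi _ _ (by linarith) (by linarith) (by linarith))
      (hi _ _ (by linarith) (by linarith) (by linarith)),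
    intervalIntegral.integral_add_adjacent_intervals (hi _ _ (by linarith) (by linarith) (by linarith))
      (hi _ _ (by linarith) (by linarith) (by linarith))]

lemma FB_int {A : E m → ℂ} (hA : Measurable A) {M : ℝ} (hM : ∀ y, ‖A y‖ ≤ M) (y' : E m) :
    IntegrableOn (fun y => A y * cexp (-((⟪y, y'⟫ : ℝ) : ℂ) * I)) (Metric.ball (0 : E m) 1) := by
  refine Measure.integrableOn_of_bounded (M := M) ball_fin ?_ ?_
  · have h1 : Measurable fun y : E m => Complex.exp (-((⟪y, y'⟫ : ℝ) : ℂ) * I) := by fun_prop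
    exact (hA.mul h1).aestronglyMeasurable
  · refine ae_of_all _ fun y => ?_
    rw [norm_mul, show -((⟪y, y'⟫ : ℝ) : ℂ) * I = ((-⟪y, y'⟫ : ℝ) : ℂ) * I by push_cast; ring,
      Complex.norm_exp_ofReal_mul_I, mul_one]
    exact hM y

/-- the operator as a sum over the sectors -/
theorem T_four (hm : 1 ≤ m) {g : E (2 + m) → ℂ} (hg : Measurable g) (hb : ∀ z, ‖g z‖ ≤ 1)
    (x : E 2) (y' : E m) :
    T g (J x y') = FB (Am (-(3 * Real.pi / 4)) g x) y' + FB (Am (-(Real.pi / 4)) g x) y' +
      (FB (Am (Real.pi / 4) g x) y' + FB (Am (3 * Real.pi / 4) g x) y') := by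
  have hAm : ∀ ϑ : ℝ, Measurable (Am ϑ g x) := by
    intro ϑ
    have k0 : Measurable fun y : E m => ((x, y) : E 2 × E m) := measurable_const.prodMk measurable_id
    have k1 := Measurable.comp (Am_meas ϑ hg) k0
    exact k1
  have hI : ∀ ϑ : ℝ, IntegrableOn (fun y => Am ϑ g x y * cexp (-((⟪y, y'⟫ : ℝ) : ℂ) * I))
      (Metric.ball (0 : E m) 1) := fun ϑ => FB_int (hAm ϑ) (Am_norm ϑ hb x) y'
  have hI2 : ∀ ϑ ϑ' : ℝ, IntegrableOn (fun y => Am ϑ g x y * cexp (-((⟪y, y'⟫ : ℝ) : ℂ) * I) +
      Am ϑ' g x y * cexp (-((⟪y, y'⟫ : ℝ) : ℂ) * I)) (Metric.ball (0 : E m) 1) :=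
    fun ϑ ϑ' => (hI ϑ).add (hI ϑ')
  unfold FB
  rw [← integral_add (hI _) (hI _), ← integral_add (hI _) (hI _),
    ← integral_add (hI2 _ _) (hI2 _ _)]
  unfold T
  have hmeas : Measurable fun z : E (2 + m) => cexp (-((⟪J x y', z⟫ : ℝ) : ℂ) * I) * g z := by
    have h1 : Measurable fun z : E (2 + m) => (⟪J x y', z⟫ : ℝ) := by fun_prop
    exact (Complex.measurable_exp.comp ((Complex.measurable_ofReal.comp h1).neg.mul_const I)).mul hg
  rw [slice_int hm _ hmeas (M := 1)]
  · refine setIntegral_congr_fun measurableSet_ball fun y hy => ?_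
    rw [← add_mul, ← add_mul, ← add_mul]
    unfold Am
    have hin : ∀ θ, (⟪J x y', par y θ⟫ : ℝ) = wt y * ⟪x, om θ⟫ + ⟪y, y'⟫ := by
      intro θ
      unfold par
      rw [J_inner, real_inner_smul_right, real_inner_comm y' y]
    have hpt : ∀ θ, cexp (-((⟪J x y', par y θ⟫ : ℝ) : ℂ) * I) * g (par y θ) =
        (g (par y θ) * cexp (-((wt y * ⟪x, om θ⟫ : ℝ) : ℂ) * I)) *
          cexp (-((⟪y, y'⟫ : ℝ) : ℂ) * I) := by
      intro θ
      rw [hin, mul_assoc, ← Complex.exp_add, mul_comm]
      congr 2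
      push_cast
      ring
    simp only [hpt]
    rw [integral_mul_const, four]
    · have k0 : Measurable fun θ : ℝ => ((y, θ) : E m × ℝ) :=
        measurable_const.prodMk measurable_id
      have k1 : Measurable fun θ : ℝ => par y θ := by
        have k2 := Measurable.comp par_meas k0
        exact k2
      have hm1 : Measurable fun θ : ℝ => g (par y θ) := hg.comp k1
      have hm2 : Measurable fun θ : ℝ => cexp (-((wt y * ⟪x, om θ⟫ : ℝ) : ℂ) * I) := by
        have h2 : Measurable fun θ : ℝ => (⟪x, om θ⟫ : ℝ) :=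
          (continuous_const.inner om_cont).measurable
        exact Complex.measurable_exp.comp
          (((Complex.measurable_ofReal.comp (h2.const_mul _)).neg).mul_const I)
      refine Measure.integrableOn_of_bounded (M := 1) ?_ (hm1.mul hm2).aestronglyMeasurable ?_
      · rw [Real.volume_Ioc]
        exact ENNReal.ofReal_ne_top
      · refine ae_of_all _ fun θ => ?_
        rw [norm_mul, show -((wt y * ⟪x, om θ⟫ : ℝ) : ℂ) * I = ((-(wt y * ⟪x, om θ⟫) : ℝ) : ℂ) * I by
          push_cast; ring, Complex.norm_exp_ofReal_mul_I, mul_one]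
        exact hb _
  · intro z
    rw [norm_mul, show -((⟪J x y', z⟫ : ℝ) : ℂ) * I = ((-(⟪J x y', z⟫) : ℝ) : ℂ) * I by
      push_cast; ring, Complex.norm_exp_ofReal_mul_I, one_mul]
    exact hb _

end Pool.Agent.U506.SP
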