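import Mathlib
import Pool.Agent.U506.SP.G2
set_option autoImplicit false
set_option maxHeartbeats 400000

/-! Integrals in the radial variable and over the ball. -/

namespace Pool.Agent.U506.SP

open MeasureTheory Set Complex
open scoped ENNReal RealInnerProductSpace
open Pool.Agent.H789R2.FR (E sg T sg_finite)
open Pool.Agent.H438R2.BR (Phi J J_mp J_inner Q)
open Pool.Agent.TH335.RF (wt wt_meas wt_nonneg wt_pos wt_le_one FB ball_fin FB_Lp enorm_e ball_w)

lemma w1_meas (b q : ℝ) : Measurable (w1 b q) := by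
  unfold w1
  refine Measurable.ite (measurableSet_le measurable_const measurable_id) ?_ ?_ <;> fun_prop

/-- the radial constant -/
noncomputable def Lw (b q : ℝ) : ℝ≥0∞ := ∫⁻ t in Ioi (0 : ℝ), ENNReal.ofReal (t * w1 b q t)

lemma Lw_lt {b q : ℝ} (hq : q < 4) (hb : 4 < q + b) : Lw b q < ⊤ := by
  unfold Lw
  have hu : Ioi (0 : ℝ) = Ioc 0 1 ∪ Ioi 1 := by
    rw [Ioc_union_Ioi_eq_Ioi zero_le_one]
  rw [hu]
  refine lt_of_le_of_lt (lintegral_union_le _ _ _) (ENNReal.add_lt_top.2 ⟨?_, ?_⟩)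
  · have h1 := intervalIntegral.intervalIntegrable_rpow' (a := 0) (b := 1) (r := 1 - q / 2)
      (by linarith)
    rw [intervalIntegrable_iff_integrableOn_Ioo_of_le zero_le_one] at h1
    rw [← restrict_Ioo_eq_restrict_Ioc]
    refine lt_of_le_of_lt ?_ h1.2
    refine setLIntegral_mono' measurableSet_Ioo fun t ht => ?_
    rw [← ofReal_norm]
    apply ENNReal.ofReal_le_ofReal
    rw [Real.norm_of_nonneg (Real.rpow_nonneg ht.1.le _)]
    unfold w1
    rw [if_neg (not_le.2 ht.2)]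
    have : t * t ^ (-(q / 2)) = t ^ (1 - q / 2) := by
      rw [sub_eq_add_neg, Real.rpow_add ht.1, Real.rpow_one]
    exact this.le
  · have h2 : IntegrableOn (fun t : ℝ => t ^ (1 - (q + b) / 2)) (Ioi 1) :=
      integrableOn_Ioi_rpow_of_lt (by linarith) one_pos
    refine lt_of_le_of_lt ?_ h2.2
    refine setLIntegral_mono' measurableSet_Ioi fun t ht => ?_
    have ht1 : (1 : ℝ) < t := ht
    have ht0 : (0 : ℝ) < t := by linarith
    rw [← ofReal_norm]
    apply ENNReal.ofReal_le_ofReal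
    rw [Real.norm_of_nonneg (Real.rpow_nonneg ht0.le _)]
    unfold w1
    rw [if_pos ht1.le]
    have : t * t ^ (-((q + b) / 2)) = t ^ (1 - (q + b) / 2) := by
      rw [sub_eq_add_neg, Real.rpow_add ht0, Real.rpow_one]
    exact this.le

lemma rad (b q : ℝ) {w : ℝ} (hw : 0 < w) :
    ∫⁻ ρ in Ioi (0 : ℝ), ENNReal.ofReal (ρ * w1 b q (ρ * w)) =
      ENNReal.ofReal (w ^ (-2 : ℝ)) * Lw b q := by
  have hF : Measurable fun t : ℝ => ENNReal.ofReal (t * w1 b q t) :=
    (measurable_id.mul (w1_meas b q)).ennreal_ofReal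
  have h1 := Pool.Agent.U506.RR.scal hF hw
  have e1 : ∀ ρ ∈ Ioi (0 : ℝ), ENNReal.ofReal (ρ * w1 b q (ρ * w)) =
      ENNReal.ofReal w⁻¹ * ENNReal.ofReal (w * ρ * w1 b q (w * ρ)) := by
    intro ρ hρ
    rw [← ENNReal.ofReal_mul (by positivity)]
    congr 1
    rw [mul_comm ρ w]
    field_simp
  rw [setLIntegral_congr_fun measurableSet_Ioi e1, lintegral_const_mul' _ _ ENNReal.ofReal_ne_top,
    h1, ← mul_assoc, ← ENNReal.ofReal_mul (by positivity)]
  unfold Lw
  congr 2
  rw [Real.rpow_neg hw.le]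
  norm_num
  ring

/-- the mass of a power of the weight -/
noncomputable def Wb (m : ℕ) (β : ℝ) : ℝ≥0∞ :=
  ∫⁻ y in Metric.ball (0 : E m) 1, ENNReal.ofReal (wt y ^ (-β))

lemma Wb_lt {m : ℕ} (hm : 1 ≤ m) {β : ℝ} (h1 : 1 ≤ β) (h2 : β < 2) : Wb m β < ⊤ := by
  have hfs : IsFiniteMeasure (sg m) := sg_finite m
  have hpi := Real.pi_pos
  have hφ : Measurable fun s : ℝ => ENNReal.ofReal (s ^ (1 - β)) := by fun_prop
  have h := ball_w hm (fun s : ℝ => ENNReal.ofReal (s ^ (1 - β))) hφ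
  have e1 : Wb m β = ∫⁻ y in Metric.ball (0 : E m) 1,
      ENNReal.ofReal ((1 - ‖y‖ ^ 2) ^ (-(1 / 2) : ℝ)) *
        ENNReal.ofReal (Real.sqrt (1 - ‖y‖ ^ 2) ^ (1 - β)) := by
    unfold Wb
    refine setLIntegral_congr_fun measurableSet_ball fun y hy => ?_
    have hw := wt_pos hy
    have hn : ‖y‖ < 1 := by simpa using hy
    have h0 : 0 < 1 - ‖y‖ ^ 2 := by nlinarith [norm_nonneg y]
    rw [← ENNReal.ofReal_mul (by positivity)]
    congr 1
    have e2 : (1 - ‖y‖ ^ 2) ^ (-(1 / 2) : ℝ) = wt y ^ (-1 : ℝ) := by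
      unfold wt
      rw [Real.sqrt_eq_rpow, ← Real.rpow_mul h0.le]
      norm_num
    have e3 : Real.sqrt (1 - ‖y‖ ^ 2) = wt y := rfl
    rw [e2, e3, ← Real.rpow_add hw]
    congr 1
    ring
  rw [e1]
  refine lt_of_le_of_lt h (ENNReal.mul_lt_top (measure_lt_top _ _) ?_)
  have i1 := intervalIntegral.intervalIntegrable_rpow' (a := 0) (b := Real.pi / 2) (r := 1 - β)
    (by linarith)
  rw [intervalIntegrable_iff_integrableOn_Ioo_of_le (by positivity)] at i1
  have i2 : IntegrableOn (fun θ : ℝ => (2 / Real.pi) ^ (1 - β) * θ ^ (1 - β))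
      (Ioo 0 (Real.pi / 2)) := i1.const_mul _
  refine lt_of_le_of_lt ?_ i2.2
  have hQ : Q = Ioo 0 (Real.pi / 2) := rfl
  rw [hQ]
  refine setLIntegral_mono' measurableSet_Ioo fun θ hθ => ?_
  have hθ0 := hθ.1
  rw [← ofReal_norm]
  apply ENNReal.ofReal_le_ofReal
  simp only
  rw [Real.norm_of_nonneg (by positivity), ← Real.mul_rpow (by positivity) hθ.1.le]
  have h3 : 2 / Real.pi * θ ≤ Real.sin θ := Real.mul_le_sin hθ.1.le hθ.2.le
  exact Real.rpow_le_rpow_of_nonpos (by positivity) h3 (by linarith)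

/-- polar coordinates with half circles -/
lemma pol3 {F : E 2 → ℝ≥0∞} (hF : Measurable F) (ϑ : ℝ) :
    ∫⁻ x : E 2, F x = (∫⁻ r in Ioi (0 : ℝ), ENNReal.ofReal r *
      ∫⁻ α in Al ϑ, F ((1 * r) • om α)) + ∫⁻ r in Ioi (0 : ℝ), ENNReal.ofReal r *
      ∫⁻ α in Al ϑ, F ((-1 * r) • om α) := by
  have hpi := Real.pi_pos
  rw [pol2 hF]
  have hm : ∀ z : ℝ, Measurable fun p : ℝ × ℝ => F ((z * p.1) • om p.2) := fun z =>
    hF.comp ((continuous_const.mul continuous_fst).smul (om_cont.comp continuous_snd)).measurable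
  have hm2 : ∀ z : ℝ, Measurable fun r : ℝ => ENNReal.ofReal r * ∫⁻ α in Al ϑ, F ((z * r) • om α) :=
    fun z => Measurable.mul (by fun_prop) (hm z).lintegral_prod_right'
  rw [← lintegral_add_left (hm2 1)]
  refine lintegral_congr fun r => ?_
  rw [← mul_add]
  congr 1
  have hper : Function.Periodic (fun θ => F (r • om θ)) (2 * Real.pi) := by
    intro θ
    simp only
    rw [om_per]
  have h1 := Pool.Agent.U506.RR.per_shift hper (-Real.pi) (ϑ - Real.pi / 2)
  rw [show -Real.pi + 2 * Real.pi = Real.pi by ring] at h1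
  rw [h1]
  have hu : Ioc (ϑ - Real.pi / 2) (ϑ - Real.pi / 2 + 2 * Real.pi) =
      Ioc (ϑ - Real.pi / 2) (ϑ + Real.pi / 2) ∪ Ioc (ϑ + Real.pi / 2) (ϑ - Real.pi / 2 + 2 * Real.pi) := by
    rw [Ioc_union_Ioc_eq_Ioc (by linarith) (by linarith)]
  rw [hu, lintegral_union measurableSet_Ioc]
  · congr 1
    · unfold Al
      rw [one_mul]
    · have hs : MeasurePreserving (fun α : ℝ => α + Real.pi)
          (volume.restrict (Ioc (ϑ - Real.pi / 2) (ϑ + Real.pi / 2)))
          (volume.restrict (Ioc (ϑ + Real.pi / 2) (ϑ - Real.pi / 2 + 2 * Real.pi))) := by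
        have h2 := (measurePreserving_add_right (volume : Measure ℝ) Real.pi).restrict_preimage
          (s := Ioc (ϑ + Real.pi / 2) (ϑ - Real.pi / 2 + 2 * Real.pi)) measurableSet_Ioc
        have e : (fun α : ℝ => α + Real.pi) ⁻¹' Ioc (ϑ + Real.pi / 2)
            (ϑ - Real.pi / 2 + 2 * Real.pi) = Ioc (ϑ - Real.pi / 2) (ϑ + Real.pi / 2) := by
          rw [preimage_add_const_Ioc]
          congr 1 <;> ring
        rwa [e] at h2
      have hc : Continuous fun θ => r • om θ := by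
        have := om_cont
        fun_prop
      have hFm : Measurable fun θ => F (r • om θ) := hF.comp hc.measurable
      rw [← hs.lintegral_comp hFm]
      unfold Al
      refine lintegral_congr fun α => ?_
      rw [om_pi, smul_neg, neg_one_mul, neg_smul]
  · exact Ioc_disjoint_Ioc_of_le le_rfl

end Pool.Agent.U506.SP
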