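import Mathlib
import Pool.Agent.U506.SP.G3
import Pool.Agent.TH335.RF.P7
set_option autoImplicit false
set_option maxHeartbeats 400000

/-! Main part and remainder. -/

namespace Pool.Agent.U506.SP

open MeasureTheory Set Complex
open scoped ENNReal RealInnerProductSpace
open Pool.Agent.H789R2.FR (E sg T sg_finite)
open Pool.Agent.H438R2.BR (Phi J J_mp J_inner Q)
open Pool.Agent.TH335.RF (wt wt_meas wt_nonneg wt_pos wt_le_one FB ball_fin FB_Lp enorm_e MA Gf
  MA_int MA_meas)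

variable {m : ℕ}

/-- the amplitude of the main part -/
noncomputable def Fa (ϑ : ℝ) (g : E (2 + m) → ℂ) (α : ℝ) (y : E m) : ℂ :=
  (Sc ϑ).indicator (fun θ => g (par y θ)) α

/-- the amplitude of the remainder -/
noncomputable def Re1 (c : ℂ) (z ϑ : ℝ) (g : E (2 + m) → ℂ) (p : ℝ × ℝ) (y : E m) : ℂ :=
  Fu c z (p.1 * wt y) ϑ (fun θ => g (par y θ)) p.2

lemma par_y_meas {g : E (2 + m) → ℂ} (hg : Measurable g) : Measurable fun p : E m × ℝ => g (par p.1 p.2) :=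
  hg.comp par_meas

lemma Fa_meas (ϑ : ℝ) {g : E (2 + m) → ℂ} (hg : Measurable g) :
    Measurable fun p : ℝ × E m => Fa ϑ g p.1 p.2 := by
  have e : (fun p : ℝ × E m => Fa ϑ g p.1 p.2) =
      ({p : ℝ × E m | p.1 ∈ Sc ϑ} : Set (ℝ × E m)).indicator fun p => g (par p.2 p.1) := by
    funext p
    unfold Fa
    by_cases h : p.1 ∈ Sc ϑ
    · rw [indicator_of_mem h, indicator_of_mem (show p ∈ {p : ℝ × E m | p.1 ∈ Sc ϑ} from h)]
    · rw [indicator_of_notMem h, indicator_of_notMem (show p ∉ {p : ℝ × E m | p.1 ∈ Sc ϑ} from h)]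
  rw [e]
  have h1 : Measurable fun p : ℝ × E m => g (par p.2 p.1) := by
    have k : Measurable fun p : ℝ × E m => ((p.2, p.1) : E m × ℝ) :=
      measurable_snd.prodMk measurable_fst
    have := Measurable.comp (par_y_meas hg) k
    exact this
  exact h1.indicator (measurable_fst (Sc_meas ϑ))

lemma Fa_meas' (ϑ : ℝ) {g : E (2 + m) → ℂ} (hg : Measurable g) (α : ℝ) : Measurable (Fa ϑ g α) := by
  have h1 := Measurable.comp (Fa_meas ϑ hg) (measurable_prodMk_left (x := α))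
  exact h1

lemma Fa_norm (ϑ : ℝ) {g : E (2 + m) → ℂ} (hb : ∀ z, ‖g z‖ ≤ 1) (α : ℝ) (y : E m) :
    ‖Fa ϑ g α y‖ ≤ 1 := by
  unfold Fa
  by_cases h : α ∈ Sc ϑ
  · rw [indicator_of_mem h]
    exact hb _
  · rw [indicator_of_notMem h, norm_zero]
    exact zero_le_one

/-- the amplitude in polar coordinates -/
lemma Am_pol (ϑ z ρ α : ℝ) (g : E (2 + m) → ℂ) (y : E m) :
    Am ϑ g ((z * ρ) • om α) y = ∫ θ in Sc ϑ, g (par y θ) * os z (ρ * wt y) (θ - α) := by
  unfold Am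
  congr 1
  funext θ
  congr 1
  unfold os
  rw [real_inner_smul_left, om_inner, show α - θ = -(θ - α) by ring, Real.cos_neg]
  congr 1
  push_cast
  ring

/-- decomposition of the amplitude -/
lemma Am_dec (c : ℂ) (ϑ z ρ α : ℝ) (g : E (2 + m) → ℂ) (y : E m) (hρ : 0 < ρ) :
    Am ϑ g ((z * ρ) • om α) y = Re1 c z ϑ g (ρ, α) y +
      (2 * c * ((ρ ^ (-(1 / 2) : ℝ) : ℝ) : ℂ)) * MA 2 (Fa ϑ g α) (z * ρ) y := by
  rw [Am_pol]
  unfold Re1 Fu Mn MA Fa
  have h1 : (ρ * wt y) ^ (-(1 / 2) : ℝ) = ρ ^ (-(1 / 2) : ℝ) * wt y ^ (-(1 / 2) : ℝ) :=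
    Real.mul_rpow hρ.le (wt_nonneg y)
  have h2 : (((2 : ℕ) : ℝ) - 3) / 2 = -(1 / 2) := by norm_num
  simp only
  rw [h1, h2, show z * (ρ * wt y) = z * ρ * wt y by ring]
  push_cast
  ring

lemma Re1_meas (c : ℂ) (z ϑ : ℝ) {g : E (2 + m) → ℂ} (hg : Measurable g) :
    Measurable fun p : (ℝ × ℝ) × E m => Re1 c z ϑ g p.1 p.2 := by
  have hfin := Sc_fin ϑ
  have hw : Measurable fun p : (ℝ × ℝ) × E m => wt p.2 := by
    have k : Measurable fun p : (ℝ × ℝ) × E m => p.2 := measurable_snd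
    have := Measurable.comp (wt_meas (m := m)) k
    exact this
  have hρ : Measurable fun p : (ℝ × ℝ) × E m => p.1.1 := measurable_fst.comp measurable_fst
  have hα : Measurable fun p : (ℝ × ℝ) × E m => p.1.2 := measurable_snd.comp measurable_fst
  have hρw : Measurable fun p : (ℝ × ℝ) × E m => p.1.1 * wt p.2 := hρ.mul hw
  unfold Re1 Fu
  have k0 : Measurable fun p : ((ℝ × ℝ) × E m) × ℝ => ((p.1.2, p.2) : E m × ℝ) :=
    (measurable_snd.comp measurable_fst).prodMk measurable_snd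
  have m1 : Measurable fun p : ((ℝ × ℝ) × E m) × ℝ => g (par p.1.2 p.2) := by
    have := Measurable.comp (par_y_meas hg) k0
    exact this
  have m2 : Measurable fun p : ((ℝ × ℝ) × E m) × ℝ => os z (p.1.1.1 * wt p.1.2) (p.2 - p.1.1.2) := by
    have h1 : Measurable fun p : ((ℝ × ℝ) × E m) × ℝ => p.1.1.1 * wt p.1.2 := by
      have k : Measurable fun p : ((ℝ × ℝ) × E m) × ℝ => p.1 := measurable_fst
      have := Measurable.comp hρw k
      exact this
    have h2 : Measurable fun p : ((ℝ × ℝ) × E m) × ℝ => p.2 - p.1.1.2 := by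
      have h3 : Measurable fun p : ((ℝ × ℝ) × E m) × ℝ => p.1.1.2 := by
        have k : Measurable fun p : ((ℝ × ℝ) × E m) × ℝ => p.1 := measurable_fst
        have := Measurable.comp hα k
        exact this
      exact measurable_snd.sub h3
    unfold os
    have h4 : Measurable fun p : ((ℝ × ℝ) × E m) × ℝ =>
        -(z * (p.1.1.1 * wt p.1.2 * Real.cos (p.2 - p.1.1.2))) :=
      ((h1.mul (Real.measurable_cos.comp h2)).const_mul z).neg
    exact Complex.measurable_exp.comp ((Complex.measurable_ofReal.comp h4).mul_const I)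
  have m3 : Measurable fun p : (ℝ × ℝ) × E m =>
      ∫ θ in Sc ϑ, g (par p.2 θ) * os z (p.1.1 * wt p.2) (θ - p.1.2) :=
    ((m1.mul m2).stronglyMeasurable.integral_prod_right' (ν := volume.restrict (Sc ϑ))).measurable
  have m4 : Measurable fun p : (ℝ × ℝ) × E m => Mn c z (p.1.1 * wt p.2) := by
    unfold Mn
    have h5 : Measurable fun p : (ℝ × ℝ) × E m => (p.1.1 * wt p.2) ^ (-(1 / 2) : ℝ) :=
      hρw.pow_const _
    have h6 : Measurable fun p : (ℝ × ℝ) × E m => -(z * (p.1.1 * wt p.2)) := (hρw.const_mul z).neg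
    exact ((Complex.measurable_ofReal.comp h5).mul
      (Complex.measurable_exp.comp ((Complex.measurable_ofReal.comp h6).mul_const I))).const_mul c
  have m5 : Measurable fun p : (ℝ × ℝ) × E m => (Sc ϑ).indicator (fun θ => g (par p.2 θ)) p.1.2 := by
    have k3 : Measurable fun p : (ℝ × ℝ) × E m => ((p.1.2, p.2) : ℝ × E m) :=
      hα.prodMk measurable_snd
    have := Measurable.comp (Fa_meas ϑ hg) k3
    exact this
  exact m3.sub ((m4.const_mul 2).mul m5)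

lemma Re1_meas' (c : ℂ) (z ϑ : ℝ) {g : E (2 + m) → ℂ} (hg : Measurable g) (p : ℝ × ℝ) :
    Measurable (Re1 c z ϑ g p) := by
  have h1 := Measurable.comp (Re1_meas c z ϑ hg) (measurable_prodMk_left (x := p))
  exact h1

/-- the transform of the main part with parameters -/
lemma Gf_meas3 (z ϑ : ℝ) {g : E (2 + m) → ℂ} (hg : Measurable g) :
    Measurable fun p : (ℝ × ℝ) × E m => Gf 2 (Fa ϑ g p.1.2) (z * p.1.1) p.2 := by
  unfold Gf
  refine FB_meas (A := fun p : ℝ × ℝ => MA 2 (Fa ϑ g p.2) (z * p.1)) ?_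
  unfold MA
  have hw : Measurable fun p : (ℝ × ℝ) × E m => wt p.2 := by
    have k : Measurable fun p : (ℝ × ℝ) × E m => p.2 := measurable_snd
    have := Measurable.comp (wt_meas (m := m)) k
    exact this
  have hρ : Measurable fun p : (ℝ × ℝ) × E m => p.1.1 := measurable_fst.comp measurable_fst
  have hα : Measurable fun p : (ℝ × ℝ) × E m => p.1.2 := measurable_snd.comp measurable_fst
  have h1 : Measurable fun p : (ℝ × ℝ) × E m => wt p.2 ^ ((((2 : ℕ) : ℝ) - 3) / 2) := hw.pow_const _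
  have h2 : Measurable fun p : (ℝ × ℝ) × E m => -(z * p.1.1 * wt p.2) :=
    ((hρ.const_mul z).mul hw).neg
  have h3 : Measurable fun p : (ℝ × ℝ) × E m => Fa ϑ g p.1.2 p.2 := by
    have k3 : Measurable fun p : (ℝ × ℝ) × E m => ((p.1.2, p.2) : ℝ × E m) :=
      hα.prodMk measurable_snd
    have := Measurable.comp (Fa_meas ϑ hg) k3
    exact this
  exact ((Complex.measurable_ofReal.comp h1).mul
    (Complex.measurable_exp.comp ((Complex.measurable_ofReal.comp h2).mul_const I))).mul h3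

/-- decomposition of the transform -/
lemma FB_dec (hm : 1 ≤ m) (c : ℂ) (ϑ z ρ α : ℝ) {g : E (2 + m) → ℂ} (hg : Measurable g)
    (hb : ∀ z, ‖g z‖ ≤ 1) (hρ : 0 < ρ) (y' : E m) :
    FB (Am ϑ g ((z * ρ) • om α)) y' = FB (Re1 c z ϑ g (ρ, α)) y' +
      (2 * c * ((ρ ^ (-(1 / 2) : ℝ) : ℝ) : ℂ)) * Gf 2 (Fa ϑ g α) (z * ρ) y' := by
  have hAm : Measurable (Am ϑ g ((z * ρ) • om α)) := by
    have k1 := Measurable.comp (Am_meas ϑ hg) (measurable_prodMk_left (x := ((z * ρ) • om α)))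
    exact k1
  have i1 := FB_int hAm (Am_norm ϑ hb ((z * ρ) • om α)) y'
  have i2 := MA_int 2 le_rfl hm (Fa ϑ g α) (Fa_meas' ϑ hg α) (Fa_norm ϑ hb α) (z * ρ) y'
  have i3 : IntegrableOn (fun y => (2 * c * ((ρ ^ (-(1 / 2) : ℝ) : ℝ) : ℂ)) *
      (MA 2 (Fa ϑ g α) (z * ρ) y * cexp (-((⟪y, y'⟫ : ℝ) : ℂ) * I))) (Metric.ball (0 : E m) 1) :=
    i2.const_mul _
  have e : ∀ y, Re1 c z ϑ g (ρ, α) y * cexp (-((⟪y, y'⟫ : ℝ) : ℂ) * I) =
      Am ϑ g ((z * ρ) • om α) y * cexp (-((⟪y, y'⟫ : ℝ) : ℂ) * I) -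
      (2 * c * ((ρ ^ (-(1 / 2) : ℝ) : ℝ) : ℂ)) *
      (MA 2 (Fa ϑ g α) (z * ρ) y * cexp (-((⟪y, y'⟫ : ℝ) : ℂ) * I)) := by
    intro y
    rw [Am_dec c ϑ z ρ α g y hρ]
    ring
  have h1 : FB (Re1 c z ϑ g (ρ, α)) y' = FB (Am ϑ g ((z * ρ) • om α)) y' -
      (2 * c * ((ρ ^ (-(1 / 2) : ℝ) : ℝ) : ℂ)) * Gf 2 (Fa ϑ g α) (z * ρ) y' := by
    unfold Gf FB
    rw [← integral_const_mul, ← integral_sub i1 i3]
    exact integral_congr_ae (ae_of_all _ e)
  rw [h1]
  ring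

end Pool.Agent.U506.SP
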