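import Mathlib
import Pool.Agent.U506.SP.G4
set_option autoImplicit false
set_option maxHeartbeats 400000

/-! The two parts of the transform of a sector. -/

namespace Pool.Agent.U506.SP

open MeasureTheory Set Complex
open scoped ENNReal RealInnerProductSpace
open Pool.Agent.H789R2.FR (E sg T sg_finite)
open Pool.Agent.H438R2.BR (Phi J J_mp J_inner Q)
open Pool.Agent.TH335.RF (wt wt_meas wt_nonneg wt_pos wt_le_one FB ball_fin FB_Lp enorm_e MA Gf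
  MA_int MA_meas Hyp main_term)

variable {m : ℕ}

lemma Al_vol (ϑ : ℝ) : volume (Al ϑ) = ENNReal.ofReal Real.pi := by
  unfold Al
  rw [Real.volume_Ioc]
  congr 1
  ring

/-- the main part -/
lemma main_part (hm : 1 ≤ m) {P q : ℝ} (hq : 2 < q) (hqP : q < P) (hyp : Hyp 2 m P)
    (h : 1 < (q - 2) * (1 / 2 + 1 / (P - 2))) (c : ℂ) :
    ∃ C : ℝ, 0 < C ∧ ∀ (ϑ z : ℝ), (z = 1 ∨ z = -1) → ∀ g : E (2 + m) → ℂ, Measurable g →
      (∀ x, ‖g x‖ ≤ 1) →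
      ∫⁻ ρ in Ioi (1 : ℝ), ENNReal.ofReal ρ * ∫⁻ α in Al ϑ, ∫⁻ y' : E m,
        ‖(2 * c * ((ρ ^ (-(1 / 2) : ℝ) : ℝ) : ℂ)) * Gf 2 (Fa ϑ g α) (z * ρ) y'‖ₑ ^ q ≤
        ENNReal.ofReal C := by
  have hpi := Real.pi_pos
  obtain ⟨C, hC, hmain⟩ := main_term (m := m) 2 le_rfl hm P q hq hqP hyp (by
    have e : (((2 : ℕ) : ℝ) - 1) / 2 = 1 / 2 := by norm_num
    rw [e]
    exact h)
  have hq0 : 0 < q := by linarith
  refine ⟨(2 * ‖c‖ + 1) ^ q * (Real.pi * C), by positivity, fun ϑ z hz g hg hb => ?_⟩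
  set S : ℝ → ℝ → ℝ≥0∞ := fun ρ α => ∫⁻ y' : E m, ‖Gf 2 (Fa ϑ g α) (z * ρ) y'‖ₑ ^ q with hS
  have hSm : Measurable fun p : ℝ × ℝ => S p.1 p.2 := by
    have h1 : Measurable fun p : (ℝ × ℝ) × E m =>
        ‖Gf 2 (Fa ϑ g p.1.2) (z * p.1.1) p.2‖ₑ ^ q := (Gf_meas3 z ϑ hg).enorm.pow_const q
    exact h1.lintegral_prod_right'
  have e1 : ∀ ρ ∈ Ioi (1 : ℝ), ENNReal.ofReal ρ * ∫⁻ α in Al ϑ, ∫⁻ y' : E m,
        ‖(2 * c * ((ρ ^ (-(1 / 2) : ℝ) : ℝ) : ℂ)) * Gf 2 (Fa ϑ g α) (z * ρ) y'‖ₑ ^ q =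
      ∫⁻ α in Al ϑ, ENNReal.ofReal ((2 * ‖c‖) ^ q) *
        (ENNReal.ofReal (ρ ^ (-((((2 : ℕ) : ℝ) - 1) * (q / 2 - 1)))) * S ρ α) := by
    intro ρ hρ
    have hρ0 : (0 : ℝ) < ρ := lt_trans one_pos hρ
    have e2 : ∀ α, ∫⁻ y' : E m,
        ‖(2 * c * ((ρ ^ (-(1 / 2) : ℝ) : ℝ) : ℂ)) * Gf 2 (Fa ϑ g α) (z * ρ) y'‖ₑ ^ q =
        ENNReal.ofReal ((2 * ‖c‖) ^ q * ρ ^ (-(q / 2))) * S ρ α := by
      intro α
      rw [hS]
      simp only
      rw [← lintegral_const_mul' _ _ ENNReal.ofReal_ne_top]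
      refine lintegral_congr fun y' => ?_
      rw [enorm_mul, ENNReal.mul_rpow_of_nonneg _ _ hq0.le]
      congr 1
      rw [← ofReal_norm, ENNReal.ofReal_rpow_of_nonneg (norm_nonneg _) hq0.le, norm_mul, norm_mul,
        norm_real, Real.norm_of_nonneg (by positivity), Real.mul_rpow (by positivity) (by positivity),
        ← Real.rpow_mul hρ0.le]
      norm_num
      congr 3
      ring
    simp only [e2]
    rw [← lintegral_const_mul' _ _ ENNReal.ofReal_ne_top]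
    refine lintegral_congr fun α => ?_
    rw [← mul_assoc, ← mul_assoc, ← ENNReal.ofReal_mul hρ0.le, ← ENNReal.ofReal_mul (by positivity)]
    congr 2
    have e3 : ρ * ρ ^ (-(q / 2)) = ρ ^ (-((((2 : ℕ) : ℝ) - 1) * (q / 2 - 1))) := by
      rw [← Real.rpow_one_add' hρ0.le]
      · congr 1
        norm_num
        ring
      · intro h0
        linarith
    rw [← e3]
    ring
  rw [setLIntegral_congr_fun measurableSet_Ioi e1, lintegral_lintegral_swap]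
  · have e4 : ∀ α, ∫⁻ ρ in Ioi (1 : ℝ), ENNReal.ofReal ((2 * ‖c‖) ^ q) *
        (ENNReal.ofReal (ρ ^ (-((((2 : ℕ) : ℝ) - 1) * (q / 2 - 1)))) * S ρ α) ≤
        ENNReal.ofReal ((2 * ‖c‖) ^ q) * ENNReal.ofReal C := by
      intro α
      rw [lintegral_const_mul' _ _ ENNReal.ofReal_ne_top]
      gcongr
      exact hmain (Fa ϑ g α) (Fa_meas' ϑ hg α) (Fa_norm ϑ hb α) z hz
    refine (lintegral_mono e4).trans ?_
    rw [setLIntegral_const, Al_vol, ← ENNReal.ofReal_mul (by positivity),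
      ← ENNReal.ofReal_mul (by positivity)]
    apply ENNReal.ofReal_le_ofReal
    have h5 : (2 * ‖c‖) ^ q ≤ (2 * ‖c‖ + 1) ^ q :=
      Real.rpow_le_rpow (by positivity) (by linarith) hq0.le
    calc (2 * ‖c‖) ^ q * C * Real.pi = (2 * ‖c‖) ^ q * (Real.pi * C) := by ring
      _ ≤ _ := by gcongr
  · refine Measurable.aemeasurable ?_
    have h6 : Measurable fun p : ℝ × ℝ =>
        ENNReal.ofReal (p.1 ^ (-((((2 : ℕ) : ℝ) - 1) * (q / 2 - 1)))) * S p.1 p.2 :=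
      (measurable_fst.pow_const _).ennreal_ofReal.mul hSm
    exact h6.const_mul _

/-- Hölder's inequality on the ball -/
lemma hold (hm : 1 ≤ m) {q β : ℝ} (hq : 2 < q) {A : E m → ℂ} (hA : Measurable A) :
    (∫⁻ y in Metric.ball (0 : E m) 1, ‖A y‖ₑ ^ (2 : ℝ)) ^ (q / 2) ≤
      Wb m β ^ (q / 2 - 1) *
        ∫⁻ y in Metric.ball (0 : E m) 1, ENNReal.ofReal (wt y ^ (β * (q / 2 - 1))) * ‖A y‖ₑ ^ q := by
  have hw := wt_meas (m := m)
  have hw1 : Measurable fun y : E m => ENNReal.ofReal (wt y ^ (-β)) := (hw.pow_const _).ennreal_ofReal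
  have hw2 : Measurable fun y : E m => ENNReal.ofReal (wt y ^ β) := (hw.pow_const _).ennreal_ofReal
  have hh : Measurable fun y : E m => ENNReal.ofReal (wt y ^ β) * ‖A y‖ₑ ^ (2 : ℝ) :=
    hw2.mul (hA.enorm.pow_const _)
  have h1 := Pool.Agent.U506.RR.wh (μ := volume.restrict (Metric.ball (0 : E m) 1))
    hw1.aemeasurable hh.aemeasurable (p := q / 2) (by linarith)
  have e1 : ∫⁻ y in Metric.ball (0 : E m) 1, ENNReal.ofReal (wt y ^ (-β)) *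
      (ENNReal.ofReal (wt y ^ β) * ‖A y‖ₑ ^ (2 : ℝ)) =
      ∫⁻ y in Metric.ball (0 : E m) 1, ‖A y‖ₑ ^ (2 : ℝ) := by
    refine setLIntegral_congr_fun measurableSet_ball fun y hy => ?_
    have h0 := wt_pos hy
    rw [← mul_assoc, ← ENNReal.ofReal_mul (by positivity), ← Real.rpow_add h0, neg_add_cancel,
      Real.rpow_zero, ENNReal.ofReal_one, one_mul]
  have e2 : ∫⁻ y in Metric.ball (0 : E m) 1, ENNReal.ofReal (wt y ^ (-β)) *
      (ENNReal.ofReal (wt y ^ β) * ‖A y‖ₑ ^ (2 : ℝ)) ^ (q / 2) =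
      ∫⁻ y in Metric.ball (0 : E m) 1, ENNReal.ofReal (wt y ^ (β * (q / 2 - 1))) * ‖A y‖ₑ ^ q := by
    refine setLIntegral_congr_fun measurableSet_ball fun y hy => ?_
    have h0 := wt_pos hy
    rw [ENNReal.mul_rpow_of_nonneg _ _ (by linarith), ← ENNReal.rpow_mul,
      ENNReal.ofReal_rpow_of_nonneg (by positivity) (by linarith), ← mul_assoc,
      ← ENNReal.ofReal_mul (by positivity), ← Real.rpow_mul h0.le, ← Real.rpow_add h0]
    congr 3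
    · ring
    · ring
  rw [e1, e2] at h1
  exact h1

/-- constant for the remainder -/
noncomputable def Kr (m : ℕ) (c : ℂ) (b q : ℝ) : ℝ≥0∞ :=
  Wb m (4 / q) ^ (q / 2 - 1) * (2 ^ q * Kv q *
    (ENNReal.ofReal (3 ^ q * (11 ^ q * 3 + (2 * (32 + ‖c‖)) ^ q)) * Ka b) * (Lw b q * Wb m (4 / q)))

/-- the remainder -/
lemma rem_part (hm : 1 ≤ m) {b q : ℝ} (hb : 0 < b) (hb1 : b ≤ 1) (hq : 3 < q) (hq4 : q < 4)
    {c : ℂ} {z : ℝ} (hc : Cc c z) (ϑ : ℝ) {g : E (2 + m) → ℂ} (hg : Measurable g)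
    (hg1 : ∀ x, ‖g x‖ ≤ 1)
    (hv : ∀ y ∈ Metric.ball (0 : E m) 1, eVariationOn (fun θ => g (par y θ)) (Sc ϑ) ≤ 1) :
    ∫⁻ ρ in Ioi (1 : ℝ), ENNReal.ofReal ρ * ∫⁻ α in Al ϑ,
      (∫⁻ y in Metric.ball (0 : E m) 1, ‖Re1 c z ϑ g (ρ, α) y‖ₑ ^ (2 : ℝ)) ^ (q / 2) ≤
      Kr m c b q := by
  have hq0 : 0 < q := by linarith
  set κ : ℝ := 4 / q * (q / 2 - 1) with hκ
  have hκ2 : κ + (-2 : ℝ) = -(4 / q) := by
    rw [hκ]
    field_simp
    ring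
  have hRm := Re1_meas c z ϑ hg (m := m)
  have hRq : Measurable fun p : (ℝ × ℝ) × E m => ‖Re1 c z ϑ g p.1 p.2‖ₑ ^ q :=
    hRm.enorm.pow_const q
  have hwm : Measurable fun y : E m => ENNReal.ofReal (wt y ^ κ) :=
    ((wt_meas (m := m)).pow_const _).ennreal_ofReal
  -- step 1 : Hölder
  have s1 : ∀ p : ℝ × ℝ,
      (∫⁻ y in Metric.ball (0 : E m) 1, ‖Re1 c z ϑ g p y‖ₑ ^ (2 : ℝ)) ^ (q / 2) ≤
      Wb m (4 / q) ^ (q / 2 - 1) *
        ∫⁻ y in Metric.ball (0 : E m) 1, ENNReal.ofReal (wt y ^ κ) * ‖Re1 c z ϑ g p y‖ₑ ^ q :=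
    fun p => hold hm (by linarith) (Re1_meas' c z ϑ hg p)
  -- step 2 : one fibre
  have s2 : ∀ y ∈ Metric.ball (0 : E m) 1, ∀ ρ : ℝ, 0 < ρ →
      ∫⁻ α in Al ϑ, ‖Re1 c z ϑ g (ρ, α) y‖ₑ ^ q ≤
      2 ^ q * Kv q * (ENNReal.ofReal (3 ^ q * (11 ^ q * 3 + (2 * (32 + ‖c‖)) ^ q)) * Ka b) *
        ENNReal.ofReal (w1 b q (ρ * wt y)) := by
    intro y hy ρ hρ
    have h0 := wt_pos hy
    have k0 : Measurable fun θ : ℝ => g (par y θ) := by
      have := Measurable.comp (par_y_meas hg) (measurable_prodMk_left (x := y))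
      exact this
    have h1 := bv_int hc hb (by linarith) hb1 (by linarith) (q := q) (t := ρ * wt y) (by positivity)
      ϑ k0 (fun θ _ => hg1 _) (hv y hy)
    unfold Re1
    refine h1.trans (le_of_eq ?_)
    unfold Kt
    rw [ENNReal.ofReal_mul (by positivity)]
    ring
  set K1 : ℝ≥0∞ := 2 ^ q * Kv q *
    (ENNReal.ofReal (3 ^ q * (11 ^ q * 3 + (2 * (32 + ‖c‖)) ^ q)) * Ka b) with hK1
  -- step 3 : the fibre with the radial integral
  have s3 : ∀ y ∈ Metric.ball (0 : E m) 1,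
      ENNReal.ofReal (wt y ^ κ) * ∫⁻ ρ in Ioi (1 : ℝ), ENNReal.ofReal ρ *
        ∫⁻ α in Al ϑ, ‖Re1 c z ϑ g (ρ, α) y‖ₑ ^ q ≤
      K1 * Lw b q * ENNReal.ofReal (wt y ^ (-(4 / q))) := by
    intro y hy
    have h0 := wt_pos hy
    have h1 : ∫⁻ ρ in Ioi (1 : ℝ), ENNReal.ofReal ρ *
        ∫⁻ α in Al ϑ, ‖Re1 c z ϑ g (ρ, α) y‖ₑ ^ q ≤
        K1 * ∫⁻ ρ in Ioi (0 : ℝ), ENNReal.ofReal (ρ * w1 b q (ρ * wt y)) := by
      have hmw : Measurable fun ρ : ℝ => ENNReal.ofReal (ρ * w1 b q (ρ * wt y)) := by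
        have h2 : Measurable fun ρ : ℝ => w1 b q (ρ * wt y) :=
          (w1_meas b q).comp (measurable_id.mul_const _)
        exact (measurable_id.mul h2).ennreal_ofReal
      rw [← lintegral_const_mul _ hmw]
      refine le_trans (setLIntegral_mono' (g := fun ρ => K1 *
        ENNReal.ofReal (ρ * w1 b q (ρ * wt y))) measurableSet_Ioi fun ρ hρ => ?_)
        (lintegral_mono_set (Ioi_subset_Ioi zero_le_one))
      have hρ0 : (0 : ℝ) < ρ := lt_trans one_pos hρ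
      rw [ENNReal.ofReal_mul hρ0.le]
      calc ENNReal.ofReal ρ * ∫⁻ α in Al ϑ, ‖Re1 c z ϑ g (ρ, α) y‖ₑ ^ q
          ≤ ENNReal.ofReal ρ * (K1 * ENNReal.ofReal (w1 b q (ρ * wt y))) := by
            gcongr
            exact s2 y hy ρ hρ0
        _ = _ := by ring
    rw [rad b q h0] at h1
    calc ENNReal.ofReal (wt y ^ κ) * ∫⁻ ρ in Ioi (1 : ℝ), ENNReal.ofReal ρ *
          ∫⁻ α in Al ϑ, ‖Re1 c z ϑ g (ρ, α) y‖ₑ ^ q
        ≤ ENNReal.ofReal (wt y ^ κ) * (K1 * (ENNReal.ofReal (wt y ^ (-2 : ℝ)) * Lw b q)) := by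
          gcongr
      _ = K1 * Lw b q * (ENNReal.ofReal (wt y ^ κ) * ENNReal.ofReal (wt y ^ (-2 : ℝ))) := by ring
      _ = _ := by
          rw [← ENNReal.ofReal_mul (by positivity), ← Real.rpow_add h0, hκ2]
  -- step 4 : Tonelli
  have s4 : ∫⁻ ρ in Ioi (1 : ℝ), ENNReal.ofReal ρ * ∫⁻ α in Al ϑ,
      ∫⁻ y in Metric.ball (0 : E m) 1, ENNReal.ofReal (wt y ^ κ) * ‖Re1 c z ϑ g (ρ, α) y‖ₑ ^ q =
      ∫⁻ y in Metric.ball (0 : E m) 1, ENNReal.ofReal (wt y ^ κ) *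
        ∫⁻ ρ in Ioi (1 : ℝ), ENNReal.ofReal ρ * ∫⁻ α in Al ϑ, ‖Re1 c z ϑ g (ρ, α) y‖ₑ ^ q := by
    have k1 : ∀ ρ : ℝ, ENNReal.ofReal ρ * ∫⁻ α in Al ϑ, ∫⁻ y in Metric.ball (0 : E m) 1,
        ENNReal.ofReal (wt y ^ κ) * ‖Re1 c z ϑ g (ρ, α) y‖ₑ ^ q =
        ∫⁻ y in Metric.ball (0 : E m) 1, ENNReal.ofReal (wt y ^ κ) * (ENNReal.ofReal ρ *
          ∫⁻ α in Al ϑ, ‖Re1 c z ϑ g (ρ, α) y‖ₑ ^ q) := by
      intro ρ
      have m1 : Measurable fun p : ℝ × E m => ENNReal.ofReal (wt p.2 ^ κ) *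
          ‖Re1 c z ϑ g (ρ, p.1) p.2‖ₑ ^ q := by
        have k : Measurable fun p : ℝ × E m => p.2 := measurable_snd
        have k2 := Measurable.comp hwm k
        have k3 : Measurable fun p : ℝ × E m => (((ρ, p.1), p.2) : (ℝ × ℝ) × E m) :=
          (measurable_const.prodMk measurable_fst).prodMk measurable_snd
        have k4 := Measurable.comp hRq k3
        exact Measurable.mul k2 k4
      rw [lintegral_lintegral_swap m1.aemeasurable, ← lintegral_const_mul' _ _ ENNReal.ofReal_ne_top]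
      refine lintegral_congr fun y => ?_
      rw [lintegral_const_mul' _ _ ENNReal.ofReal_ne_top]
      ring
    simp only [k1]
    have m2 : Measurable fun p : ℝ × E m => ENNReal.ofReal (wt p.2 ^ κ) * (ENNReal.ofReal p.1 *
        ∫⁻ α in Al ϑ, ‖Re1 c z ϑ g (p.1, α) p.2‖ₑ ^ q) := by
      have k : Measurable fun p : ℝ × E m => p.2 := measurable_snd
      have k2 := Measurable.comp hwm k
      have k3 : Measurable fun p : (ℝ × E m) × ℝ => (((p.1.1, p.2), p.1.2) : (ℝ × ℝ) × E m) :=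
        ((measurable_fst.comp measurable_fst).prodMk measurable_snd).prodMk
          (measurable_snd.comp measurable_fst)
      have k4 := Measurable.comp hRq k3
      have k5 : Measurable fun p : ℝ × E m => ∫⁻ α in Al ϑ, ‖Re1 c z ϑ g (p.1, α) p.2‖ₑ ^ q :=
        Measurable.lintegral_prod_right' k4
      exact Measurable.mul k2 (Measurable.mul (by fun_prop) k5)
    rw [lintegral_lintegral_swap m2.aemeasurable]
    refine lintegral_congr fun y => ?_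
    rw [lintegral_const_mul' _ _ ENNReal.ofReal_ne_top]
  -- conclusion
  calc ∫⁻ ρ in Ioi (1 : ℝ), ENNReal.ofReal ρ * ∫⁻ α in Al ϑ,
        (∫⁻ y in Metric.ball (0 : E m) 1, ‖Re1 c z ϑ g (ρ, α) y‖ₑ ^ (2 : ℝ)) ^ (q / 2)
      ≤ ∫⁻ ρ in Ioi (1 : ℝ), Wb m (4 / q) ^ (q / 2 - 1) * (ENNReal.ofReal ρ * ∫⁻ α in Al ϑ,
        ∫⁻ y in Metric.ball (0 : E m) 1, ENNReal.ofReal (wt y ^ κ) *
          ‖Re1 c z ϑ g (ρ, α) y‖ₑ ^ q) := by
        refine lintegral_mono fun ρ => ?_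
        have hne : Wb m (4 / q) ^ (q / 2 - 1) ≠ ⊤ := by
          refine ENNReal.rpow_ne_top_of_nonneg (by linarith) (Wb_lt hm ?_ ?_).ne
          · rw [le_div_iff₀ hq0]; linarith
          · rw [div_lt_iff₀ hq0]; linarith
        rw [show Wb m (4 / q) ^ (q / 2 - 1) * (ENNReal.ofReal ρ * ∫⁻ α in Al ϑ,
          ∫⁻ y in Metric.ball (0 : E m) 1, ENNReal.ofReal (wt y ^ κ) *
          ‖Re1 c z ϑ g (ρ, α) y‖ₑ ^ q) = ENNReal.ofReal ρ * (Wb m (4 / q) ^ (q / 2 - 1) *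
          ∫⁻ α in Al ϑ, ∫⁻ y in Metric.ball (0 : E m) 1, ENNReal.ofReal (wt y ^ κ) *
          ‖Re1 c z ϑ g (ρ, α) y‖ₑ ^ q) by ring]
        gcongr
        rw [← lintegral_const_mul' _ _ hne]
        exact lintegral_mono fun α => s1 (ρ, α)
    _ = Wb m (4 / q) ^ (q / 2 - 1) * ∫⁻ y in Metric.ball (0 : E m) 1, ENNReal.ofReal (wt y ^ κ) *
        ∫⁻ ρ in Ioi (1 : ℝ), ENNReal.ofReal ρ * ∫⁻ α in Al ϑ, ‖Re1 c z ϑ g (ρ, α) y‖ₑ ^ q := by
        have hne : Wb m (4 / q) ^ (q / 2 - 1) ≠ ⊤ := by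
          refine ENNReal.rpow_ne_top_of_nonneg (by linarith) (Wb_lt hm ?_ ?_).ne
          · rw [le_div_iff₀ hq0]; linarith
          · rw [div_lt_iff₀ hq0]; linarith
        rw [lintegral_const_mul' _ _ hne, s4]
    _ ≤ Wb m (4 / q) ^ (q / 2 - 1) * ∫⁻ y in Metric.ball (0 : E m) 1,
        K1 * Lw b q * ENNReal.ofReal (wt y ^ (-(4 / q))) := by
        exact mul_le_mul' le_rfl (setLIntegral_mono' measurableSet_ball s3)
    _ = Kr m c b q := by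
        have hm5 : Measurable fun y : E m => ENNReal.ofReal (wt y ^ (-(4 / q))) :=
          ((wt_meas (m := m)).pow_const _).ennreal_ofReal
        rw [lintegral_const_mul _ hm5]
        unfold Kr
        rw [mul_assoc K1]
        rfl

end Pool.Agent.U506.SP
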