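import Mathlib
import Pool.Agent.U506.SP.G5
set_option autoImplicit false
set_option maxHeartbeats 400000

/-! The estimate for a sector and for the operator. -/

namespace Pool.Agent.U506.SP

open MeasureTheory Set Complex
open scoped ENNReal RealInnerProductSpace
open Pool.Agent.H789R2.FR (E sg T sg_finite)
open Pool.Agent.H438R2.BR (Phi J J_mp J_inner Q)
open Pool.Agent.H438R2.PD (P1 P2 P1_meas P2_meas T_meas' T_le)
open Pool.Agent.TH335.RF (wt wt_meas wt_nonneg wt_pos wt_le_one FB ball_fin FB_Lp enorm_e MA Gf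
  MA_int MA_meas Hyp main_term)

variable {m : ℕ}

lemma Ka_lt {b : ℝ} (hb1 : b < 1) : Ka b < ⊤ := by
  unfold Ka
  exact ENNReal.add_lt_top.2 ⟨ENNReal.mul_lt_top (by simp) (Kb_lt hb1), ENNReal.ofReal_lt_top⟩

lemma Kv_lt {q : ℝ} (hq : 1 ≤ q) : Kv q < ⊤ := by
  unfold Kv
  have h2 : (2 : ℝ≥0∞) ^ (q - 1) < ⊤ := ENNReal.rpow_lt_top_of_nonneg (by linarith) (by simp)
  have h3 : (3 : ℝ≥0∞) ^ q < ⊤ := ENNReal.rpow_lt_top_of_nonneg (by linarith) (by simp)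
  exact ENNReal.mul_lt_top h2 (ENNReal.add_lt_top.2 ⟨by simp, ENNReal.mul_lt_top h2
    (ENNReal.add_lt_top.2 ⟨h3, by simp⟩)⟩)

lemma Kr_lt (hm : 1 ≤ m) (c : ℂ) {b q : ℝ} (hb1 : b < 1) (hq : 3 < q) (hq4 : q < 4)
    (hbq : 4 < q + b) : Kr m c b q < ⊤ := by
  have hq0 : 0 < q := by linarith
  have hW : Wb m (4 / q) < ⊤ := Wb_lt hm (by rw [le_div_iff₀ hq0]; linarith)
    (by rw [div_lt_iff₀ hq0]; linarith)
  unfold Kr
  refine ENNReal.mul_lt_top (ENNReal.rpow_lt_top_of_nonneg (by linarith) hW.ne) ?_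
  refine ENNReal.mul_lt_top ?_ (ENNReal.mul_lt_top (Lw_lt hq4 hbq) hW)
  refine ENNReal.mul_lt_top (ENNReal.mul_lt_top
    (ENNReal.rpow_lt_top_of_nonneg (by linarith) (by simp)) (Kv_lt (by linarith))) ?_
  exact ENNReal.mul_lt_top ENNReal.ofReal_lt_top (Ka_lt hb1)

/-- crude bound -/
noncomputable def K0 (m : ℕ) (C q : ℝ) : ℝ≥0∞ :=
  (ENNReal.ofReal C * (ENNReal.ofReal (Real.pi ^ 2) * volume (Metric.ball (0 : E m) 1))) ^ (q / 2)

lemma K0_lt (C : ℝ) {q : ℝ} (hq : 0 ≤ q) : K0 m C q < ⊤ := by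
  unfold K0
  refine ENNReal.rpow_lt_top_of_nonneg (by linarith) ?_
  exact (ENNReal.mul_lt_top ENNReal.ofReal_lt_top (ENNReal.mul_lt_top ENNReal.ofReal_lt_top
    measure_ball_lt_top)).ne

/-- half of the plane, in polar coordinates -/
lemma half (hm : 1 ≤ m) {b q C1 CM : ℝ} (hb : 0 < b) (hb1 : b ≤ 1) (hq : 3 < q) (hq4 : q < 4)
    {c : ℂ} {z : ℝ} (hc : Cc c z)
    (hFB : ∀ A : E m → ℂ, Measurable A → ∫⁻ y, ‖FB A y‖ₑ ^ q ≤ (ENNReal.ofReal C1 *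
      ∫⁻ z in Metric.ball (0 : E m) 1, ‖A z‖ₑ ^ (2 : ℝ)) ^ (q / 2))
    (hM : ∀ (ϑ z : ℝ), (z = 1 ∨ z = -1) → ∀ g : E (2 + m) → ℂ, Measurable g →
      (∀ x, ‖g x‖ ≤ 1) →
      ∫⁻ ρ in Ioi (1 : ℝ), ENNReal.ofReal ρ * ∫⁻ α in Al ϑ, ∫⁻ y' : E m,
        ‖(2 * c * ((ρ ^ (-(1 / 2) : ℝ) : ℝ) : ℂ)) * Gf 2 (Fa ϑ g α) (z * ρ) y'‖ₑ ^ q ≤
        ENNReal.ofReal CM) (ϑ : ℝ) {g : E (2 + m) → ℂ} (hg : Measurable g)
    (hg1 : ∀ x, ‖g x‖ ≤ 1)
    (hv : ∀ y ∈ Metric.ball (0 : E m) 1, eVariationOn (fun θ => g (par y θ)) (Sc ϑ) ≤ 1) :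
    ∫⁻ r in Ioi (0 : ℝ), ENNReal.ofReal r * ∫⁻ α in Al ϑ, ∫⁻ y' : E m,
      ‖FB (Am ϑ g ((z * r) • om α)) y'‖ₑ ^ q ≤
      K0 m C1 q * ENNReal.ofReal Real.pi +
        2 ^ (q - 1) * (ENNReal.ofReal C1 ^ (q / 2) * Kr m c b q + ENNReal.ofReal CM) := by
  have hpi := Real.pi_pos
  have hq0 : 0 < q := by linarith
  have hu : Ioi (0 : ℝ) = Ioc 0 1 ∪ Ioi 1 := by
    rw [Ioc_union_Ioi_eq_Ioi zero_le_one]
  rw [hu]
  refine (lintegral_union_le _ _ _).trans (add_le_add ?_ ?_)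
  · -- small radii
    have h1 : ∀ x : E 2, ∫⁻ y' : E m, ‖FB (Am ϑ g x) y'‖ₑ ^ q ≤ K0 m C1 q := by
      intro x
      have hAm : Measurable (Am ϑ g x) := by
        have k1 := Measurable.comp (Am_meas ϑ hg) (measurable_prodMk_left (x := x))
        exact k1
      refine (hFB _ hAm).trans ?_
      unfold K0
      refine ENNReal.rpow_le_rpow ?_ (by linarith)
      gcongr
      rw [← setLIntegral_const]
      refine lintegral_mono fun y => ?_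
      rw [← ofReal_norm, ENNReal.ofReal_rpow_of_nonneg (norm_nonneg _) (by norm_num)]
      apply ENNReal.ofReal_le_ofReal
      have h2 := Am_norm ϑ hg1 x y
      rw [Real.rpow_two]
      exact pow_le_pow_left₀ (norm_nonneg _) h2 2
    calc ∫⁻ r in Ioc (0 : ℝ) 1, ENNReal.ofReal r * ∫⁻ α in Al ϑ, ∫⁻ y' : E m,
          ‖FB (Am ϑ g ((z * r) • om α)) y'‖ₑ ^ q
        ≤ ∫⁻ _r in Ioc (0 : ℝ) 1, K0 m C1 q * ENNReal.ofReal Real.pi := by
          refine setLIntegral_mono' measurableSet_Ioc fun r hr => ?_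
          have h3 : ∫⁻ α in Al ϑ, ∫⁻ y' : E m, ‖FB (Am ϑ g ((z * r) • om α)) y'‖ₑ ^ q ≤
              K0 m C1 q * ENNReal.ofReal Real.pi := by
            refine (lintegral_mono fun α => h1 _).trans ?_
            rw [setLIntegral_const, Al_vol]
          calc ENNReal.ofReal r * ∫⁻ α in Al ϑ, ∫⁻ y' : E m,
                ‖FB (Am ϑ g ((z * r) • om α)) y'‖ₑ ^ q
              ≤ 1 * (K0 m C1 q * ENNReal.ofReal Real.pi) := by
                gcongr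
                rw [ENNReal.ofReal_le_one]
                exact hr.2
            _ = _ := one_mul _
      _ = _ := by
          rw [setLIntegral_const, Real.volume_Ioc]
          simp
  · -- large radii
    set R : ℝ → ℝ → ℝ≥0∞ := fun ρ α =>
      (∫⁻ y in Metric.ball (0 : E m) 1, ‖Re1 c z ϑ g (ρ, α) y‖ₑ ^ (2 : ℝ)) ^ (q / 2) with hR
    set G : ℝ → ℝ → ℝ≥0∞ := fun ρ α => ∫⁻ y' : E m,
        ‖(2 * c * ((ρ ^ (-(1 / 2) : ℝ) : ℝ) : ℂ)) * Gf 2 (Fa ϑ g α) (z * ρ) y'‖ₑ ^ q with hG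
    have hRm : Measurable fun p : ℝ × ℝ => R p.1 p.2 := by
      have h1 : Measurable fun p : (ℝ × ℝ) × E m => ‖Re1 c z ϑ g p.1 p.2‖ₑ ^ (2 : ℝ) :=
        (Re1_meas c z ϑ hg).enorm.pow_const _
      exact (h1.lintegral_prod_right').pow_const _
    have h1 : ∀ ρ : ℝ, 0 < ρ → ∀ α : ℝ, ∫⁻ y' : E m, ‖FB (Am ϑ g ((z * ρ) • om α)) y'‖ₑ ^ q ≤
        2 ^ (q - 1) * (ENNReal.ofReal C1 ^ (q / 2) * R ρ α + G ρ α) := by
      intro ρ hρ α
      have hFm : Measurable fun y' : E m => ‖FB (Re1 c z ϑ g (ρ, α)) y'‖ₑ ^ q := by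
        have h2 : Measurable fun p : (ℝ × ℝ) × E m => FB (Re1 c z ϑ g p.1) p.2 :=
          FB_meas (Re1_meas c z ϑ hg)
        have h3 := Measurable.comp h2 (measurable_prodMk_left (x := ((ρ, α) : ℝ × ℝ)))
        exact h3.enorm.pow_const q
      calc ∫⁻ y' : E m, ‖FB (Am ϑ g ((z * ρ) • om α)) y'‖ₑ ^ q
          ≤ ∫⁻ y' : E m, 2 ^ (q - 1) * (‖FB (Re1 c z ϑ g (ρ, α)) y'‖ₑ ^ q +
            ‖(2 * c * ((ρ ^ (-(1 / 2) : ℝ) : ℝ) : ℂ)) * Gf 2 (Fa ϑ g α) (z * ρ) y'‖ₑ ^ q) := by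
            refine lintegral_mono fun y' => ?_
            rw [FB_dec hm c ϑ z ρ α hg hg1 hρ y']
            exact (ENNReal.rpow_le_rpow (enorm_add_le _ _) hq0.le).trans
              (two_rpow (by linarith) _ _)
        _ = 2 ^ (q - 1) * ((∫⁻ y' : E m, ‖FB (Re1 c z ϑ g (ρ, α)) y'‖ₑ ^ q) + G ρ α) := by
            rw [lintegral_const_mul' _ _ (ENNReal.rpow_ne_top_of_nonneg (by linarith) (by simp)),
              lintegral_add_left hFm]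
        _ ≤ _ := by
            gcongr
            refine (hFB _ (Re1_meas' c z ϑ hg _)).trans (le_of_eq ?_)
            rw [ENNReal.mul_rpow_of_nonneg _ _ (by linarith)]
    have hC1 : ENNReal.ofReal C1 ^ (q / 2) ≠ ⊤ :=
      ENNReal.rpow_ne_top_of_nonneg (by linarith) ENNReal.ofReal_ne_top
    have h2c : (2 : ℝ≥0∞) ^ (q - 1) ≠ ⊤ := ENNReal.rpow_ne_top_of_nonneg (by linarith) (by simp)
    calc ∫⁻ ρ in Ioi (1 : ℝ), ENNReal.ofReal ρ * ∫⁻ α in Al ϑ, ∫⁻ y' : E m,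
          ‖FB (Am ϑ g ((z * ρ) • om α)) y'‖ₑ ^ q
        ≤ ∫⁻ ρ in Ioi (1 : ℝ), 2 ^ (q - 1) * (ENNReal.ofReal C1 ^ (q / 2) *
          (ENNReal.ofReal ρ * ∫⁻ α in Al ϑ, R ρ α) + ENNReal.ofReal ρ * ∫⁻ α in Al ϑ, G ρ α) := by
          refine setLIntegral_mono' measurableSet_Ioi fun ρ hρ => ?_
          have hρ0 : (0 : ℝ) < ρ := lt_trans one_pos hρ
          have hRα : Measurable fun α => R ρ α := by
            have := Measurable.comp hRm (measurable_prodMk_left (x := ρ))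
            exact this
          calc ENNReal.ofReal ρ * ∫⁻ α in Al ϑ, ∫⁻ y' : E m,
                ‖FB (Am ϑ g ((z * ρ) • om α)) y'‖ₑ ^ q
              ≤ ENNReal.ofReal ρ * ∫⁻ α in Al ϑ,
                2 ^ (q - 1) * (ENNReal.ofReal C1 ^ (q / 2) * R ρ α + G ρ α) := by
                gcongr with α
                exact h1 ρ hρ0 α
            _ = _ := by
                rw [lintegral_const_mul' _ _ h2c, lintegral_add_left (hRα.const_mul _),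
                  lintegral_const_mul' _ _ hC1]
                ring
      _ = 2 ^ (q - 1) * (ENNReal.ofReal C1 ^ (q / 2) *
          (∫⁻ ρ in Ioi (1 : ℝ), ENNReal.ofReal ρ * ∫⁻ α in Al ϑ, R ρ α) +
          ∫⁻ ρ in Ioi (1 : ℝ), ENNReal.ofReal ρ * ∫⁻ α in Al ϑ, G ρ α) := by
          have hm3 : Measurable fun ρ : ℝ => ENNReal.ofReal C1 ^ (q / 2) *
              (ENNReal.ofReal ρ * ∫⁻ α in Al ϑ, R ρ α) :=
            Measurable.const_mul (Measurable.mul (by fun_prop) hRm.lintegral_prod_right') _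
          rw [lintegral_const_mul' _ _ h2c, lintegral_add_left hm3, lintegral_const_mul' _ _ hC1]
      _ ≤ _ := by
          gcongr
          · exact rem_part hm hb hb1 hq hq4 hc ϑ hg hg1 hv
          · exact hM ϑ z hc.1 g hg hg1

/-- the estimate for a sector -/
theorem sector (hm : 1 ≤ m) {P q : ℝ} (hq : 3 < q) (hq4 : q < 4) (hqP : q < P)
    (hyp : Hyp 2 m P) (h : 1 < (q - 2) * (1 / 2 + 1 / (P - 2))) :
    ∃ C : ℝ, 0 < C ∧ ∀ (ϑ : ℝ) (g : E (2 + m) → ℂ), Measurable g → (∀ x, ‖g x‖ ≤ 1) →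
      (∀ y ∈ Metric.ball (0 : E m) 1, eVariationOn (fun θ => g (par y θ)) (Sc ϑ) ≤ 1) →
      ∫⁻ x : E 2, ∫⁻ y' : E m, ‖FB (Am ϑ g x) y'‖ₑ ^ q ≤ ENNReal.ofReal C := by
  obtain ⟨C1, hC1, hFB⟩ := FB_Lp m q (by linarith)
  obtain ⟨c, hc⟩ := Cc_ex (z := 1) (Or.inl rfl)
  obtain ⟨d, hd⟩ := Cc_ex (z := -1) (Or.inr rfl)
  obtain ⟨CM, hCM, hM⟩ := main_part hm (by linarith) hqP hyp h c
  obtain ⟨DM, hDM, hN⟩ := main_part hm (by linarith) hqP hyp h d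
  set b : ℝ := (5 - q) / 2 with hb
  have hb0 : 0 < b := by rw [hb]; linarith
  have hb1 : b < 1 := by rw [hb]; linarith
  have hbq : 4 < q + b := by rw [hb]; linarith
  set K : ℝ≥0∞ := (K0 m C1 q * ENNReal.ofReal Real.pi +
        2 ^ (q - 1) * (ENNReal.ofReal C1 ^ (q / 2) * Kr m c b q + ENNReal.ofReal CM)) +
      (K0 m C1 q * ENNReal.ofReal Real.pi +
        2 ^ (q - 1) * (ENNReal.ofReal C1 ^ (q / 2) * Kr m d b q + ENNReal.ofReal DM)) with hK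
  have hKt : K < ⊤ := by
    have h1 : K0 m C1 q * ENNReal.ofReal Real.pi < ⊤ :=
      ENNReal.mul_lt_top (K0_lt C1 (by linarith)) ENNReal.ofReal_lt_top
    have h2 : ∀ (e : ℂ) (D : ℝ), 2 ^ (q - 1) * (ENNReal.ofReal C1 ^ (q / 2) * Kr m e b q +
        ENNReal.ofReal D) < ⊤ := by
      intro e D
      refine ENNReal.mul_lt_top (ENNReal.rpow_lt_top_of_nonneg (by linarith) (by simp)) ?_
      refine ENNReal.add_lt_top.2 ⟨ENNReal.mul_lt_top ?_ (Kr_lt hm e hb1 hq hq4 hbq),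
        ENNReal.ofReal_lt_top⟩
      exact ENNReal.rpow_lt_top_of_nonneg (by linarith) ENNReal.ofReal_ne_top
    rw [hK]
    exact ENNReal.add_lt_top.2 ⟨ENNReal.add_lt_top.2 ⟨h1, h2 _ _⟩, ENNReal.add_lt_top.2 ⟨h1, h2 _ _⟩⟩
  refine ⟨K.toReal + 1, by positivity, fun ϑ g hg hg1 hv => ?_⟩
  have hKm : Measurable fun x : E 2 => ∫⁻ y' : E m, ‖FB (Am ϑ g x) y'‖ₑ ^ q := by
    have h1 : Measurable fun p : E 2 × E m => FB (Am ϑ g p.1) p.2 := FB_meas (Am_meas ϑ hg)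
    exact (h1.enorm.pow_const q).lintegral_prod_right'
  calc ∫⁻ x : E 2, ∫⁻ y' : E m, ‖FB (Am ϑ g x) y'‖ₑ ^ q ≤ K := by
        rw [pol3 hKm ϑ, hK]
        exact add_le_add (half hm hb0 hb1.le hq hq4 hc hFB hM ϑ hg hg1 hv)
          (half hm hb0 hb1.le hq hq4 hd hFB hN ϑ hg hg1 hv)
    _ = ENNReal.ofReal K.toReal := (ENNReal.ofReal_toReal hKt.ne).symm
    _ ≤ _ := ENNReal.ofReal_le_ofReal (by linarith)

lemma four_add {α : Type*} [MeasurableSpace α] (μ : Measure α) {k : ℝ≥0∞} (hk : k ≠ ⊤)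
    {f1 f2 f3 f4 : α → ℝ≥0∞} (h1 : Measurable f1) (h2 : Measurable f2) (h3 : Measurable f3) :
    ∫⁻ a, k * (k * (f1 a + f2 a) + k * (f3 a + f4 a)) ∂μ =
      k * (k * ((∫⁻ a, f1 a ∂μ) + ∫⁻ a, f2 a ∂μ) + k * ((∫⁻ a, f3 a ∂μ) + ∫⁻ a, f4 a ∂μ)) := by
  have h12 : Measurable fun a => k * (f1 a + f2 a) := (h1.add h2).const_mul k
  rw [lintegral_const_mul' _ _ hk, lintegral_add_left h12, lintegral_const_mul' _ _ hk,
    lintegral_const_mul' _ _ hk, lintegral_add_left h1, lintegral_add_left h3]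

/-- the estimate for the operator, exponents between 3 and 4 -/
theorem T_est (hm : 1 ≤ m) {P q : ℝ} (hq : 3 < q) (hq4 : q < 4) (hqP : q < P)
    (hyp : Hyp 2 m P) (h : 1 < (q - 2) * (1 / 2 + 1 / (P - 2))) :
    ∃ C : ℝ, 0 < C ∧ ∀ (g : E (2 + m) → ℂ), Measurable g → (∀ x, ‖g x‖ ≤ 1) →
      (∀ y ∈ Metric.ball (0 : E m) 1,
        eVariationOn (fun θ => g (par y θ)) (Ioc (-Real.pi) Real.pi) ≤ 1) →
      ∫⁻ x, ‖T g x‖ₑ ^ q ≤ ENNReal.ofReal C := by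
  have hpi := Real.pi_pos
  have hq0 : 0 < q := by linarith
  obtain ⟨C, hC, hs⟩ := sector hm hq hq4 hqP hyp h
  have h2c : (2 : ℝ≥0∞) ^ (q - 1) ≠ ⊤ := ENNReal.rpow_ne_top_of_nonneg (by linarith) (by simp)
  set K : ℝ≥0∞ := 2 ^ (q - 1) * (2 ^ (q - 1) * (ENNReal.ofReal C + ENNReal.ofReal C) +
    2 ^ (q - 1) * (ENNReal.ofReal C + ENNReal.ofReal C)) with hK
  have hKt : K < ⊤ := by
    have h1 : 2 ^ (q - 1) * (ENNReal.ofReal C + ENNReal.ofReal C) < ⊤ :=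
      ENNReal.mul_lt_top h2c.lt_top (by simp)
    exact ENNReal.mul_lt_top h2c.lt_top (ENNReal.add_lt_top.2 ⟨h1, h1⟩)
  refine ⟨K.toReal + 1, by positivity, fun g hg hg1 hv => ?_⟩
  have hS : ∀ ϑ : ℝ, -Real.pi ≤ ϑ - Real.pi / 4 → ϑ + Real.pi / 4 ≤ Real.pi →
      ∫⁻ x : E 2, ∫⁻ y' : E m, ‖FB (Am ϑ g x) y'‖ₑ ^ q ≤ ENNReal.ofReal C := by
    intro ϑ h1 h2
    refine hs ϑ g hg hg1 fun y hy => ?_
    refine le_trans (eVariationOn.mono _ ?_) (hv y hy)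
    unfold Sc
    exact Ioc_subset_Ioc h1 h2
  have hmeas : ∀ ϑ : ℝ, Measurable fun x : E 2 => ∫⁻ y' : E m, ‖FB (Am ϑ g x) y'‖ₑ ^ q := by
    intro ϑ
    have h1 : Measurable fun p : E 2 × E m => FB (Am ϑ g p.1) p.2 := FB_meas (Am_meas ϑ hg)
    exact (h1.enorm.pow_const q).lintegral_prod_right'
  have hmeas' : ∀ ϑ : ℝ, ∀ x : E 2, Measurable fun y' : E m => ‖FB (Am ϑ g x) y'‖ₑ ^ q := by
    intro ϑ x
    have h1 : Measurable fun p : E 2 × E m => FB (Am ϑ g p.1) p.2 := FB_meas (Am_meas ϑ hg)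
    have h2 := Measurable.comp h1 (measurable_prodMk_left (x := x))
    exact h2.enorm.pow_const q
  have hTm : Measurable fun z : E (2 + m) => ‖T g z‖ₑ ^ q := (T_meas' g hg).enorm.pow_const q
  have hJm : Measurable fun p : E 2 × E m => J p.1 p.2 := (J_mp 2 m).measurable
  have e1 : ∫⁻ z, ‖T g z‖ₑ ^ q = ∫⁻ x : E 2, ∫⁻ y' : E m, ‖T g (J x y')‖ₑ ^ q := by
    rw [← (J_mp 2 m).lintegral_comp hTm, lintegral_prod]
    exact (hTm.comp hJm).aemeasurable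
  set a1 : ℝ := -(3 * Real.pi / 4) with ha1
  set a2 : ℝ := -(Real.pi / 4) with ha2
  set a3 : ℝ := Real.pi / 4 with ha3
  set a4 : ℝ := 3 * Real.pi / 4 with ha4
  have hpt : ∀ (x : E 2) (y' : E m), ‖T g (J x y')‖ₑ ^ q ≤ 2 ^ (q - 1) *
      (2 ^ (q - 1) * (‖FB (Am a1 g x) y'‖ₑ ^ q + ‖FB (Am a2 g x) y'‖ₑ ^ q) +
        2 ^ (q - 1) * (‖FB (Am a3 g x) y'‖ₑ ^ q + ‖FB (Am a4 g x) y'‖ₑ ^ q)) := by
    intro x y'
    rw [T_four hm hg hg1 x y']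
    have t : ∀ u v : ℂ, ‖u + v‖ₑ ^ q ≤ 2 ^ (q - 1) * (‖u‖ₑ ^ q + ‖v‖ₑ ^ q) := fun u v =>
      (ENNReal.rpow_le_rpow (enorm_add_le _ _) hq0.le).trans (two_rpow (by linarith) _ _)
    refine (t _ _).trans ?_
    gcongr
    · exact t _ _
    · exact t _ _
  calc ∫⁻ x, ‖T g x‖ₑ ^ q ≤ K := by
        rw [e1]
        calc ∫⁻ x : E 2, ∫⁻ y' : E m, ‖T g (J x y')‖ₑ ^ q
            ≤ ∫⁻ x : E 2, ∫⁻ y' : E m, 2 ^ (q - 1) *
              (2 ^ (q - 1) * (‖FB (Am a1 g x) y'‖ₑ ^ q + ‖FB (Am a2 g x) y'‖ₑ ^ q) +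
              2 ^ (q - 1) * (‖FB (Am a3 g x) y'‖ₑ ^ q + ‖FB (Am a4 g x) y'‖ₑ ^ q)) :=
              lintegral_mono fun x => lintegral_mono fun y' => hpt x y'
          _ = ∫⁻ x : E 2, 2 ^ (q - 1) *
              (2 ^ (q - 1) * ((∫⁻ y' : E m, ‖FB (Am a1 g x) y'‖ₑ ^ q) +
                ∫⁻ y' : E m, ‖FB (Am a2 g x) y'‖ₑ ^ q) +
              2 ^ (q - 1) * ((∫⁻ y' : E m, ‖FB (Am a3 g x) y'‖ₑ ^ q) +
                ∫⁻ y' : E m, ‖FB (Am a4 g x) y'‖ₑ ^ q)) := by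
              refine lintegral_congr fun x => ?_
              exact four_add _ h2c (hmeas' a1 x) (hmeas' a2 x) (hmeas' a3 x)
          _ = 2 ^ (q - 1) *
              (2 ^ (q - 1) * ((∫⁻ x : E 2, ∫⁻ y' : E m, ‖FB (Am a1 g x) y'‖ₑ ^ q) +
                ∫⁻ x : E 2, ∫⁻ y' : E m, ‖FB (Am a2 g x) y'‖ₑ ^ q) +
              2 ^ (q - 1) * ((∫⁻ x : E 2, ∫⁻ y' : E m, ‖FB (Am a3 g x) y'‖ₑ ^ q) +
                ∫⁻ x : E 2, ∫⁻ y' : E m, ‖FB (Am a4 g x) y'‖ₑ ^ q)) := by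
              exact four_add _ h2c (hmeas a1) (hmeas a2) (hmeas a3)
          _ ≤ K := by
              rw [hK]
              gcongr
              · exact hS a1 (by rw [ha1]; linarith) (by rw [ha1]; linarith)
              · exact hS a2 (by rw [ha2]; linarith) (by rw [ha2]; linarith)
              · exact hS a3 (by rw [ha3]; linarith) (by rw [ha3]; linarith)
              · exact hS a4 (by rw [ha4]; linarith) (by rw [ha4]; linarith)
    _ = ENNReal.ofReal K.toReal := (ENNReal.ofReal_toReal hKt.ne).symm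
    _ ≤ _ := ENNReal.ofReal_le_ofReal (by linarith)

end Pool.Agent.U506.SP
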