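import Mathlib
import Pool.Agent.U506.SP.G6
import Pool.Agent.TH335.RF.Q2
import Pool.Agent.U515.LF.A6
set_option autoImplicit false
set_option maxHeartbeats 400000

/-! Functions of bounded variation along the parallels. -/

namespace Pool.Agent.U506.SP

open MeasureTheory Set Complex
open scoped ENNReal RealInnerProductSpace
open Pool.Agent.H789R2.FR (E sg T sg_finite sg_ae)
open Pool.Agent.H438R2.BR (Phi J J_mp J_inner Q)
open Pool.Agent.H438R2.PD (P1 P2 P1_meas P2_meas T_meas' T_le T_comp T_congr)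
open Pool.Agent.TH335.RF (wt wt_meas wt_nonneg wt_pos wt_le_one FB ball_fin FB_Lp enorm_e MA Gf
  MA_int MA_meas Hyp main_term hyp_one)

/-- the point with angle `θ` on the parallel at height `t` about the axis `b 2` -/
noncomputable def parallel (b : Fin 3 → E 3) (t θ : ℝ) : E 3 :=
  (√(1 - t ^ 2) * Real.cos θ) • b 0 + (√(1 - t ^ 2) * Real.sin θ) • b 1 + t • b 2

lemma parallel_norm {b : Fin 3 → E 3} (hb : Orthonormal ℝ b) {t : ℝ} (ht : t ∈ Ioo (-1 : ℝ) 1)
    (θ : ℝ) : ‖parallel b t θ‖ = 1 := by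
  have h0 : 0 ≤ 1 - t ^ 2 := by nlinarith [ht.1, ht.2]
  have h1 : ‖parallel b t θ‖ ^ 2 = 1 := by
    have hs : parallel b t θ = ∑ i : Fin 3, (![√(1 - t ^ 2) * Real.cos θ,
        √(1 - t ^ 2) * Real.sin θ, t] i) • b i := by
      rw [Fin.sum_univ_three]
      rfl
    rw [hs, ← real_inner_self_eq_norm_sq, hb.inner_sum, Fin.sum_univ_three]
    simp only [Matrix.cons_val_zero, Matrix.cons_val_one, Matrix.cons_val_two, Matrix.cons_val,
      conj_trivial]
    have h2 := Real.sq_sqrt h0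
    have h3 := Real.sin_sq_add_cos_sq θ
    calc √(1 - t ^ 2) * Real.cos θ * (√(1 - t ^ 2) * Real.cos θ) +
          √(1 - t ^ 2) * Real.sin θ * (√(1 - t ^ 2) * Real.sin θ) + t * t
        = √(1 - t ^ 2) ^ 2 * (Real.sin θ ^ 2 + Real.cos θ ^ 2) + t ^ 2 := by ring
      _ = 1 := by rw [h2, h3]; ring
  have h2 := norm_nonneg (parallel b t θ)
  nlinarith

/-- all exponents -/
lemma T_est_all {m : ℕ} (hm : 1 ≤ m) {q : ℝ} (hq : 3 < q)
    (hyp : Hyp 2 m 4) :
    ∃ C : ℝ, 0 < C ∧ ∀ (g : E (2 + m) → ℂ), Measurable g → (∀ x, ‖g x‖ ≤ 1) →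
      (∀ y ∈ Metric.ball (0 : E m) 1,
        eVariationOn (fun θ => g (par y θ)) (Ioc (-Real.pi) Real.pi) ≤ 1) →
      ∫⁻ x, ‖T g x‖ₑ ^ q ≤ ENNReal.ofReal C := by
  obtain ⟨p, hp1, hp2⟩ := exists_between (lt_min hq (by norm_num : (3 : ℝ) < 4))
  have hpq : p < q := lt_of_lt_of_le hp2 (min_le_left _ _)
  have hp4 : p < 4 := lt_of_lt_of_le hp2 (min_le_right _ _)
  obtain ⟨C, hC, hT⟩ := T_est hm hp1 hp4 hp4 hyp (by norm_num; linarith)
  set S : ℝ := (sg (2 + m)).real univ with hS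
  have hS0 : 0 < S := Pool.Agent.H438R2.BR.T7.sg_pos (by omega)
  refine ⟨S ^ (q - p) * C, by positivity, fun g hg hg1 hv => ?_⟩
  have hb : ∀ z, ‖T g z‖ₑ ≤ ENNReal.ofReal S := by
    intro z
    rw [← ofReal_norm]
    apply ENNReal.ofReal_le_ofReal
    have h1 := T_le g 1 hg1 z
    rwa [one_mul] at h1
  calc ∫⁻ z, ‖T g z‖ₑ ^ q ≤ ∫⁻ z, ENNReal.ofReal S ^ (q - p) * ‖T g z‖ₑ ^ p := by
        refine lintegral_mono fun z => ?_
        have h1 : ‖T g z‖ₑ ^ q = ‖T g z‖ₑ ^ (q - p) * ‖T g z‖ₑ ^ p := by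
          rw [← ENNReal.rpow_add_of_nonneg _ _ (by linarith) (by linarith)]
          congr 1
          ring
        rw [h1]
        exact mul_le_mul_left (ENNReal.rpow_le_rpow (hb z) (by linarith)) _
    _ = ENNReal.ofReal S ^ (q - p) * ∫⁻ z, ‖T g z‖ₑ ^ p := by
        rw [lintegral_const_mul']
        exact ENNReal.rpow_ne_top_of_nonneg (by linarith) ENNReal.ofReal_ne_top
    _ ≤ ENNReal.ofReal S ^ (q - p) * ENNReal.ofReal C := by
        gcongr
        exact hT g hg hg1 hv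
    _ = _ := by
        rw [ENNReal.ofReal_rpow_of_nonneg hS0.le (by linarith), ← ENNReal.ofReal_mul (by positivity)]

lemma J0 (x : E 2) (y : E 1) : (J x y : E 3) 0 = x 0 := by
  have h : (J x y : E 3) (Fin.castAdd 1 0) = x 0 := by
    change Fin.append (fun i => x i) (fun i => y i) (Fin.castAdd 1 0) = x 0
    rw [Fin.append_left]
  exact h

lemma J1 (x : E 2) (y : E 1) : (J x y : E 3) 1 = x 1 := by
  have h : (J x y : E 3) (Fin.castAdd 1 1) = x 1 := by
    change Fin.append (fun i => x i) (fun i => y i) (Fin.castAdd 1 1) = x 1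
    rw [Fin.append_left]
  exact h

lemma J2 (x : E 2) (y : E 1) : (J x y : E 3) 2 = y 0 := by
  have h : (J x y : E 3) (Fin.natAdd 2 0) = y 0 := by
    change Fin.append (fun i => x i) (fun i => y i) (Fin.natAdd 2 0) = y 0
    rw [Fin.append_right]
  exact h

/-- the isometry to an orthonormal basis -/
lemma iso3 {b : Fin 3 → E 3} (hb : Orthonormal ℝ b) :
    ∃ Λ : E 3 ≃ₗᵢ[ℝ] E 3, ∀ x : E 3, Λ x = x 0 • b 0 + x 1 • b 1 + x 2 • b 2 := by
  have hcard : Fintype.card (Fin 3) = Module.finrank ℝ (E 3) := by simp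
  let B : OrthonormalBasis (Fin 3) ℝ (E 3) :=
    OrthonormalBasis.mk hb (by
      have h := (basisOfOrthonormalOfCardEqFinrank hb hcard).span_eq
      rw [coe_basisOfOrthonormalOfCardEqFinrank] at h
      exact h.ge)
  refine ⟨B.repr.symm, fun x => ?_⟩
  have h1 := B.sum_repr_symm x
  rw [← h1, Fin.sum_univ_three]
  simp [B]

/-- the estimate in `ℝ³` -/
theorem T3 {q : ℝ} (hq : 3 < q) : ∃ C : ℝ, 0 < C ∧ ∀ b : Fin 3 → E 3, Orthonormal ℝ b →
    ∀ G : E 3 → ℂ, Measurable G → (∀ x, ‖x‖ = 1 → ‖G x‖ ≤ 1) →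
    (∀ t ∈ Ioo (-1 : ℝ) 1,
      eVariationOn (fun θ => G (parallel b t θ)) (Icc (-Real.pi) Real.pi) ≤ 1) →
    ∫⁻ x, ‖T G x‖ₑ ^ q ≤ ENNReal.ofReal C := by
  obtain ⟨C, hC, hT⟩ := T_est_all (m := 1) le_rfl hq (hyp_one 2 le_rfl)
  refine ⟨C, hC, fun b hb G hG hG1 hv => ?_⟩
  obtain ⟨Λ, hΛ⟩ := iso3 hb
  -- cut off outside the sphere
  set G1 : E 3 → ℂ := ({x : E 3 | ‖x‖ = 1} : Set (E 3)).indicator G with hG1d
  have hG1m : Measurable G1 :=
    hG.indicator (measurableSet_eq_fun measurable_norm measurable_const)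
  have hG1b : ∀ x, ‖G1 x‖ ≤ 1 := by
    intro x
    by_cases h : ‖x‖ = 1
    · rw [hG1d, indicator_of_mem (show x ∈ {x : E 3 | ‖x‖ = 1} from h)]
      exact hG1 x h
    · rw [hG1d, indicator_of_notMem (show x ∉ {x : E 3 | ‖x‖ = 1} from h), norm_zero]
      exact zero_le_one
  have hTG : ∀ x, T G x = T G1 x := by
    intro x
    refine T_congr G G1 ?_ x
    filter_upwards [sg_ae 3] with z hz
    rw [hG1d, indicator_of_mem (show z ∈ {x : E 3 | ‖x‖ = 1} from hz)]
  -- rotate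
  set g : E 3 → ℂ := fun x => G1 (Λ x) with hg
  have hgm : Measurable g := hG1m.comp Λ.continuous.measurable
  have hrot : ∫⁻ x, ‖T G x‖ₑ ^ q = ∫⁻ x, ‖T g x‖ₑ ^ q := by
    have h1 : ∀ x, ‖T g x‖ₑ ^ q = (fun z => ‖T G1 z‖ₑ ^ q) (Λ x) := by
      intro x
      simp only
      rw [hg, T_comp]
    simp only [h1, hTG]
    exact (Λ.measurePreserving.lintegral_comp ((T_meas' G1 hG1m).enorm.pow_const q)).symm
  rw [hrot]
  refine hT g hgm (fun x => hG1b _) fun y hy => ?_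
  have hy1 : ‖y‖ ^ 2 = y 0 ^ 2 := by
    rw [EuclideanSpace.norm_sq_eq, Fin.sum_univ_one, Real.norm_eq_abs, sq_abs]
  have hn : ‖y‖ < 1 := by simpa using hy
  have ht : y 0 ∈ Ioo (-1 : ℝ) 1 := by
    have h2 : y 0 ^ 2 < 1 := by rw [← hy1]; nlinarith [norm_nonneg y]
    exact ⟨by nlinarith, by nlinarith⟩
  have hpar : ∀ θ, Λ (par y θ) = parallel b (y 0) θ := by
    intro θ
    have h3 := hΛ (par y θ)
    rw [h3]
    unfold par parallel
    rw [J0, J1, J2]
    unfold wt om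
    rw [hy1]
    simp
  have hfun : (fun θ => g (par y θ)) = fun θ => G (parallel b (y 0) θ) := by
    funext θ
    rw [hg]
    simp only
    rw [hpar, hG1d, indicator_of_mem (show parallel b (y 0) θ ∈ {x : E 3 | ‖x‖ = 1} from
      parallel_norm hb ht θ)]
  rw [hfun]
  exact (eVariationOn.mono _ Ioc_subset_Icc_self).trans (hv (y 0) ht)

/-- variation along a parallel of a function of two coordinates -/
lemma var_cos {F : ℝ → ℂ} {r : ℝ} (hr : 0 ≤ r) :
    eVariationOn (fun θ => F (r * Real.cos θ)) (Icc (-Real.pi) Real.pi) ≤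
      2 * eVariationOn F (Icc (-r) r) := by
  have hpi := Real.pi_pos
  have h1 := eVariationOn.Icc_add_Icc (fun θ => F (r * Real.cos θ)) (s := univ)
    (a := -Real.pi) (b := 0) (c := Real.pi) (by linarith) hpi.le (mem_univ _)
  simp only [univ_inter] at h1
  have hmaps : ∀ θ, r * Real.cos θ ∈ Icc (-r) r := by
    intro θ
    have h2 := Real.neg_one_le_cos θ
    have h3 := Real.cos_le_one θ
    constructor <;> nlinarith
  have a1 : eVariationOn (fun θ => F (r * Real.cos θ)) (Icc (-Real.pi) 0) ≤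
      eVariationOn F (Icc (-r) r) := by
    refine eVariationOn.comp_le_of_monotoneOn F (fun θ => r * Real.cos θ) ?_ fun θ _ => hmaps θ
    intro x hx y hy hxy
    simp only
    refine mul_le_mul_of_nonneg_left ?_ hr
    rw [← Real.cos_neg x, ← Real.cos_neg y]
    exact Real.cos_le_cos_of_nonneg_of_le_pi (by linarith [hy.2]) (by linarith [hx.1])
      (by linarith)
  have a2 : eVariationOn (fun θ => F (r * Real.cos θ)) (Icc 0 Real.pi) ≤
      eVariationOn F (Icc (-r) r) := by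
    refine eVariationOn.comp_le_of_antitoneOn F (fun θ => r * Real.cos θ) ?_ fun θ _ => hmaps θ
    intro x hx y hy hxy
    simp only
    exact mul_le_mul_of_nonneg_left (Real.cos_le_cos_of_nonneg_of_le_pi hx.1 hy.2 hxy) hr
  rw [← h1, two_mul]
  exact add_le_add a1 a2

end Pool.Agent.U506.SP
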